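import Pool.Agent.H43.RM.Fou

set_option autoImplicit false

/-! The Riesz means of the Dirichlet series of the powers of zeta: the integral over the line of absolute
convergence. -/

namespace Pool.Agent.H43.RM

open Filter Topology MeasureTheory

/-- the divisor functions: the coefficients of the powers of zeta -/
noncomputable def dm (m n : ℕ) : ℕ := (ArithmeticFunction.zeta ^ m : ArithmeticFunction ℕ) n

/-- the Riesz mean of order `ν` and length `x` at the point `1/2 + it` -/
noncomputable def rz (m : ℕ) (ν x t : ℝ) : ℂ :=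
  ∑ n ∈ Finset.Icc 1 ⌊x⌋₊, (dm m n : ℂ) * (((1 - Real.log n / Real.log x) ^ ν : ℝ) : ℂ) *
    (n : ℂ) ^ (-(1 / 2 + (t : ℂ) * Complex.I))

lemma dm_hasSum (m : ℕ) {s : ℂ} (hs : 1 < s.re) : LSeriesHasSum (fun n => (dm m n : ℂ)) s (riemannZeta s ^ m) := by
  induction m with
  | zero =>
    have h1 : LSeriesHasSum (LSeries.delta) s 1 := by
      have h2 := ArithmeticFunction.LSeries_zeta_mul_Lseries_moebius hs
      unfold LSeriesHasSum
      have h3 := hasSum_single (f := LSeries.term LSeries.delta s) 1 (fun n hn => by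
        rw [LSeries.term_delta, if_neg hn])
      rw [LSeries.term_delta, if_pos rfl] at h3
      exact h3
    rw [pow_zero]
    refine (LSeriesHasSum_congr s _ fun {n} _ => ?_).1 h1
    unfold dm
    rw [pow_zero]
    by_cases hn : n = 1
    · subst hn
      simp [LSeries.delta]
    · simp [LSeries.delta, hn]
  | succ m ih =>
    have h1 : LSeriesHasSum (fun n => ((ArithmeticFunction.zeta : ArithmeticFunction ℕ) n : ℂ)) s (riemannZeta s) := by
      have h2 := (ArithmeticFunction.LSeriesSummable_zeta_iff.2 hs).LSeriesHasSum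
      rw [ArithmeticFunction.LSeries_zeta_eq_riemannZeta hs] at h2
      exact h2
    have h3 := ArithmeticFunction.LSeriesHasSum_mul (f := ((ArithmeticFunction.zeta ^ m : ArithmeticFunction ℕ) : ArithmeticFunction ℂ))
      (g := ((ArithmeticFunction.zeta : ArithmeticFunction ℕ) : ArithmeticFunction ℂ)) ih h1
    rw [pow_succ]
    refine (LSeriesHasSum_congr s _ fun {n} _ => ?_).1 h3
    unfold dm
    rw [pow_succ, ← ArithmeticFunction.natCoe_mul]
    rfl

/-- the function under the integral, in the variable `z` -/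
noncomputable def Gz (m : ℕ) (ν δ t : ℝ) (z : ℂ) : ℂ :=
  riemannZeta (1 / 2 + (t : ℂ) * Complex.I + δ * z) ^ m * (Complex.exp z * kz ν z)

/-- the terms -/
noncomputable def Fn (m : ℕ) (ν δ t c : ℝ) (n : ℕ) (u : ℝ) : ℂ :=
  LSeries.term (fun n => (dm m n : ℂ)) (1 / 2 + (t : ℂ) * Complex.I + δ * li c u) n *
    (Complex.exp (li c u) * ker0 ν c u)

lemma term_eq (m : ℕ) (δ t c : ℝ) {n : ℕ} (hn : n ≠ 0) (u : ℝ) :
    LSeries.term (fun n => (dm m n : ℂ)) (1 / 2 + (t : ℂ) * Complex.I + δ * li c u) n =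
      (dm m n : ℂ) * (n : ℂ) ^ (-(1 / 2 + (t : ℂ) * Complex.I)) * Complex.exp (-(li c u * (δ * Real.log n : ℝ))) := by
  have hn0 : (n : ℂ) ≠ 0 := by exact_mod_cast hn
  rw [LSeries.term_of_ne_zero hn, div_eq_mul_inv, ← Complex.cpow_neg, neg_add, Complex.cpow_add _ _ hn0, mul_assoc]
  congr 2
  rw [Complex.cpow_def_of_ne_zero hn0, ← Complex.natCast_log]
  congr 1
  push_cast
  ring

lemma Fn_eq (m : ℕ) (ν δ t c : ℝ) {n : ℕ} (hn : n ≠ 0) (u : ℝ) : Fn m ν δ t c n u =
    ((dm m n : ℂ) * (n : ℂ) ^ (-(1 / 2 + (t : ℂ) * Complex.I))) *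
      (Complex.exp (li c u * (1 - δ * Real.log n : ℝ)) * ker0 ν c u) := by
  unfold Fn
  rw [term_eq m δ t c hn]
  have e : Complex.exp (li c u * (1 - δ * Real.log n : ℝ)) =
      Complex.exp (-(li c u * (δ * Real.log n : ℝ))) * Complex.exp (li c u) := by
    rw [← Complex.exp_add]
    congr 1
    push_cast
    ring
  rw [e]
  ring

lemma exp_li_norm (c u l : ℝ) : ‖Complex.exp (li c u * l)‖ = Real.exp (c * l) := by
  rw [Complex.norm_exp]
  congr 1
  rw [mul_comm, Complex.re_ofReal_mul, li_re, mul_comm]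

lemma eker_int {ν : ℝ} (hν : 0 < ν) {c : ℝ} (hc : 1 ≤ c) (l : ℝ) :
    Integrable fun u => Complex.exp (li c u * l) * ker0 ν c u := by
  refine (ker0_int hν hc).bdd_mul (c := Real.exp (c * l)) ?_ (Eventually.of_forall fun u => (exp_li_norm c u l).le)
  exact (Complex.continuous_exp.comp ((li_cont c).mul continuous_const)).aestronglyMeasurable

/-- the integral over the line of absolute convergence -/
theorem right_line {m : ℕ} {ν : ℝ} (hν : 0 < ν) {x : ℝ} (hx : Real.exp 1 ≤ x) (t : ℝ) :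
    Integrable (fun u => Gz m ν (1 / Real.log x) t (li (Real.log x) u)) ∧
      ∫ u, Gz m ν (1 / Real.log x) t (li (Real.log x) u) = rz m ν x t := by
  have hx0 : 0 < x := (Real.exp_pos 1).trans_le hx
  obtain ⟨L, hL⟩ : ∃ L : ℝ, L = Real.log x := ⟨_, rfl⟩
  have hL1 : 1 ≤ L := by
    rw [hL, Real.le_log_iff_exp_le hx0]
    exact hx
  have hL0 : 0 < L := by linarith
  rw [← hL]
  have hδL : 1 / L * L = 1 := by field_simp
  -- the points
  have hre : ∀ u : ℝ, (1 / 2 + (t : ℂ) * Complex.I + ((1 / L : ℝ) : ℂ) * li L u).re = 3 / 2 := by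
    intro u
    rw [Complex.add_re, Complex.re_ofReal_mul, li_re, hδL]
    simp
    norm_num
  have hs : ∀ u : ℝ, HasSum (fun n => Fn m ν (1 / L) t L n u) (Gz m ν (1 / L) t (li L u)) := by
    intro u
    exact (dm_hasSum m (s := 1 / 2 + (t : ℂ) * Complex.I + ((1 / L : ℝ) : ℂ) * li L u) (by rw [hre]; norm_num)).mul_right _
  have hFi : ∀ n, Integrable (Fn m ν (1 / L) t L n) := by
    intro n
    rcases eq_or_ne n 0 with h | h
    · subst h
      have : Fn m ν (1 / L) t L 0 = fun _ => 0 := by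
        funext u
        unfold Fn
        rw [LSeries.term_zero, zero_mul]
      rw [this]
      exact integrable_zero _ _ _
    · have : Fn m ν (1 / L) t L n = fun u => ((dm m n : ℂ) * (n : ℂ) ^ (-(1 / 2 + (t : ℂ) * Complex.I))) *
          (Complex.exp (li L u * (1 - 1 / L * Real.log n : ℝ)) * ker0 ν L u) := funext fun u => Fn_eq m ν (1 / L) t L h u
      rw [this]
      exact (eker_int hν hL1 _).const_mul _
  have hnorm : ∀ n, ∫ u, ‖Fn m ν (1 / L) t L n u‖ =
      ‖LSeries.term (fun n => (dm m n : ℂ)) ((3 / 2 : ℝ) : ℂ) n‖ * (Real.exp L * ∫ u, ‖ker0 ν L u‖) := by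
    intro n
    rw [← integral_const_mul, ← integral_const_mul]
    refine integral_congr_ae (Eventually.of_forall fun u => ?_)
    simp only
    unfold Fn
    rw [norm_mul, norm_mul]
    congr 1
    · rw [LSeries.norm_term_eq, LSeries.norm_term_eq, hre, Complex.ofReal_re]
    · congr 1
      have := exp_li_norm L u 1
      rw [Complex.ofReal_one, mul_one, mul_one] at this
      exact this
  have hsum : Summable fun n => ∫ u, ‖Fn m ν (1 / L) t L n u‖ := by
    simp_rw [hnorm]
    refine Summable.mul_right _ ?_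
    exact ((dm_hasSum m (s := ((3 / 2 : ℝ) : ℂ)) (by rw [Complex.ofReal_re]; norm_num)).summable).norm
  have hmain := hasSum_integral_of_summable_integral_norm hFi hsum
  have e1 : ∫ u, ∑' n, Fn m ν (1 / L) t L n u = ∫ u, Gz m ν (1 / L) t (li L u) :=
    integral_congr_ae (Eventually.of_forall fun u => (hs u).tsum_eq)
  rw [e1] at hmain
  have hval : ∀ n, ∫ u, Fn m ν (1 / L) t L n u = if n ∈ Finset.Icc 1 ⌊x⌋₊ then
      (dm m n : ℂ) * (((1 - Real.log n / Real.log x) ^ ν : ℝ) : ℂ) * (n : ℂ) ^ (-(1 / 2 + (t : ℂ) * Complex.I)) else 0 := by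
    intro n
    rcases eq_or_ne n 0 with h | h
    · subst h
      have : Fn m ν (1 / L) t L 0 = fun _ => 0 := by
        funext u
        unfold Fn
        rw [LSeries.term_zero, zero_mul]
      rw [this, if_neg (by simp), integral_zero]
    · have : Fn m ν (1 / L) t L n = fun u => ((dm m n : ℂ) * (n : ℂ) ^ (-(1 / 2 + (t : ℂ) * Complex.I))) *
          (Complex.exp (li L u * (1 - 1 / L * Real.log n : ℝ)) * ker0 ν L u) := funext fun u => Fn_eq m ν (1 / L) t L h u
      have e2 : ∫ u, Complex.exp (li L u * (1 - 1 / L * Real.log n : ℝ)) * ker0 ν L u =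
          (((max (1 - 1 / L * Real.log n) 0) ^ ν : ℝ) : ℂ) := ker_int hν hL1 _
      rw [this, integral_const_mul, e2]
      have hn0 : (0:ℝ) < n := by exact_mod_cast Nat.pos_of_ne_zero h
      have e3 : 1 - 1 / L * Real.log n = 1 - Real.log n / Real.log x := by
        rw [hL]
        ring
      rw [e3]
      split_ifs with hm
      · rw [Finset.mem_Icc] at hm
        have h4 : (n : ℝ) ≤ x := (Nat.le_floor_iff hx0.le).1 hm.2
        have h5 : Real.log n / Real.log x ≤ 1 := by
          rw [← hL, div_le_one hL0, hL]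
          exact Real.log_le_log hn0 h4
        rw [max_eq_left (by linarith)]
        ring
      · have h4 : x < n := by
          rw [Finset.mem_Icc, not_and_or] at hm
          rcases hm with hm | hm
          · omega
          · exact (Nat.floor_lt hx0.le).1 (not_le.1 hm)
        have h5 : 1 ≤ Real.log n / Real.log x := by
          rw [← hL, le_div_iff₀ hL0, one_mul, hL]
          exact Real.log_le_log hx0 h4.le
        rw [max_eq_right (by linarith), Real.zero_rpow hν.ne', Complex.ofReal_zero, mul_zero]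
  have hfin : HasSum (fun n => ∫ u, Fn m ν (1 / L) t L n u) (rz m ν x t) := by
    simp_rw [hval]
    unfold rz
    have h6 : HasSum (fun n : ℕ => if n ∈ Finset.Icc 1 ⌊x⌋₊ then
      (dm m n : ℂ) * (((1 - Real.log n / Real.log x) ^ ν : ℝ) : ℂ) * (n : ℂ) ^ (-(1 / 2 + (t : ℂ) * Complex.I)) else 0)
      (∑ n ∈ Finset.Icc 1 ⌊x⌋₊, (if n ∈ Finset.Icc 1 ⌊x⌋₊ then
      (dm m n : ℂ) * (((1 - Real.log n / Real.log x) ^ ν : ℝ) : ℂ) * (n : ℂ) ^ (-(1 / 2 + (t : ℂ) * Complex.I)) else 0)) :=
      hasSum_sum_of_ne_finset_zero (fun n hn => if_neg hn)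
    have e7 : ∑ n ∈ Finset.Icc 1 ⌊x⌋₊, (if n ∈ Finset.Icc 1 ⌊x⌋₊ then
      (dm m n : ℂ) * (((1 - Real.log n / Real.log x) ^ ν : ℝ) : ℂ) * (n : ℂ) ^ (-(1 / 2 + (t : ℂ) * Complex.I)) else 0) =
      ∑ n ∈ Finset.Icc 1 ⌊x⌋₊, (dm m n : ℂ) * (((1 - Real.log n / Real.log x) ^ ν : ℝ) : ℂ) * (n : ℂ) ^ (-(1 / 2 + (t : ℂ) * Complex.I)) :=
      Finset.sum_congr rfl fun n hn => if_pos hn
    rw [e7] at h6
    exact h6
  refine ⟨?_, hmain.unique hfin⟩
  -- integrability
  have hb : Integrable fun u => ‖ker0 ν L u‖ := (ker0_int hν hL1).norm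
  obtain ⟨Z, hZ⟩ : ∃ Z : ℝ, Z = ∑' n, ‖LSeries.term (fun n => (dm m n : ℂ)) ((3 / 2 : ℝ) : ℂ) n‖ := ⟨_, rfl⟩
  have hmeas : AEStronglyMeasurable (fun u => Gz m ν (1 / L) t (li L u)) volume := by
    have hc : Continuous fun u => Gz m ν (1 / L) t (li L u) := by
      unfold Gz
      refine Continuous.mul (Continuous.pow ?_ m) ((Complex.continuous_exp.comp (li_cont L)).mul (ker0_cont ν hL0))
      rw [continuous_iff_continuousAt]
      intro u
      refine ContinuousAt.comp (g := riemannZeta) (f := fun u : ℝ => 1 / 2 + (t : ℂ) * Complex.I + ((1 / L : ℝ) : ℂ) * li L u)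
        (differentiableAt_riemannZeta ?_).continuousAt ?_
      · intro h
        have := congrArg Complex.re h
        rw [hre] at this
        norm_num at this
      · exact (continuous_const.add (continuous_const.mul (li_cont L))).continuousAt
    exact hc.aestronglyMeasurable
  refine (hb.const_mul (Z * Real.exp L)).mono' hmeas (Eventually.of_forall fun u => ?_)
  unfold Gz
  rw [norm_mul, norm_mul, mul_assoc]
  have h8 : ‖riemannZeta (1 / 2 + (t : ℂ) * Complex.I + ((1 / L : ℝ) : ℂ) * li L u) ^ m‖ ≤ Z := by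
    have h9 : HasSum (LSeries.term (fun n => (dm m n : ℂ)) (1 / 2 + (t : ℂ) * Complex.I + ((1 / L : ℝ) : ℂ) * li L u))
        (riemannZeta (1 / 2 + (t : ℂ) * Complex.I + ((1 / L : ℝ) : ℂ) * li L u) ^ m) :=
      dm_hasSum m (s := 1 / 2 + (t : ℂ) * Complex.I + ((1 / L : ℝ) : ℂ) * li L u) (by rw [hre]; norm_num)
    have e9 : ∀ n, ‖LSeries.term (fun n => (dm m n : ℂ)) (1 / 2 + (t : ℂ) * Complex.I + ((1 / L : ℝ) : ℂ) * li L u) n‖ =
        ‖LSeries.term (fun n => (dm m n : ℂ)) ((3 / 2 : ℝ) : ℂ) n‖ := by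
      intro n
      rw [LSeries.norm_term_eq, LSeries.norm_term_eq, hre, Complex.ofReal_re]
    rw [← h9.tsum_eq, hZ]
    refine (norm_tsum_le_tsum_norm ?_).trans (le_of_eq (tsum_congr e9))
    exact h9.summable.norm
  have h10 : ‖Complex.exp (li L u)‖ = Real.exp L := by
    have := exp_li_norm L u 1
    rwa [Complex.ofReal_one, mul_one, mul_one] at this
  rw [h10]
  exact mul_le_mul_of_nonneg_right h8 (by positivity)

end Pool.Agent.H43.RM
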