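import Pool.Agent.H43.RM.Win

set_option autoImplicit false

/-! The tails of the linear functionals. -/

namespace Pool.Agent.H43.RM

open Filter Topology MeasureTheory
open Pool.Agent.V11128.CXL
open Pool.Agent.Y753.SHR
open Pool.Agent.H306R2 (aF aF_pos)

/-- the integrand -/
noncomputable def fi (w : ℝ → ℂ) (m : ℕ) (δ t u : ℝ) : ℂ := zc δ u t ^ m * w u

/-- the data: the weight and its decay -/
structure Dat (w : ℝ → ℂ) (m : ℕ) (A Cw : ℝ) : Prop where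
  cont : Continuous w
  one : 1 ≤ m
  Cpos : 0 < Cw
  bd : ∀ u, ‖w u‖ ≤ Cw * (1 + |u|) ^ (-A)
  big : 1 + 5 / 8 * m < A

variable {w : ℝ → ℂ} {m : ℕ} {A Cw : ℝ}

lemma Dat.A1 (D : Dat w m A Cw) : 1 < A := by
  have h1 := D.big
  have h2 : (0:ℝ) ≤ m := Nat.cast_nonneg m
  linarith

lemma fi_cont (D : Dat w m A Cw) {δ : ℝ} (h1 : δ < 1 / 4) : Continuous fun p : ℝ × ℝ => fi w m δ p.1 p.2 := by
  unfold fi
  exact ((zc_cont2 h1).pow m).mul (D.cont.comp continuous_snd)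

lemma fi_cont_u (D : Dat w m A Cw) {δ : ℝ} (h1 : δ < 1 / 4) (t : ℝ) : Continuous fun u => fi w m δ t u := by
  unfold fi
  have h : Continuous fun u : ℝ => zc δ u t := by
    have h2 := (zc_cont2 h1).comp (Continuous.prodMk_right t)
    exact h2
  exact (h.pow m).mul D.cont

lemma zc_poly {δ : ℝ} (h0 : 0 < δ) (h1 : δ < 1 / 4) (t u : ℝ) : ‖zc δ u t‖ ≤ 12 * (1 + |t + u * δ|) ^ ((5:ℝ)/8) := by
  have h := Pool.Agent.W184.zeta58 (σ := 1 / 2 + δ) (t := t + u * δ) (by linarith) (by linarith)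
  have e : zc δ u t = riemannZeta (((1 / 2 + δ : ℝ) : ℂ) + ((t + u * δ : ℝ) : ℂ) * Complex.I) := by
    unfold zc
    congr 1
    push_cast
    ring
  rw [e]
  exact h

lemma pow_m {x y : ℝ} (hx : 0 ≤ x) (hy : 1 ≤ y) (h : x ≤ 12 * y ^ ((5:ℝ)/8)) (m : ℕ) : x ^ m ≤ 12 ^ m * y ^ (5 / 8 * m : ℝ) := by
  have hy0 : 0 ≤ y := by linarith
  calc x ^ m ≤ (12 * y ^ ((5:ℝ)/8)) ^ m := pow_le_pow_left₀ hx h m
    _ = 12 ^ m * y ^ (5 / 8 * m : ℝ) := by
      rw [mul_pow, Real.rpow_mul hy0, Real.rpow_natCast]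

lemma fi_bound (D : Dat w m A Cw) {δ : ℝ} (h0 : 0 < δ) (h1 : δ < 1 / 4) {t u Y : ℝ} (hY : 1 + |t + u * δ| ≤ Y) :
    ‖fi w m δ t u‖ ≤ 12 ^ m * Cw * Y ^ (5 / 8 * m : ℝ) * (1 + |u|) ^ (-A) := by
  have hY1 : 1 ≤ 1 + |t + u * δ| := by linarith [abs_nonneg (t + u * δ)]
  have h2 : ‖zc δ u t‖ ≤ 12 * Y ^ ((5:ℝ)/8) :=
    (zc_poly h0 h1 t u).trans (mul_le_mul_of_nonneg_left (Real.rpow_le_rpow (by linarith) hY (by norm_num)) (by norm_num))
  have h3 := pow_m (norm_nonneg _) (hY1.trans hY) h2 m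
  unfold fi
  rw [norm_mul, norm_pow]
  calc ‖zc δ u t‖ ^ m * ‖w u‖ ≤ (12 ^ m * Y ^ (5 / 8 * m : ℝ)) * (Cw * (1 + |u|) ^ (-A)) :=
        mul_le_mul h3 (D.bd u) (norm_nonneg _) (by have : 0 ≤ Y := by linarith
                                                   positivity)
    _ = _ := by ring

lemma fi_poly (D : Dat w m A Cw) {δ : ℝ} (h0 : 0 < δ) (h1 : δ < 1 / 4) (t u : ℝ) :
    ‖fi w m δ t u‖ ≤ 12 ^ m * Cw * (1 + |t|) ^ (5 / 8 * m : ℝ) * (1 + |u|) ^ (-(A - 5 / 8 * m)) := by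
  have hY : 1 + |t + u * δ| ≤ (1 + |t|) * (1 + |u|) := by
    have k1 := abs_add_le t (u * δ)
    rw [abs_mul, abs_of_pos h0] at k1
    have k2 : |u| * δ ≤ |u| := by nlinarith [abs_nonneg u]
    nlinarith [abs_nonneg u, abs_nonneg t, mul_nonneg (abs_nonneg t) (abs_nonneg u)]
  refine (fi_bound D h0 h1 hY).trans (le_of_eq ?_)
  have hu : 0 < 1 + |u| := by positivity
  rw [Real.mul_rpow (by positivity) hu.le]
  have e : -(A - 5 / 8 * m) = 5 / 8 * m + -A := by ring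
  rw [e, Real.rpow_add hu]
  ring

lemma one_abs_int {κ : ℝ} (hκ : 1 < κ) : Integrable fun u : ℝ => (1 + |u|) ^ (-κ) := by
  have := integrable_one_add_norm (E := ℝ) (μ := volume) (r := κ) (by simpa using hκ)
  simpa [Real.norm_eq_abs] using this

lemma fi_int (D : Dat w m A Cw) {δ : ℝ} (h0 : 0 < δ) (h1 : δ < 1 / 4) (t : ℝ) : Integrable fun u => fi w m δ t u := by
  have hκ : 1 < A - 5 / 8 * m := by linarith [D.big]
  refine ((one_abs_int hκ).const_mul (12 ^ m * Cw * (1 + |t|) ^ (5 / 8 * m : ℝ))).mono'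
    (fi_cont_u D h1 t).aestronglyMeasurable (Eventually.of_forall fun u => fi_poly D h0 h1 t u)

/-- the coefficients -/
noncomputable def bj (Cw A : ℝ) (j : ℕ) : ℝ := Cw * (1 + j) ^ (-A)

lemma bj_nonneg (D : Dat w m A Cw) (j : ℕ) : 0 ≤ bj Cw A j := by
  unfold bj
  have := D.Cpos
  positivity

lemma w_le_bj (D : Dat w m A Cw) {u : ℝ} {j : ℕ} (h : (j : ℝ) ≤ |u|) : ‖w u‖ ≤ bj Cw A j := by
  refine (D.bd u).trans (mul_le_mul_of_nonneg_left ?_ D.Cpos.le)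
  exact Real.rpow_le_rpow_of_nonpos (by positivity) (by linarith) (by linarith [D.A1])

/-- the majorant of one window -/
noncomputable def xj (m : ℕ) (δ t : ℝ) (j : ℕ) : ℝ := Sx δ (t + j * δ) ^ m + Sx δ (t + -(j * δ)) ^ m

lemma xj_nonneg (m : ℕ) (δ t : ℝ) (j : ℕ) : 0 ≤ xj m δ t j := by
  unfold xj
  have := Sx_nonneg δ (t + j * δ)
  have := Sx_nonneg δ (t + -(j * δ))
  positivity

lemma win_le (D : Dat w m A Cw) {δ : ℝ} (h1 : δ < 1 / 4) {t u : ℝ} {j : ℕ} (hu : u ∈ Set.Icc (j : ℝ) (j + 1)) :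
    ‖fi w m δ t u‖ + ‖fi w m δ t (-u)‖ ≤ bj Cw A j * xj m δ t j := by
  have hj : (0:ℝ) ≤ j := Nat.cast_nonneg j
  have hu0 : 0 ≤ u := hj.trans hu.1
  have k1 : ‖zc δ u t‖ ≤ Sx δ (t + j * δ) := by
    have e : u = (u - j) + j := by ring
    rw [e, zc_shift]
    refine zc_le h1 ?_
    rw [abs_le]
    constructor <;> linarith [hu.1, hu.2]
  have k2 : ‖zc δ (-u) t‖ ≤ Sx δ (t + -(j * δ)) := by
    have e : -u = (-(u - j)) + (-j) := by ring
    have e2 : t + -(j * δ) = t + (-j) * δ := by ring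
    rw [e, zc_shift, e2]
    refine zc_le h1 ?_
    rw [abs_neg, abs_le]
    constructor <;> linarith [hu.1, hu.2]
  have k3 : ‖w u‖ ≤ bj Cw A j := w_le_bj D (by rw [abs_of_nonneg hu0]; exact hu.1)
  have k4 : ‖w (-u)‖ ≤ bj Cw A j := w_le_bj D (by rw [abs_neg, abs_of_nonneg hu0]; exact hu.1)
  have k5 := pow_le_pow_left₀ (norm_nonneg _) k1 m
  have k6 := pow_le_pow_left₀ (norm_nonneg _) k2 m
  have k7 := Sx_nonneg δ (t + j * δ)
  have k8 := Sx_nonneg δ (t + -(j * δ))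
  unfold fi xj
  rw [norm_mul, norm_mul, norm_pow, norm_pow, mul_add]
  refine add_le_add ?_ ?_
  · rw [mul_comm]
    exact mul_le_mul k3 k5 (by positivity) (bj_nonneg D j)
  · rw [mul_comm]
    exact mul_le_mul k4 k6 (by positivity) (bj_nonneg D j)

/-- the majorant -/
noncomputable def Pt (Cw A : ℝ) (m : ℕ) (δ : ℝ) (R J : ℕ) (t : ℝ) : ℝ := ∑ j ∈ Finset.Ico R J, bj Cw A j * xj m δ t j

lemma Pt_nonneg (D : Dat w m A Cw) (δ : ℝ) (R J : ℕ) (t : ℝ) : 0 ≤ Pt Cw A m δ R J t :=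
  Finset.sum_nonneg fun j _ => mul_nonneg (bj_nonneg D j) (xj_nonneg _ _ _ _)

/-- the symmetrised integrand -/
noncomputable def sy (w : ℝ → ℂ) (m : ℕ) (δ t u : ℝ) : ℝ := ‖fi w m δ t u‖ + ‖fi w m δ t (-u)‖

lemma sy_cont (D : Dat w m A Cw) {δ : ℝ} (h1 : δ < 1 / 4) (t : ℝ) : Continuous (sy w m δ t) := by
  unfold sy
  exact (fi_cont_u D h1 t).norm.add ((fi_cont_u D h1 t).comp continuous_neg).norm

lemma sy_nonneg (w : ℝ → ℂ) (m : ℕ) (δ t u : ℝ) : 0 ≤ sy w m δ t u := by unfold sy; positivity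

lemma sy_int (D : Dat w m A Cw) {δ : ℝ} (h0 : 0 < δ) (h1 : δ < 1 / 4) (t : ℝ) : Integrable (sy w m δ t) := by
  unfold sy
  exact (fi_int D h0 h1 t).norm.add (fi_int D h0 h1 t).comp_neg.norm

lemma win_sum (D : Dat w m A Cw) {δ : ℝ} (h1 : δ < 1 / 4) (t : ℝ) {R J : ℕ} (hRJ : R ≤ J) :
    ∫ u in (R:ℝ)..J, sy w m δ t u ≤ Pt Cw A m δ R J t := by
  have hi : ∀ a b : ℝ, IntervalIntegrable (sy w m δ t) volume a b := fun a b => (sy_cont D h1 t).intervalIntegrable a b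
  have e := intervalIntegral.sum_integral_adjacent_intervals_Ico (μ := volume) (f := sy w m δ t) (a := fun k : ℕ => (k:ℝ)) hRJ
    fun k _ => hi _ _
  rw [← e]
  unfold Pt
  refine Finset.sum_le_sum fun j _ => ?_
  have h2 : ∫ u in (j:ℝ)..((j + 1 : ℕ) : ℝ), sy w m δ t u ≤ ∫ _u in (j:ℝ)..((j + 1 : ℕ) : ℝ), bj Cw A j * xj m δ t j := by
    refine intervalIntegral.integral_mono_on (by push_cast; linarith) (hi _ _) (by simp) fun u hu => ?_
    refine win_le D h1 ?_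
    rw [← Nat.cast_succ]
    exact hu
  refine h2.trans (le_of_eq ?_)
  rw [intervalIntegral.integral_const]
  push_cast
  simp

/-- the tail majorant of the polynomial range -/
noncomputable def Ft (Cw A : ℝ) (m : ℕ) (J : ℝ) : ℝ :=
  ∫ u in Set.Ioi J, 2 * (12 ^ m * Cw * 2 ^ (5 / 8 * m : ℝ) * (1 + |u|) ^ (-(A - 5 / 8 * m)))

lemma Ft_lim (D : Dat w m A Cw) : Tendsto (Ft Cw A m) atTop (𝓝 0) := by
  have hκ : 1 < A - 5 / 8 * m := by linarith [D.big]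
  have hi : Integrable fun u : ℝ => 2 * (12 ^ m * Cw * 2 ^ (5 / 8 * m : ℝ) * (1 + |u|) ^ (-(A - 5 / 8 * m))) :=
    ((one_abs_int hκ).const_mul _).const_mul _
  unfold Ft
  have h := tendsto_setIntegral_of_antitone (s := fun J : ℝ => Set.Ioi J) (μ := volume)
    (f := fun u : ℝ => 2 * (12 ^ m * Cw * 2 ^ (5 / 8 * m : ℝ) * (1 + |u|) ^ (-(A - 5 / 8 * m))))
    (fun i => measurableSet_Ioi) (fun a b hab => Set.Ioi_subset_Ioi hab) ⟨0, hi.integrableOn⟩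
  have e : (⋂ J : ℝ, Set.Ioi J) = ∅ := by
    ext x
    simp only [Set.mem_iInter, Set.mem_Ioi, Set.mem_empty_iff_false, iff_false, not_forall, not_lt]
    exact ⟨x, le_rfl⟩
  rw [e, Measure.restrict_empty, integral_zero_measure] at h
  exact h

lemma Ft_nonneg (D : Dat w m A Cw) (J : ℝ) : 0 ≤ Ft Cw A m J := by
  unfold Ft
  have := D.Cpos
  exact integral_nonneg fun u => by positivity

lemma far_le (D : Dat w m A Cw) {δ T t : ℝ} (h0 : 0 < δ) (h1 : δ < 1 / 4) (ht : t ∈ Set.Icc 0 T) {J : ℕ}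
    (hJ : T ≤ δ * (J + 1)) : ∫ u in Set.Ioi (J:ℝ), sy w m δ t u ≤ Ft Cw A m J := by
  have hκ : 1 < A - 5 / 8 * m := by linarith [D.big]
  have hC := D.Cpos
  unfold Ft
  refine setIntegral_mono_on (sy_int D h0 h1 t).integrableOn (((one_abs_int hκ).const_mul _).const_mul _).integrableOn
    measurableSet_Ioi fun u hu => ?_
  have hu' : (J:ℝ) < u := hu
  have hJ0 : (0:ℝ) ≤ J := Nat.cast_nonneg J
  have hu0 : 0 < u := by linarith
  have hua : |u| = u := abs_of_pos hu0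
  have key : ∀ v : ℝ, |v| = u → ‖fi w m δ t v‖ ≤ 12 ^ m * Cw * 2 ^ (5 / 8 * m : ℝ) * (1 + |u|) ^ (-(A - 5 / 8 * m)) := by
    intro v hv
    have hY : 1 + |t + v * δ| ≤ 2 * (1 + |u|) := by
      have k1 := abs_add_le t (v * δ)
      rw [abs_mul, abs_of_pos h0, hv, abs_of_nonneg ht.1] at k1
      rw [hua]
      have k2 : t ≤ δ * (u + 1) := by
        have := ht.2
        nlinarith
      nlinarith
    refine (fi_bound D h0 h1 hY).trans (le_of_eq ?_)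
    have hpos : 0 < 1 + |u| := by positivity
    have hv' : |v| = |u| := by rw [hv, hua]
    rw [hv', Real.mul_rpow (by norm_num) hpos.le]
    have e : -(A - 5 / 8 * m) = 5 / 8 * m + -A := by ring
    rw [e, Real.rpow_add hpos]
    ring
  have k1 := key u hua
  have k2 := key (-u) (by rw [abs_neg, hua])
  unfold sy
  linarith

/-- the functional -/
noncomputable def Xf (w : ℝ → ℂ) (m : ℕ) (δ t : ℝ) : ℂ := ∫ u, fi w m δ t u

/-- the truncated functional -/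
noncomputable def Xr (w : ℝ → ℂ) (m : ℕ) (R : ℕ) (δ t : ℝ) : ℂ := ∫ u in Set.Icc (-(R:ℝ)) R, fi w m δ t u

/-- the truncated absolute functional -/
noncomputable def Hr (w : ℝ → ℂ) (m : ℕ) (R : ℕ) (δ t : ℝ) : ℝ := ∫ u in Set.Icc (-(R:ℝ)) R, ‖fi w m δ t u‖

lemma Hr_le (D : Dat w m A Cw) {δ : ℝ} (h1 : δ < 1 / 4) (t : ℝ) (R : ℕ) : Hr w m R δ t ≤ Pt Cw A m δ 0 R t := by
  refine le_trans (le_of_eq ?_) (win_sum D h1 t (Nat.zero_le R))
  have hR : (0:ℝ) ≤ R := Nat.cast_nonneg R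
  have hc := (fi_cont_u D h1 t).norm
  unfold Hr
  rw [icc_eq (by linarith), ← intervalIntegral.integral_add_adjacent_intervals (hc.intervalIntegrable (-(R:ℝ)) 0)
    (hc.intervalIntegrable 0 (R:ℝ))]
  have e1 : ∫ u in (-(R:ℝ))..0, ‖fi w m δ t u‖ = ∫ u in (0:ℝ)..R, ‖fi w m δ t (-u)‖ := by
    have e5 := intervalIntegral.integral_comp_neg (a := 0) (b := (R:ℝ)) (fun u => ‖fi w m δ t u‖)
    rw [neg_zero] at e5
    exact e5.symm
  rw [e1, Nat.cast_zero]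
  have hcn : Continuous fun u => ‖fi w m δ t (-u)‖ := hc.comp continuous_neg
  have e2 := intervalIntegral.integral_add (μ := volume) (hc.intervalIntegrable 0 (R:ℝ)) (hcn.intervalIntegrable 0 (R:ℝ))
  unfold sy
  rw [e2]
  ring

lemma Xr_le (w : ℝ → ℂ) (m : ℕ) (R : ℕ) (δ t : ℝ) : ‖Xr w m R δ t‖ ≤ Hr w m R δ t := norm_integral_le_integral_norm _

lemma diff_le (D : Dat w m A Cw) {δ T t : ℝ} (h0 : 0 < δ) (h1 : δ < 1 / 4) (ht : t ∈ Set.Icc 0 T) {R J : ℕ}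
    (hRJ : R ≤ J) (hJ : T ≤ δ * (J + 1)) :
    ‖Xf w m δ t - Xr w m R δ t‖ ≤ Pt Cw A m δ R J t + Ft Cw A m J := by
  have hi := fi_int D h0 h1 t
  have hR : (0:ℝ) ≤ R := Nat.cast_nonneg R
  have e1 : Xf w m δ t - Xr w m R δ t = ∫ u in (Set.Icc (-(R:ℝ)) R)ᶜ, fi w m δ t u := by
    unfold Xf Xr
    rw [← integral_add_compl (measurableSet_Icc (a := -(R:ℝ)) (b := (R:ℝ))) hi]
    ring
  have e2 : (Set.Icc (-(R:ℝ)) R)ᶜ = Set.Iio (-(R:ℝ)) ∪ Set.Ioi (R:ℝ) := by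
    ext x
    simp only [Set.mem_compl_iff, Set.mem_Icc, not_and_or, not_le, Set.mem_union, Set.mem_Iio, Set.mem_Ioi]
  rw [e1, e2]
  refine (norm_integral_le_integral_norm _).trans ?_
  have hd : Disjoint (Set.Iio (-(R:ℝ))) (Set.Ioi (R:ℝ)) := by
    rw [Set.disjoint_left]
    intro x hx hx2
    rw [Set.mem_Iio] at hx
    rw [Set.mem_Ioi] at hx2
    linarith
  rw [setIntegral_union hd measurableSet_Ioi hi.norm.integrableOn hi.norm.integrableOn]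
  have e3 : ∫ u in Set.Iio (-(R:ℝ)), ‖fi w m δ t u‖ = ∫ u in Set.Ioi (R:ℝ), ‖fi w m δ t (-u)‖ := by
    rw [integral_comp_neg_Ioi (R:ℝ) (fun u => ‖fi w m δ t u‖), integral_Iic_eq_integral_Iio]
  have e4 : (∫ u in Set.Ioi (R:ℝ), ‖fi w m δ t (-u)‖) + (∫ u in Set.Ioi (R:ℝ), ‖fi w m δ t u‖) =
      ∫ u in Set.Ioi (R:ℝ), sy w m δ t u := by
    unfold sy
    rw [integral_add hi.norm.integrableOn hi.comp_neg.norm.integrableOn]
    ring
  rw [e3, e4]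
  have hRJ' : (R:ℝ) ≤ J := by exact_mod_cast hRJ
  have e5 : Set.Ioi (R:ℝ) = Set.Ioc (R:ℝ) J ∪ Set.Ioi (J:ℝ) := (Set.Ioc_union_Ioi_eq_Ioi hRJ').symm
  have hd2 : Disjoint (Set.Ioc (R:ℝ) J) (Set.Ioi (J:ℝ)) := by
    rw [Set.disjoint_left]
    intro x hx hx2
    rw [Set.mem_Ioi] at hx2
    linarith [hx.2]
  rw [e5, setIntegral_union hd2 measurableSet_Ioi (sy_int D h0 h1 t).integrableOn (sy_int D h0 h1 t).integrableOn]
  refine add_le_add ?_ (far_le D h0 h1 ht hJ)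
  rw [← intervalIntegral.integral_of_le hRJ']
  exact win_sum D h1 t hRJ

end Pool.Agent.H43.RM
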