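import Pool.Graph.R_seed8.H448R2.GC.X2
import Pool.Agent.H43.RM.Line
import Pool.Agent.H43.RM.Tail

set_option autoImplicit false

/-! The Riesz means of the Dirichlet series of the powers of zeta: moving the line of integration. -/

namespace Pool.Agent.H43.RM

open Filter Topology MeasureTheory
open Pool.Agent.V11128.CXL

/-- the weight of the Riesz means -/
noncomputable def wr (ν u : ℝ) : ℂ := Complex.exp (li 1 u) * ker0 ν 1 u

/-- the constant of the weight -/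
noncomputable def Cr (ν : ℝ) : ℝ := Real.exp 1 * (Real.Gamma (ν + 1) * 2 ^ (ν + 1))

lemma exp_li_norm1 (c u : ℝ) : ‖Complex.exp (li c u)‖ = Real.exp c := by
  have := exp_li_norm c u 1
  rwa [Complex.ofReal_one, mul_one, mul_one] at this

lemma dat_r {m : ℕ} (hm : 1 ≤ m) {ν : ℝ} (hν : (m : ℝ) ≤ ν) : Dat (wr ν) m (ν + 1) (Cr ν) := by
  have hm' : (1:ℝ) ≤ m := by exact_mod_cast hm
  have hν0 : 0 < ν := by linarith
  have hG := Real.Gamma_pos_of_pos (show 0 < ν + 1 by linarith)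
  refine ⟨?_, hm, ?_, fun u => ?_, by linarith⟩
  · unfold wr
    exact (Complex.continuous_exp.comp (li_cont 1)).mul (ker0_cont ν one_pos)
  · unfold Cr
    positivity
  · unfold wr Cr
    rw [norm_mul, exp_li_norm1, mul_assoc]
    exact mul_le_mul_of_nonneg_left (ker0_norm_le hν0 le_rfl u) (Real.exp_pos 1).le

lemma Gz_fi (m : ℕ) (ν δ t u : ℝ) : Gz m ν δ t (li 1 u) = fi (wr ν) m δ t u := by
  unfold Gz fi wr ker0 zc
  congr 3
  unfold li
  push_cast
  ring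

lemma zeta_lin {t : ℝ} (ht : 1 ≤ t) {s : ℂ} (h1 : 1 / 2 ≤ s.re) (h2 : s.re ≤ 3 / 2) (h3 : t / 2 ≤ s.im)
    (h4 : s.im ≤ 3 / 2 * t) : ‖riemannZeta s‖ ≤ 9 * t := by
  have hs0 : 0 < s.re := by linarith
  have hs1 : s ≠ 1 := by
    intro h
    rw [h] at h3
    simp at h3
    linarith
  have hb := Pool.Agent.H448R2.GC.X2.zeta_bd s hs0 hs1
  have k1 : 1 / 2 ≤ ‖s - 1‖ := by
    have := Complex.abs_im_le_norm (s - 1)
    rw [Complex.sub_im, Complex.one_im, sub_zero, abs_of_nonneg (by linarith)] at this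
    linarith
  have k2 : 1 / ‖s - 1‖ ≤ 2 := by
    rw [div_le_iff₀ (by linarith)]
    linarith
  have k3 : ‖s‖ ≤ 3 / 2 + 3 / 2 * t := by
    have := Complex.norm_le_abs_re_add_abs_im s
    rw [abs_of_pos hs0, abs_of_nonneg (by linarith : 0 ≤ s.im)] at this
    linarith
  have k4 : ‖s‖ / s.re ≤ 3 + 3 * t := by
    rw [div_le_iff₀ hs0]
    nlinarith
  linarith

/-- the bound on the horizontal sides -/
lemma hor_le {m : ℕ} {ν : ℝ} (hν : 0 < ν) {L t U : ℝ} (hL : 1 ≤ L) (ht : 1 ≤ t) (hU : U = t * L / 2) {z : ℂ}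
    (h1 : 1 ≤ z.re) (h2 : z.re ≤ L) (h3 : |z.im| = U) :
    ‖Gz m ν (1 / L) t z‖ ≤ (9 * t) ^ m * (Real.exp L * (Real.Gamma (ν + 1) * U ^ (-(ν + 1)))) := by
  have hL0 : 0 < L := by linarith
  have hU0 : 0 < U := by rw [hU]; positivity
  have hdU : 1 / L * U = t / 2 := by rw [hU]; field_simp
  have hUz : U ≤ ‖z‖ := by rw [← h3]; exact Complex.abs_im_le_norm z
  unfold Gz
  rw [norm_mul, norm_mul, norm_pow]
  refine mul_le_mul (pow_le_pow_left₀ (norm_nonneg _) ?_ m) (mul_le_mul ?_ (kz_norm_le hν hU0 hUz) (norm_nonneg _)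
    (Real.exp_pos _).le) (by positivity) (by positivity)
  · have hre : (1 / 2 + (t : ℂ) * Complex.I + ((1 / L : ℝ) : ℂ) * z).re = 1 / 2 + 1 / L * z.re := by
      rw [Complex.add_re, Complex.re_ofReal_mul]
      simp
    have him : (1 / 2 + (t : ℂ) * Complex.I + ((1 / L : ℝ) : ℂ) * z).im = t + 1 / L * z.im := by
      rw [Complex.add_im, Complex.im_ofReal_mul]
      simp
    have k1 : 1 / L * z.re ≤ 1 := by
      rw [one_div, inv_mul_le_iff₀ hL0]
      linarith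
    have k2 : 0 ≤ 1 / L * z.re := by positivity
    have k3 : |1 / L * z.im| = t / 2 := by
      rw [abs_mul, h3, abs_of_pos (by positivity), hdU]
    have k4 := abs_le.1 k3.le
    refine zeta_lin ht ?_ ?_ ?_ ?_
    · rw [hre]; linarith
    · rw [hre]; linarith
    · rw [him]; linarith [k4.1]
    · rw [him]; linarith [k4.2]
  · rw [Complex.norm_exp]
    exact Real.exp_le_exp.2 h2

lemma Gz_diff {m : ℕ} {ν : ℝ} {L t U : ℝ} (hL : 1 ≤ L) (ht : 1 ≤ t) (hU : U = t * L / 2) :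
    DifferentiableOn ℂ (Gz m ν (1 / L) t) (Set.uIcc 1 L ×ℂ Set.uIcc (-U) U) := by
  have hL0 : 0 < L := by linarith
  have hU0 : 0 < U := by rw [hU]; positivity
  have hdU : 1 / L * U = t / 2 := by rw [hU]; field_simp
  intro z hz
  rw [Complex.mem_reProdIm, Set.uIcc_of_le hL, Set.uIcc_of_le (by linarith)] at hz
  obtain ⟨⟨h1, h2⟩, h3, h4⟩ := hz
  have hzne : z ≠ 0 := by
    intro h
    rw [h] at h1
    simp at h1
    linarith
  have hslit : z ∈ Complex.slitPlane := by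
    rw [Complex.mem_slitPlane_iff]
    left
    linarith
  refine DifferentiableAt.differentiableWithinAt ?_
  unfold Gz kz
  refine DifferentiableAt.mul (DifferentiableAt.pow ?_ m) (DifferentiableAt.mul (by fun_prop) ?_)
  · refine DifferentiableAt.comp (g := riemannZeta) z (differentiableAt_riemannZeta ?_) (by fun_prop)
    intro h
    have him := congrArg Complex.im h
    rw [Complex.add_im, Complex.im_ofReal_mul] at him
    simp at him
    have k1 : -(t / 2) ≤ 1 / L * z.im := by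
      have : 1 / L * (-U) ≤ 1 / L * z.im := mul_le_mul_of_nonneg_left h3 (by positivity)
      rw [mul_neg, hdU] at this
      exact this
    rw [one_div] at k1
    linarith
  · refine DifferentiableAt.div (by fun_prop) (DifferentiableAt.const_mul ?_ _) ?_
    · exact differentiableAt_id.cpow_const (Or.inl (by simpa using (by linarith : (0:ℝ) < z.re)))
    · refine mul_ne_zero (by simp [Real.pi_ne_zero]) ?_
      rw [Complex.cpow_ne_zero_iff]
      left
      exact hzne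

/-- the difference of the Riesz mean and the functional -/
theorem riesz_near {m : ℕ} (hm : 1 ≤ m) {ν : ℝ} (hν : (m : ℝ) ≤ ν) : ∃ C : ℝ, 0 < C ∧ ∀ x t : ℝ, 4 < Real.log x → 1 ≤ x → 1 ≤ t →
    ‖rz m ν x t - Xf (wr ν) m (1 / Real.log x) t‖ ≤ C * x * t ^ (-(3 / 8) : ℝ) := by
  have hm' : (1:ℝ) ≤ m := by exact_mod_cast hm
  have hν0 : 0 < ν := by linarith
  have hG := Real.Gamma_pos_of_pos (show 0 < ν + 1 by linarith)
  obtain ⟨Cz, hCz, hz⟩ := Pool.Agent.H448R2.GC.X1.zeta_bdd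
  have D := dat_r hm hν
  have hCr := D.Cpos
  obtain ⟨κ, hκe⟩ : ∃ κ : ℝ, κ = ν + 1 - 5 / 8 * m := ⟨_, rfl⟩
  have hκ : 11 / 8 ≤ κ := by rw [hκe]; linarith
  obtain ⟨G, hGe⟩ : ∃ G : ℝ, G = Real.Gamma (ν + 1) := ⟨_, rfl⟩
  rw [← hGe] at hG
  refine ⟨4 * 9 ^ m * G + 2 * (Cz ^ m * G / ν) + 2 * (12 ^ m * Cr ν / (κ - 1)), ?_, ?_⟩
  · have : 0 < κ - 1 := by linarith
    positivity
  intro x t hx hx1 ht
  obtain ⟨L, hL⟩ : ∃ L : ℝ, L = Real.log x := ⟨_, rfl⟩
  rw [← hL] at hx ⊢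
  have hL0 : 0 < L := by linarith
  have hL1 : 1 ≤ L := by linarith
  have hx0 : 0 < x := by linarith
  have hexpL : Real.exp L = x := by rw [hL, Real.exp_log hx0]
  have hδ0 : 0 < 1 / L := by positivity
  have hδ1 : 1 / L < 1 / 4 := by
    rw [div_lt_div_iff₀ hL0 (by norm_num)]
    linarith
  obtain ⟨U, hU⟩ : ∃ U : ℝ, U = t * L / 2 := ⟨_, rfl⟩
  have hU0 : 0 < U := by rw [hU]; positivity
  have hUt : t ≤ U := by rw [hU]; nlinarith
  have hdU : 1 / L * U = t / 2 := by rw [hU]; field_simp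
  -- the two lines
  have hxe : Real.exp 1 ≤ x := by
    rw [← hexpL]
    exact Real.exp_le_exp.2 (by linarith)
  obtain ⟨r1, r2⟩ := right_line (m := m) hν0 hxe t
  rw [← hL] at r1 r2
  have l1 := fi_int D hδ0 hδ1 t
  have hpow : ∀ a : ℝ, 3 / 8 ≤ a → U ^ (-a) ≤ t ^ (-(3 / 8) : ℝ) := by
    intro a ha
    calc U ^ (-a) ≤ t ^ (-a) := Real.rpow_le_rpow_of_nonpos (by linarith) hUt (by linarith)
      _ ≤ t ^ (-(3 / 8) : ℝ) := Real.rpow_le_rpow_of_exponent_le ht (by linarith)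
  have ht0 : 0 < t := by linarith
  have hτ : 0 < t ^ (-(3 / 8) : ℝ) := Real.rpow_pos_of_pos ht0 _
  -- the right tail
  have hR : ‖rz m ν x t - ∫ u in (-U)..U, Gz m ν (1 / L) t (li L u)‖ ≤ 2 * (Cz ^ m * G / ν) * x * t ^ (-(3 / 8) : ℝ) := by
    rw [← r2]
    refine (tail_bound r1 (K := Cz ^ m * (x * G)) (κ := ν + 1) (by linarith) hU0 fun u hu => ?_).trans ?_
    · unfold Gz
      rw [norm_mul, norm_mul, norm_pow, mul_assoc, mul_assoc]
      have hre : (1 / 2 + (t : ℂ) * Complex.I + ((1 / L : ℝ) : ℂ) * li L u).re = 3 / 2 := by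
        rw [Complex.add_re, Complex.re_ofReal_mul, li_re, one_div_mul_cancel hL0.ne']
        simp
        norm_num
      have k1 := hz _ hre.ge
      have hu0 : 0 < |u| := hU0.trans hu
      have k2 : |u| ≤ ‖li L u‖ := by
        have := Complex.abs_im_le_norm (li L u)
        rwa [li_im] at this
      have k3 := kz_norm_le hν0 hu0 k2
      rw [← hGe] at k3
      refine mul_le_mul (pow_le_pow_left₀ (norm_nonneg _) k1 m) ?_ (by positivity) (by positivity)
      rw [exp_li_norm1, hexpL]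
      exact mul_le_mul_of_nonneg_left k3 hx0.le
    · have e1 : 1 - (ν + 1) = -ν := by ring
      have e2 : ν + 1 - 1 = ν := by ring
      rw [e1, e2]
      have k4 := hpow ν (by linarith)
      have k5 : 2 * (Cz ^ m * (x * G) * (U ^ (-ν) / ν)) = 2 * (Cz ^ m * G / ν) * x * U ^ (-ν) := by
        field_simp
      rw [k5]
      exact mul_le_mul_of_nonneg_left k4 (by positivity)
  -- the left tail
  have hLft : ‖Xf (wr ν) m (1 / L) t - ∫ u in (-U)..U, Gz m ν (1 / L) t (li 1 u)‖ ≤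
      2 * (12 ^ m * Cr ν / (κ - 1)) * x * t ^ (-(3 / 8) : ℝ) := by
    simp_rw [Gz_fi]
    unfold Xf
    refine (tail_bound l1 (K := 12 ^ m * Cr ν) (κ := κ) (by linarith) hU0 fun u hu => ?_).trans ?_
    · have hu0 : 0 < |u| := hU0.trans hu
      have hY : 1 + |t + u * (1 / L)| ≤ 1 + |u| := by
        have k1 := abs_add_le t (u * (1 / L))
        rw [abs_mul, abs_of_pos hδ0, abs_of_pos ht0] at k1
        have k2 : t ≤ 2 * (1 / L * |u|) := by
          have := mul_le_mul_of_nonneg_left hu.le hδ0.le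
          rw [hdU] at this
          linarith
        nlinarith
      refine (fi_bound D hδ0 hδ1 hY).trans ?_
      have hpos : 0 < 1 + |u| := by positivity
      rw [mul_assoc, ← Real.rpow_add hpos]
      refine mul_le_mul_of_nonneg_left ?_ (by positivity)
      have e : 5 / 8 * (m:ℝ) + -(ν + 1) = -κ := by rw [hκe]; ring
      rw [e]
      exact Real.rpow_le_rpow_of_nonpos hu0 (by linarith) (by linarith)
    · have e1 : 1 - κ = -(κ - 1) := by ring
      rw [e1]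
      have k4 := hpow (κ - 1) (by linarith)
      have hκ1 : 0 < κ - 1 := by linarith
      have k5 : 2 * (12 ^ m * Cr ν * (U ^ (-(κ - 1)) / (κ - 1))) = 2 * (12 ^ m * Cr ν / (κ - 1)) * 1 * U ^ (-(κ - 1)) := by
        field_simp
      rw [k5]
      have hU1 : 0 < U ^ (-(κ - 1)) := Real.rpow_pos_of_pos hU0 _
      gcongr
  -- the rectangle
  have hmid : ‖(∫ u in (-U)..U, Gz m ν (1 / L) t (li L u)) - ∫ u in (-U)..U, Gz m ν (1 / L) t (li 1 u)‖ ≤
      4 * 9 ^ m * G * x * t ^ (-(3 / 8) : ℝ) := by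
    have hc := Complex.integral_boundary_rect_eq_zero_of_differentiableOn (Gz m ν (1 / L) t)
      ((1:ℂ) + ((-U : ℝ) : ℂ) * Complex.I) ((L:ℂ) + (U : ℂ) * Complex.I) (by
        have k1 : ((1:ℂ) + ((-U : ℝ) : ℂ) * Complex.I).re = 1 := by simp
        have k2 : ((L:ℂ) + (U : ℂ) * Complex.I).re = L := by simp
        have k3 : ((1:ℂ) + ((-U : ℝ) : ℂ) * Complex.I).im = -U := by simp
        have k4 : ((L:ℂ) + (U : ℂ) * Complex.I).im = U := by simp
        rw [k1, k2, k3, k4]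
        exact Gz_diff hL1 ht hU)
    have k1 : ((1:ℂ) + ((-U : ℝ) : ℂ) * Complex.I).re = 1 := by simp
    have k2 : ((L:ℂ) + (U : ℂ) * Complex.I).re = L := by simp
    have k3 : ((1:ℂ) + ((-U : ℝ) : ℂ) * Complex.I).im = -U := by simp
    have k4 : ((L:ℂ) + (U : ℂ) * Complex.I).im = U := by simp
    rw [k1, k2, k3, k4] at hc
    have eL : ∫ y in (-U)..U, Gz m ν (1 / L) t ((L:ℂ) + (y : ℂ) * Complex.I) = ∫ u in (-U)..U, Gz m ν (1 / L) t (li L u) := rfl
    have e1 : ∫ y in (-U)..U, Gz m ν (1 / L) t (((1:ℝ):ℂ) + (y : ℂ) * Complex.I) = ∫ u in (-U)..U, Gz m ν (1 / L) t (li 1 u) := rfl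
    rw [eL, e1] at hc
    obtain ⟨H, hH⟩ : ∃ H : ℝ, H = (9 * t) ^ m * (Real.exp L * (G * U ^ (-(ν + 1)))) := ⟨_, rfl⟩
    have hh : ∀ v : ℝ, |v| = U → ‖∫ a in (1:ℝ)..L, Gz m ν (1 / L) t ((a:ℂ) + (v : ℂ) * Complex.I)‖ ≤ H * (L - 1) := by
      intro v hv
      have := intervalIntegral.norm_integral_le_of_norm_le_const (a := (1:ℝ)) (b := L) (C := H)
        (f := fun a : ℝ => Gz m ν (1 / L) t ((a:ℂ) + (v : ℂ) * Complex.I)) fun a ha => ?_
      · rwa [abs_of_nonneg (by linarith)] at this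
      · rw [Set.uIoc_of_le hL1] at ha
        rw [hH, hGe]
        refine hor_le hν0 hL1 ht hU ?_ ?_ ?_
        · simp [ha.1.le]
        · simpa using ha.2
        · simpa using hv
    have h1 := hh (-U) (by rw [abs_neg, abs_of_pos hU0])
    have h2 := hh U (abs_of_pos hU0)
    have e3 : ‖(∫ u in (-U)..U, Gz m ν (1 / L) t (li L u)) - ∫ u in (-U)..U, Gz m ν (1 / L) t (li 1 u)‖ =
        ‖(∫ a in (1:ℝ)..L, Gz m ν (1 / L) t ((a:ℂ) + (U : ℂ) * Complex.I)) -
          ∫ a in (1:ℝ)..L, Gz m ν (1 / L) t ((a:ℂ) + ((-U : ℝ) : ℂ) * Complex.I)‖ := by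
      rw [smul_eq_mul, smul_eq_mul] at hc
      have e4 : Complex.I * ((∫ u in (-U)..U, Gz m ν (1 / L) t (li L u)) - ∫ u in (-U)..U, Gz m ν (1 / L) t (li 1 u)) =
          (∫ a in (1:ℝ)..L, Gz m ν (1 / L) t ((a:ℂ) + (U : ℂ) * Complex.I)) -
          ∫ a in (1:ℝ)..L, Gz m ν (1 / L) t ((a:ℂ) + ((-U : ℝ) : ℂ) * Complex.I) := by
        linear_combination hc
      rw [← e4, norm_mul, Complex.norm_I, one_mul]
    rw [e3]
    refine (norm_sub_le _ _).trans ((add_le_add h2 h1).trans ?_)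
    have hU2 : U ^ (-(ν + 1)) = U ^ (-ν) * U⁻¹ := by
      rw [neg_add, Real.rpow_add hU0, Real.rpow_neg_one]
    have hLU : (L - 1) * U⁻¹ ≤ 2 / t := by
      rw [hU]
      rw [← div_eq_mul_inv, div_le_div_iff₀ (by positivity) ht0]
      nlinarith
    have hUν : 0 < U ^ (-ν) := Real.rpow_pos_of_pos hU0 _
    have ht2 : t ^ m * (U ^ (-ν) * (1 / t)) ≤ t ^ (-(3 / 8) : ℝ) := by
      have k6 : U ^ (-ν) ≤ t ^ (-ν) := Real.rpow_le_rpow_of_nonpos ht0 hUt (by linarith)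
      calc t ^ m * (U ^ (-ν) * (1 / t)) ≤ t ^ m * (t ^ (-ν) * (1 / t)) := by gcongr
        _ = t ^ ((m:ℝ) + (-ν + -1)) := by
            rw [Real.rpow_add ht0, Real.rpow_add ht0, Real.rpow_natCast, Real.rpow_neg_one, one_div]
        _ ≤ t ^ (-(3 / 8) : ℝ) := Real.rpow_le_rpow_of_exponent_le ht (by linarith)
    calc H * (L - 1) + H * (L - 1) = 2 * (9 ^ m * x * G) * (t ^ m * (U ^ (-ν) * ((L - 1) * U⁻¹))) := by
          rw [hH, hexpL, hU2, mul_pow]
          ring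
      _ ≤ 2 * (9 ^ m * x * G) * (t ^ m * (U ^ (-ν) * (2 / t))) := by gcongr
      _ = 4 * 9 ^ m * G * x * (t ^ m * (U ^ (-ν) * (1 / t))) := by ring
      _ ≤ 4 * 9 ^ m * G * x * t ^ (-(3 / 8) : ℝ) := mul_le_mul_of_nonneg_left ht2 (by positivity)
  -- conclusion
  have e5 : rz m ν x t - Xf (wr ν) m (1 / L) t = (rz m ν x t - ∫ u in (-U)..U, Gz m ν (1 / L) t (li L u)) +
      ((∫ u in (-U)..U, Gz m ν (1 / L) t (li L u)) - ∫ u in (-U)..U, Gz m ν (1 / L) t (li 1 u)) -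
      (Xf (wr ν) m (1 / L) t - ∫ u in (-U)..U, Gz m ν (1 / L) t (li 1 u)) := by ring
  rw [e5]
  refine (norm_sub_le _ _).trans ?_
  have h9 := norm_add_le (rz m ν x t - ∫ u in (-U)..U, Gz m ν (1 / L) t (li L u))
    ((∫ u in (-U)..U, Gz m ν (1 / L) t (li L u)) - ∫ u in (-U)..U, Gz m ν (1 / L) t (li 1 u))
  calc _ ≤ 2 * (Cz ^ m * G / ν) * x * t ^ (-(3 / 8) : ℝ) + 4 * 9 ^ m * G * x * t ^ (-(3 / 8) : ℝ) +
      2 * (12 ^ m * Cr ν / (κ - 1)) * x * t ^ (-(3 / 8) : ℝ) := by linarith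
    _ = _ := by ring

end Pool.Agent.H43.RM
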