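import Pool.Agent.H43.RM.Pos
import Pool.Agent.H43.RM.Shift

set_option autoImplicit false

/-! The constant term of the functional of the Riesz means. -/

namespace Pool.Agent.H43.RM

open Filter Topology MeasureTheory
open Pool.Agent.V11128.CXL

/-- the density of the constant term -/
noncomputable def cden (ν s t : ℝ) : ℝ := t ^ (s - 1) * Real.exp (-(1 / 2 * t)) * (max (1 - t / 2) 0) ^ ν

lemma inner_int {ν : ℝ} (hν : 0 < ν) (t : ℝ) :
    ∫ u : ℝ, Complex.exp (-(Complex.I * u * t / 2)) * wr ν u = ((Real.exp (1 / 2 * t) * (max (1 - t / 2) 0) ^ ν : ℝ) : ℂ) := by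
  have h := ker_int hν le_rfl (1 - t / 2)
  rw [Complex.ofReal_mul, ← h, ← integral_const_mul]
  refine integral_congr_ae (Eventually.of_forall fun u => ?_)
  simp only
  unfold wr
  rw [← mul_assoc, ← mul_assoc, Complex.ofReal_exp, ← Complex.exp_add, ← Complex.exp_add]
  congr 2
  unfold li
  push_cast
  ring

lemma cz_rot (w : ℝ → ℂ) (m : ℕ) {β s : ℝ} (hs : 0 < s) (hms : (m:ℝ) * (β / 2) = s) (u : ℝ) :
    ∫ t : ℝ in Set.Ioi 0, (t : ℂ) ^ ((s : ℂ) - 1) * Complex.exp (-((1 + Complex.I * u / 2) * t)) * w u =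
      Complex.Gamma s * cz w m β u := by
  rw [integral_mul_const]
  have hre : (1 + Complex.I * (u : ℂ) / 2).re = 1 := by simp
  have h := Pool.Agent.H402R2.T4b.rot_formula (a := (s : ℂ)) (r := 1 + Complex.I * u / 2) (by simpa using hs) (by
    rw [hre]; exact one_pos)
  rw [h]
  have hne : (1 + Complex.I * (u : ℂ) / 2) ≠ 0 := by
    intro h0
    rw [h0] at hre
    simp at hre
  have harg : (1 + Complex.I * (u : ℂ) / 2).arg ≠ Real.pi := by
    have h2 : (1 + Complex.I * (u : ℂ) / 2) ∈ Complex.slitPlane := by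
      rw [Complex.mem_slitPlane_iff]
      left
      rw [hre]
      exact one_pos
    exact (Complex.mem_slitPlane_iff_arg.1 h2).1
  have e : (1 / (1 + Complex.I * (u : ℂ) / 2)) ^ (s : ℂ) = Complex.exp (m * (-(β / 2 : ℂ) * el u)) := by
    rw [one_div, Complex.inv_cpow _ _ harg, Complex.cpow_def_of_ne_zero hne, ← Complex.exp_neg]
    congr 1
    unfold el
    rw [← hms]
    push_cast
    ring
  rw [e]
  unfold cz
  ring

lemma w_int {w : ℝ → ℂ} {m : ℕ} {A Cw : ℝ} (D : Dat w m A Cw) : Integrable w :=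
  ((one_abs_int D.A1).const_mul Cw).mono' D.cont.aestronglyMeasurable (Eventually.of_forall D.bd)

/-- the exchange of the integrals -/
lemma cz_swap {w : ℝ → ℂ} (hw : Integrable w) (m : ℕ) {β s : ℝ} (hs : 0 < s) (hms : (m:ℝ) * (β / 2) = s) :
    Complex.Gamma s * ∫ u, cz w m β u =
      ∫ t : ℝ in Set.Ioi 0, (((t ^ (s - 1) * Real.exp (-(1 * t)) : ℝ) : ℂ) * ∫ u : ℝ, Complex.exp (-(Complex.I * u * t / 2)) * w u) := by
  rw [← integral_const_mul]
  have e1 : ∫ u, Complex.Gamma s * cz w m β u = ∫ u, ∫ t : ℝ in Set.Ioi 0,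
      (w u * (((t ^ (s - 1) * Real.exp (-(1 * t)) : ℝ) : ℂ))) * Complex.exp (-(Complex.I * u * t / 2)) := by
    refine integral_congr_ae (Eventually.of_forall fun u => ?_)
    simp only
    rw [← cz_rot w m hs hms u]
    refine setIntegral_congr_fun measurableSet_Ioi fun t ht => ?_
    have ht0 : (0:ℝ) < t := ht
    have e2 : ((s : ℂ) - 1) = ((s - 1 : ℝ) : ℂ) := by push_cast; rfl
    rw [e2, ← Complex.ofReal_cpow ht0.le, Complex.ofReal_mul, Complex.ofReal_exp]
    have e3 : Complex.exp (-((1 + Complex.I * (u : ℂ) / 2) * t)) = Complex.exp ((-(1 * t) : ℝ) : ℂ) *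
        Complex.exp (-(Complex.I * u * t / 2)) := by
      rw [← Complex.exp_add]
      congr 1
      push_cast
      ring
    rw [e3]
    ring
  rw [e1]
  have hE : Integrable (fun t : ℝ => ((t ^ (s - 1) * Real.exp (-(1 * t)) : ℝ) : ℂ)) (volume.restrict (Set.Ioi 0)) :=
    (Pool.Agent.H402R2.T4b.int_rpow_exp (s := s - 1) (b := 1) (by linarith) one_pos).ofReal
  have hH := hw.mul_prod hE
  have hF : Integrable (fun p : ℝ × ℝ => (w p.1 * (((p.2 ^ (s - 1) * Real.exp (-(1 * p.2)) : ℝ) : ℂ))) *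
      Complex.exp (-(Complex.I * p.1 * p.2 / 2))) (volume.prod (volume.restrict (Set.Ioi 0))) := by
    refine hH.norm.mono' (hH.aestronglyMeasurable.mul ?_) (Eventually.of_forall fun p => ?_)
    · have : Continuous fun p : ℝ × ℝ => Complex.exp (-(Complex.I * p.1 * p.2 / 2)) := by fun_prop
      exact this.aestronglyMeasurable
    · rw [norm_mul]
      have e4 : ‖Complex.exp (-(Complex.I * p.1 * p.2 / 2))‖ = 1 := by
        rw [Complex.norm_exp]
        have : (-(Complex.I * (p.1 : ℂ) * p.2 / 2)).re = 0 := by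
          have e5 : -(Complex.I * (p.1 : ℂ) * p.2 / 2) = ((-(p.1 * p.2 / 2) : ℝ) : ℂ) * Complex.I := by
            push_cast
            ring
          rw [e5, Complex.re_ofReal_mul]
          simp
        rw [this, Real.exp_zero]
      rw [e4, mul_one]
  rw [integral_integral_swap hF]
  refine integral_congr_ae (Eventually.of_forall fun t => ?_)
  simp only
  rw [← integral_const_mul]
  refine integral_congr_ae (Eventually.of_forall fun u => ?_)
  simp only
  ring

lemma cden_nonneg (ν s : ℝ) {t : ℝ} (ht : 0 < t) : 0 ≤ cden ν s t := by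
  unfold cden
  have : 0 ≤ max (1 - t / 2) 0 := le_max_right _ _
  positivity

lemma cden_int {ν s : ℝ} (hν : 0 < ν) (hs : 0 < s) : IntegrableOn (cden ν s) (Set.Ioi 0) := by
  have h1 := Pool.Agent.H402R2.T4b.int_rpow_exp (s := s - 1) (b := 1 / 2) (by linarith) (by norm_num)
  have hc : Continuous fun t : ℝ => (max (1 - t / 2) 0) ^ ν :=
    ((by fun_prop : Continuous fun t : ℝ => max (1 - t / 2) 0)).rpow_const fun _ => Or.inr hν.le
  refine Integrable.mono' h1 (h1.aestronglyMeasurable.mul hc.aestronglyMeasurable) ?_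
  refine (ae_restrict_iff' measurableSet_Ioi).2 (Eventually.of_forall fun t ht => ?_)
  have ht0 : (0:ℝ) < t := ht
  rw [Real.norm_of_nonneg (cden_nonneg ν s ht0)]
  unfold cden
  have h2 : (max (1 - t / 2) 0) ^ ν ≤ 1 := by
    refine Real.rpow_le_one (le_max_right _ _) ?_ hν.le
    exact max_le (by linarith) (by norm_num)
  exact mul_le_of_le_one_right (by positivity) h2

lemma cden_pos {ν s : ℝ} (hν : 0 < ν) (hs : 0 < s) : 0 < ∫ t in Set.Ioi 0, cden ν s t := by
  have h1 : 0 < ∫ t in Set.Ioo (0:ℝ) 1, cden ν s t := by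
    rw [← integral_Ioc_eq_integral_Ioo, ← intervalIntegral.integral_of_le (by norm_num)]
    refine intervalIntegral.intervalIntegral_pos_of_pos_on ?_ (fun t ht => ?_) (by norm_num)
    · rw [intervalIntegrable_iff_integrableOn_Ioc_of_le (by norm_num)]
      exact (cden_int hν hs).mono_set Set.Ioc_subset_Ioi_self
    · unfold cden
      have : 0 < max (1 - t / 2) 0 := lt_max_of_lt_left (by linarith [ht.2])
      have ht0 := ht.1
      positivity
  refine h1.trans_le (setIntegral_mono_set (cden_int hν hs) ?_ Set.Ioo_subset_Ioi_self.eventuallyLE)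
  exact (ae_restrict_iff' measurableSet_Ioi).2 (Eventually.of_forall fun t ht => cden_nonneg ν s ht)

/-- the constant term of the functional of the Riesz means -/
theorem cz_value {m : ℕ} (hm : 1 ≤ m) {ν : ℝ} (hν : (m : ℝ) ≤ ν) {β s : ℝ} (hs : 0 < s) (hms : (m:ℝ) * (β / 2) = s) :
    Complex.Gamma s * ∫ u, cz (wr ν) m β u = ((∫ t in Set.Ioi 0, cden ν s t : ℝ) : ℂ) := by
  have hm' : (1:ℝ) ≤ m := by exact_mod_cast hm
  have hν0 : 0 < ν := by linarith
  rw [cz_swap (w_int (dat_r hm hν)) m hs hms, ← integral_complex_ofReal]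
  refine setIntegral_congr_fun measurableSet_Ioi fun t ht => ?_
  rw [inner_int hν0, ← Complex.ofReal_mul]
  congr 1
  unfold cden
  have : Real.exp (-(1 / 2 * t)) = Real.exp (-(1 * t)) * Real.exp (1 / 2 * t) := by
    rw [← Real.exp_add]
    congr 1
    ring
  rw [this]
  ring

theorem cz_ne {m : ℕ} (hm : 1 ≤ m) {ν : ℝ} (hν : (m : ℝ) ≤ ν) {β : ℝ} (hβ : 0 < β) :
    0 < ‖∫ u, cz (wr ν) m β u‖ := by
  have hm' : (1:ℝ) ≤ m := by exact_mod_cast hm
  have hν0 : 0 < ν := by linarith
  have hs : 0 < (m:ℝ) * (β / 2) := by positivity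
  have h := cz_value hm hν hs rfl
  have h2 := cden_pos hν0 hs
  rw [norm_pos_iff]
  intro h0
  rw [h0, mul_zero] at h
  have h3 : (∫ t in Set.Ioi 0, cden ν ((m:ℝ) * (β / 2)) t) = 0 := by exact_mod_cast h.symm
  linarith

end Pool.Agent.H43.RM
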