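import Pool.Agent.H43.RM.Mean

set_option autoImplicit false

/-! The limit theorem for linear functionals on the whole line. -/

namespace Pool.Agent.H43.RM

open Filter Topology MeasureTheory
open Pool.Agent.V11128.CXL
open Pool.Agent.Y753.SHR
open Pool.Agent.H306R2 (aF aF_pos)

variable {w : ℝ → ℂ} {m : ℕ} {A Cw : ℝ}

lemma pth_cont_ae {β : ℝ} (hβ : 0 < β) : ∀ᵐ ω ∂PP, Continuous (pth β ω) := by
  have h1 : ∀ᵐ ω ∂PP, ∀ R : ℕ, Gd ((R:ℝ) + 1) ω := ae_all_iff.2 fun R => gd_ae _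
  filter_upwards [h1] with ω hω
  rw [continuous_iff_continuousAt]
  intro x
  obtain ⟨R, hR⟩ := exists_nat_gt |x|
  have hr : (0:ℝ) < (R:ℝ) + 1 := by positivity
  obtain ⟨k1, k2⟩ := path_class hβ hr (hω R)
  have hc : ContinuousOn (pth β ω) (Set.Icc (-((R:ℝ) + 1)) ((R:ℝ) + 1)) := by
    have hl : LipschitzOnWith (Real.toNNReal (16 * Sw β ((R:ℝ) + 1) ω)) (pth β ω) (Set.Icc (-((R:ℝ) + 1)) ((R:ℝ) + 1)) := by
      refine LipschitzOnWith.of_dist_le_mul fun x hx y hy => ?_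
      rw [dist_eq_norm, Real.dist_eq, Real.coe_toNNReal _ (by have := (Sw_pos β ((R:ℝ) + 1) ω).le; positivity)]
      exact k2 x hx y hy
    exact hl.continuousOn
  refine hc.continuousAt (Icc_mem_nhds ?_ ?_)
  · linarith [(abs_lt.1 hR).1]
  · linarith [(abs_lt.1 hR).2]

/-- the integrand of the limit -/
noncomputable def gi (w : ℝ → ℂ) (m : ℕ) (β : ℝ) (ω : ℕ → ℝ × ℝ) (u : ℝ) : ℂ := pth β ω u ^ m * w u

lemma gi_cont (D : Dat w m A Cw) {β : ℝ} {ω : ℕ → ℝ × ℝ} (h : Continuous (pth β ω)) : Continuous (gi w m β ω) := by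
  unfold gi
  exact (h.pow m).mul D.cont

/-- the limit functional -/
noncomputable def Jf (w : ℝ → ℂ) (m : ℕ) (β : ℝ) (ω : ℕ → ℝ × ℝ) : ℂ := ∫ u, gi w m β ω u

/-- the truncated limit functional -/
noncomputable def Jr (w : ℝ → ℂ) (m : ℕ) (β : ℝ) (R : ℕ) (ω : ℕ → ℝ × ℝ) : ℂ := ∫ u in Set.Icc (-(R:ℝ)) R, gi w m β ω u

/-- the truncated absolute limit functional -/
noncomputable def Nr (w : ℝ → ℂ) (m : ℕ) (β : ℝ) (R : ℕ) (ω : ℕ → ℝ × ℝ) : ℝ := ∫ u in Set.Icc (-(R:ℝ)) R, ‖gi w m β ω u‖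

lemma Nr_nonneg (w : ℝ → ℂ) (m : ℕ) (β : ℝ) (R : ℕ) (ω : ℕ → ℝ × ℝ) : 0 ≤ Nr w m β R ω :=
  integral_nonneg fun _ => norm_nonneg _

/-- continuity of the integral functionals on windows -/
lemma func_cont {E : Type*} [NormedAddCommGroup E] [NormedSpace ℝ E] {r : ℝ} (hle : -r ≤ r) {g : ℂ → ℝ → E}
    (hg : Continuous fun p : ℂ × ℝ => g p.1 p.2) :
    Continuous fun f : Wn r => ∫ x in Set.Icc (-r) r, g (f (Set.projIcc (-r) r hle x)) x := by
  rw [continuous_iff_continuousAt]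
  intro f₀
  obtain ⟨C, hC⟩ := ((isCompact_closedBall (0:ℂ) (‖f₀‖ + 1)).prod (isCompact_Icc (a := -r) (b := r))).exists_bound_of_continuousOn
    hg.continuousOn
  refine continuousAt_of_dominated (bound := fun _ => C) (Eventually.of_forall fun f => ?_) ?_
    (integrableOn_const (by simp)) (Eventually.of_forall fun x => ?_)
  · have h1 : Continuous fun x => g (f (Set.projIcc (-r) r hle x)) x :=
      hg.comp ((f.continuous.comp continuous_projIcc).prodMk continuous_id)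
    exact h1.aestronglyMeasurable
  · filter_upwards [Metric.ball_mem_nhds f₀ one_pos] with f hf
    filter_upwards [ae_restrict_mem measurableSet_Icc] with x hx
    refine hC (f (Set.projIcc (-r) r hle x), x) ⟨?_, hx⟩
    rw [Metric.mem_closedBall, dist_zero_right]
    refine (f.norm_coe_le_norm _).trans ?_
    have h1 := norm_le_norm_add_norm_sub' f f₀
    rw [Metric.mem_ball, dist_eq_norm] at hf
    linarith
  · have h1 : Continuous fun f : Wn r => g (f (Set.projIcc (-r) r hle x)) x :=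
      hg.comp ((ContinuousEvalConst.continuous_eval_const (F := C(Set.Icc (-r) r, ℂ)) _).prodMk continuous_const)
    exact h1.continuousAt

lemma win_int {E : Type*} [NormedAddCommGroup E] [NormedSpace ℝ E] {r : ℝ} (hle : -r ≤ r) {g : ℂ → ℝ → E} {h : ℝ → ℂ}
    (hh : ∀ x, win r h x = h x) :
    ∫ x in Set.Icc (-r) r, g (win r h (Set.projIcc (-r) r hle x)) x = ∫ x in Set.Icc (-r) r, g (h x) x := by
  refine setIntegral_congr_fun measurableSet_Icc fun x hx => ?_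
  rw [hh, Set.projIcc_of_mem hle hx]

lemma pth_win {β : ℝ} {ω : ℕ → ℝ × ℝ} (h : Continuous (pth β ω)) (r : ℝ) : ∀ x, win r (pth β ω) x = pth β ω x := fun x =>
  win_apply (h.comp continuous_subtype_val) x

/-- the moments of the truncated functionals -/
lemma lim_R (D : Dat w m A Cw) {δ : ℝ → ℝ} (hδ : Tendsto δ atTop (𝓝 0))
    (hδL : Tendsto (fun T : ℝ => δ T * Real.log T) atTop atTop) {β q : ℝ} (hβ : 0 < β) (hβ4 : β ≤ 4)
    (hq : 0 < q) (hmq : m * q = β) {R : ℕ} (hR : 1 ≤ R) :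
    (Integrable (fun ω => ‖Jr w m β R ω‖ ^ q) PP ∧
      Tendsto (fun T : ℝ => (2 * δ T) ^ ((β / 2) ^ 2) / T * ∫ t in Set.Icc 0 T, ‖Xr w m R (δ T) t‖ ^ q) atTop
        (𝓝 (aF (β / 2) * ∫ ω, ‖Jr w m β R ω‖ ^ q ∂PP))) ∧
    (Integrable (fun ω => Nr w m β R ω ^ q) PP ∧
      Tendsto (fun T : ℝ => (2 * δ T) ^ ((β / 2) ^ 2) / T * ∫ t in Set.Icc 0 T, Hr w m R (δ T) t ^ q) atTop
        (𝓝 (aF (β / 2) * ∫ ω, Nr w m β R ω ^ q ∂PP))) ∧
    AEStronglyMeasurable (Jr w m β R) PP := by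
  have hR0 : (0:ℝ) < R := by exact_mod_cast hR
  have hle : -(R:ℝ) ≤ R := by linarith
  have hsm := hδ.eventually (gt_mem_nhds (show (0:ℝ) < 1 / 4 by norm_num))
  -- the complex functional
  obtain ⟨g1, hg1⟩ : ∃ g1 : ℂ → ℝ → ℂ, g1 = fun z x => z ^ m * w x := ⟨_, rfl⟩
  obtain ⟨g2, hg2⟩ : ∃ g2 : ℂ → ℝ → ℝ, g2 = fun z x => ‖z ^ m * w x‖ := ⟨_, rfl⟩
  have hg1c : Continuous fun p : ℂ × ℝ => g1 p.1 p.2 := by
    rw [hg1]
    exact (continuous_fst.pow m).mul (D.cont.comp continuous_snd)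
  have hg2c : Continuous fun p : ℂ × ℝ => g2 p.1 p.2 := by
    rw [hg2]
    exact ((continuous_fst.pow m).mul (D.cont.comp continuous_snd)).norm
  have hrpow : ∀ (l : ℂ) (x : ℝ), 0 ≤ x → (‖l‖ ^ m * x) ^ q = ‖l‖ ^ β * x ^ q := by
    intro l x hx
    rw [Real.mul_rpow (by positivity) hx, ← Real.rpow_natCast, ← Real.rpow_mul (norm_nonneg _), hmq]
  obtain ⟨Φ, hΦ⟩ : ∃ Φ : Wn (R:ℝ) → ℝ, Φ = fun f =>
      ‖∫ x in Set.Icc (-(R:ℝ)) R, g1 (f (Set.projIcc (-(R:ℝ)) R hle x)) x‖ ^ q := ⟨_, rfl⟩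
  obtain ⟨Ψ, hΨ⟩ : ∃ Ψ : Wn (R:ℝ) → ℝ, Ψ = fun f =>
      (∫ x in Set.Icc (-(R:ℝ)) R, g2 (f (Set.projIcc (-(R:ℝ)) R hle x)) x) ^ q := ⟨_, rfl⟩
  have hJc : Continuous fun f : Wn (R:ℝ) => ∫ x in Set.Icc (-(R:ℝ)) R, g1 (f (Set.projIcc (-(R:ℝ)) R hle x)) x :=
    func_cont hle hg1c
  have hΦc : Continuous Φ := by
    rw [hΦ]
    exact hJc.norm.rpow_const fun _ => Or.inr hq.le
  have hΨc : Continuous Ψ := by
    rw [hΨ]
    exact (func_cont hle hg2c).rpow_const fun _ => Or.inr hq.le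
  have hΦh : HomW β Φ := by
    rw [hΦ]
    intro l f
    simp only [hg1]
    have e1 : ∀ x : ℝ, ((l • f) (Set.projIcc (-(R:ℝ)) R hle x)) ^ m * w x =
        l ^ m * (f (Set.projIcc (-(R:ℝ)) R hle x) ^ m * w x) := by
      intro x
      rw [ContinuousMap.smul_apply, smul_eq_mul, mul_pow, mul_assoc]
    simp_rw [e1]
    rw [integral_const_mul, norm_mul, norm_pow, hrpow _ _ (norm_nonneg _)]
  have hΨh : HomW β Ψ := by
    rw [hΨ]
    intro l f
    simp only [hg2]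
    have e1 : ∀ x : ℝ, ‖((l • f) (Set.projIcc (-(R:ℝ)) R hle x)) ^ m * w x‖ =
        ‖l‖ ^ m * ‖f (Set.projIcc (-(R:ℝ)) R hle x) ^ m * w x‖ := by
      intro x
      rw [ContinuousMap.smul_apply, smul_eq_mul, mul_pow, mul_assoc, norm_mul, norm_pow]
    simp_rw [e1]
    rw [integral_const_mul, hrpow _ _ (integral_nonneg fun _ => norm_nonneg _)]
  obtain ⟨a1, a2⟩ := func_moment hδ hδL hβ hβ4 hR0 hΦc hΦh
  obtain ⟨b1, b2⟩ := func_moment hδ hδL hβ hβ4 hR0 hΨc hΨh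
  have hpc := pth_cont_ae hβ
  have c1 : (fun ω => Φ (win (R:ℝ) (pth β ω))) =ᵐ[PP] fun ω => ‖Jr w m β R ω‖ ^ q := by
    filter_upwards [hpc] with ω hω
    rw [hΦ]
    simp only
    rw [win_int hle (pth_win hω _), hg1]
    rfl
  have c2 : (fun ω => Ψ (win (R:ℝ) (pth β ω))) =ᵐ[PP] fun ω => Nr w m β R ω ^ q := by
    filter_upwards [hpc] with ω hω
    rw [hΨ]
    simp only
    rw [win_int hle (pth_win hω _), hg2]
    rfl
  have d1 : ∀ᶠ T : ℝ in atTop, ∀ t, Φ (win (R:ℝ) fun x => zc (δ T) x t) = ‖Xr w m R (δ T) t‖ ^ q := by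
    filter_upwards [hsm] with T hT t
    rw [hΦ]
    simp only
    rw [win_int hle (zc_win hT _ t), hg1]
    rfl
  have d2 : ∀ᶠ T : ℝ in atTop, ∀ t, Ψ (win (R:ℝ) fun x => zc (δ T) x t) = Hr w m R (δ T) t ^ q := by
    filter_upwards [hsm] with T hT t
    rw [hΨ]
    simp only
    rw [win_int hle (zc_win hT _ t), hg2]
    rfl
  rw [integral_congr_ae c1] at a2
  rw [integral_congr_ae c2] at b2
  refine ⟨⟨a1.congr c1, a2.congr' ?_⟩, ⟨b1.congr c2, b2.congr' ?_⟩, ?_⟩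
  · filter_upwards [d1] with T hT
    simp_rw [hT]
  · filter_upwards [d2] with T hT
    simp_rw [hT]
  · -- measurability
    obtain ⟨L, hL⟩ : ∃ L : Wn (R:ℝ) → ℂ, L = fun f => ∫ x in Set.Icc (-(R:ℝ)) R, g1 (f (Set.projIcc (-(R:ℝ)) R hle x)) x :=
      ⟨_, rfl⟩
    rw [← hL] at hJc
    have hlim : ∀ᵐ ω ∂PP, Tendsto (fun k : ℕ => L (In hR0 (Nat.le_add_left 1 k) (fun j => pth β ω (nd R (k + 1) j)))) atTop
        (𝓝 (Jr w m β R ω)) := by
      filter_upwards [gd_ae (R:ℝ), hpc] with ω hω hω2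
      obtain ⟨k1, k2⟩ := path_class hβ hR0 hω
      have h1 : Tendsto (fun k : ℕ => In hR0 (Nat.le_add_left 1 k) (fun j => pth β ω (nd (R:ℝ) (k + 1) j))) atTop
          (𝓝 (win (R:ℝ) (pth β ω))) := by
        rw [tendsto_iff_norm_sub_tendsto_zero]
        have h2 : Tendsto (fun k : ℕ => 16 * Sw β R ω * (4 * R / ((k:ℝ) + 1))) atTop (𝓝 0) := by
          have h3 : Tendsto (fun k : ℕ => 16 * Sw β R ω * (4 * R) * (1 / ((k:ℝ) + 1))) atTop (𝓝 (16 * Sw β R ω * (4 * R) * 0)) :=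
            tendsto_one_div_add_atTop_nhds_zero_nat.const_mul _
          rw [mul_zero] at h3
          refine h3.congr fun k => ?_
          ring
        refine squeeze_zero (fun k => norm_nonneg _) (fun k => ?_) h2
        rw [norm_sub_rev]
        have h4 := In_near hR0 (Nat.le_add_left 1 k) (g := pth β ω) (L := 16 * Sw β R ω)
          (by have := (Sw_pos β R ω).le; positivity) k2 (f := win (R:ℝ) (pth β ω)) (pth_win hω2 _)
        refine h4.trans (le_of_eq ?_)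
        push_cast
        ring
      have h5 := (hJc.tendsto _).comp h1
      have e : L (win (R:ℝ) (pth β ω)) = Jr w m β R ω := by
        rw [hL]
        simp only
        rw [win_int hle (pth_win hω2 _), hg1]
        rfl
      rw [e] at h5
      exact h5
    refine aestronglyMeasurable_of_tendsto_ae atTop (fun k => ?_) hlim
    have h1 : AEMeasurable (fun ω (j : Fin (k + 1 + 1)) => pth β ω (nd (R:ℝ) (k + 1) j)) PP :=
      aemeasurable_pi_lambda _ fun j => Complex.measurable_exp.comp_aemeasurable (GG_aem β (nd_mem hR0 (Nat.le_add_left 1 k) j))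
    have h2 : Measurable fun z => L (In hR0 (Nat.le_add_left 1 k) z) := (hJc.comp (In_cont hR0 _)).measurable
    exact (h2.comp_aemeasurable h1).aestronglyMeasurable

end Pool.Agent.H43.RM
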