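import Pool.Agent.H43.RM.Core

set_option autoImplicit false

/-! The limit theorem for linear functionals on the whole line, conclusion. -/

namespace Pool.Agent.H43.RM

open Filter Topology MeasureTheory
open Pool.Agent.V11128.CXL
open Pool.Agent.Y753.SHR
open Pool.Agent.H306R2 (aF aF_pos)

variable {w : ℝ → ℂ} {m : ℕ} {A Cw : ℝ}

lemma cover : AECover (volume : Measure ℝ) atTop fun R : ℕ => Set.Icc (-(((R + 1 : ℕ)) : ℝ)) ((R + 1 : ℕ) : ℝ) := by
  have h : Tendsto (fun R : ℕ => (((R + 1 : ℕ)) : ℝ)) atTop atTop :=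
    tendsto_natCast_atTop_atTop.comp (tendsto_add_atTop_nat 1)
  exact aecover_Icc (tendsto_neg_atTop_atBot.comp h) h

lemma Nr_mono (D : Dat w m A Cw) {β : ℝ} {ω : ℕ → ℝ × ℝ} (h : Continuous (pth β ω)) {R S : ℕ} (hRS : R ≤ S) :
    Nr w m β R ω ≤ Nr w m β S ω := by
  unfold Nr
  have hc := (gi_cont D h).norm
  refine setIntegral_mono_set (hc.continuousOn.integrableOn_compact isCompact_Icc)
    (Eventually.of_forall fun _ => norm_nonneg _) ?_
  have h1 : (R:ℝ) ≤ S := by exact_mod_cast hRS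
  exact (Set.Icc_subset_Icc (by linarith) h1).eventuallyLE

/-- the limit functional: integrability, moments, approximation -/
lemma limit_side (D : Dat w m A Cw) {β q b : ℝ} (hβ : 0 < β) (hq : 0 < q)
    (h1 : ∀ R : ℕ, 1 ≤ R → Integrable (fun ω => Nr w m β R ω ^ q) PP)
    (h2 : ∀ R : ℕ, 1 ≤ R → ∫ ω, Nr w m β R ω ^ q ∂PP ≤ b)
    (h3 : ∀ R : ℕ, 1 ≤ R → AEStronglyMeasurable (Jr w m β R) PP) :
    (∀ᵐ ω ∂PP, Integrable (gi w m β ω)) ∧ AEStronglyMeasurable (Jf w m β) PP ∧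
      Integrable (fun ω => ‖Jf w m β ω‖ ^ q) PP ∧
      Tendsto (fun R : ℕ => ∫ ω, ‖Jr w m β (R + 1) ω‖ ^ q ∂PP) atTop (𝓝 (∫ ω, ‖Jf w m β ω‖ ^ q ∂PP)) := by
  obtain ⟨f, hf⟩ : ∃ f : ℕ → (ℕ → ℝ × ℝ) → ENNReal, ∀ R ω, f R ω = ENNReal.ofReal (Nr w m β (R + 1) ω ^ q) := ⟨_, fun _ _ => rfl⟩
  have hNn : ∀ R ω, 0 ≤ Nr w m β R ω ^ q := fun R ω => Real.rpow_nonneg (Nr_nonneg _ _ _ _ _) _
  have hfm : ∀ R, AEMeasurable (f R) PP := by
    intro R
    have e : f R = fun ω => ENNReal.ofReal (Nr w m β (R + 1) ω ^ q) := funext (hf R)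
    rw [e]
    exact (h1 (R + 1) (by omega)).aestronglyMeasurable.aemeasurable.ennreal_ofReal
  have hfi : ∀ R, ∫⁻ ω, f R ω ∂PP ≤ ENNReal.ofReal b := by
    intro R
    simp_rw [hf]
    rw [← ofReal_integral_eq_lintegral_ofReal (h1 (R + 1) (by omega)) (Eventually.of_forall fun ω => hNn _ _)]
    exact ENNReal.ofReal_le_ofReal (h2 (R + 1) (by omega))
  have hlim : ∫⁻ ω, liminf (fun R => f R ω) atTop ∂PP ≤ ENNReal.ofReal b := by
    refine (lintegral_liminf_le' hfm).trans ?_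
    refine (liminf_le_liminf (Eventually.of_forall hfi)).trans (le_of_eq ?_)
    exact liminf_const _
  have hfin : ∀ᵐ ω ∂PP, liminf (fun R => f R ω) atTop < ⊤ := by
    refine ae_lt_top' ?_ (hlim.trans_lt ENNReal.ofReal_lt_top).ne
    refine ⟨fun ω => liminf (fun R => (hfm R).mk (f R) ω) atTop, Measurable.liminf fun R => (hfm R).measurable_mk, ?_⟩
    filter_upwards [ae_all_iff.2 fun R => (hfm R).ae_eq_mk] with ω k1
    simp_rw [k1]
  have hpc := pth_cont_ae hβ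
  have hint : ∀ᵐ ω ∂PP, Integrable (gi w m β ω) := by
    filter_upwards [hfin, hpc] with ω k1 k2
    obtain ⟨c, hc⟩ : ∃ c : ENNReal, c = liminf (fun R => f R ω) atTop := ⟨_, rfl⟩
    rw [← hc] at k1
    have hmono : Monotone fun R => f R ω := by
      intro R S hRS
      simp only [hf]
      exact ENNReal.ofReal_le_ofReal (Real.rpow_le_rpow (Nr_nonneg _ _ _ _ _) (Nr_mono D k2 (by omega)) hq.le)
    have hle : ∀ R, f R ω ≤ c := by
      intro R
      rw [hc, (tendsto_atTop_iSup hmono).liminf_eq]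
      exact le_iSup (fun R => f R ω) R
    refine cover.integrable_of_integral_norm_bounded (c.toReal ^ (1 / q)) (fun R =>
      (gi_cont D k2).continuousOn.integrableOn_compact isCompact_Icc) (Eventually.of_forall fun R => ?_)
    have k3 := ENNReal.toReal_mono k1.ne (hle R)
    rw [hf, ENNReal.toReal_ofReal (hNn _ _)] at k3
    have k4 := Real.rpow_le_rpow (hNn _ _) k3 (show 0 ≤ 1 / q by positivity)
    rw [← Real.rpow_mul (Nr_nonneg _ _ _ _ _), mul_one_div_cancel hq.ne', Real.rpow_one] at k4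
    exact k4
  obtain ⟨H, hH⟩ : ∃ H : (ℕ → ℝ × ℝ) → ℝ, ∀ ω, H ω = (∫ u, ‖gi w m β ω u‖) ^ q := ⟨_, fun _ => rfl⟩
  have hH0 : ∀ ω, 0 ≤ H ω := fun ω => by
    rw [hH]
    exact Real.rpow_nonneg (integral_nonneg fun _ => norm_nonneg _) _
  have hNlim : ∀ᵐ ω ∂PP, Tendsto (fun R : ℕ => Nr w m β (R + 1) ω ^ q) atTop (𝓝 (H ω)) := by
    filter_upwards [hint] with ω k1
    rw [hH]
    exact (cover.integral_tendsto_of_countably_generated k1.norm).rpow_const (Or.inr hq.le)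
  have hHm : AEStronglyMeasurable H PP :=
    aestronglyMeasurable_of_tendsto_ae atTop (fun R : ℕ => (h1 (R + 1) (by omega)).aestronglyMeasurable) hNlim
  have hHi : Integrable H PP := by
    refine ⟨hHm, ?_⟩
    rw [hasFiniteIntegral_iff_ofReal (Eventually.of_forall hH0)]
    refine lt_of_le_of_lt ?_ (hlim.trans_lt ENNReal.ofReal_lt_top)
    refine lintegral_mono_ae ?_
    filter_upwards [hNlim] with ω k1
    have k2 : Tendsto (fun R => f R ω) atTop (𝓝 (ENNReal.ofReal (H ω))) := by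
      simp_rw [hf]
      exact (ENNReal.continuous_ofReal.tendsto _).comp k1
    rw [k2.liminf_eq]
  have hJlim : ∀ᵐ ω ∂PP, Tendsto (fun R : ℕ => Jr w m β (R + 1) ω) atTop (𝓝 (Jf w m β ω)) := by
    filter_upwards [hint] with ω k1
    exact cover.integral_tendsto_of_countably_generated k1
  have hJm : AEStronglyMeasurable (Jf w m β) PP :=
    aestronglyMeasurable_of_tendsto_ae atTop (fun R : ℕ => h3 (R + 1) (by omega)) hJlim
  have hJle : ∀ᵐ ω ∂PP, ∀ R : ℕ, ‖Jr w m β (R + 1) ω‖ ^ q ≤ H ω := by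
    filter_upwards [hint] with ω k1 R
    rw [hH]
    refine Real.rpow_le_rpow (norm_nonneg _) ?_ hq.le
    refine (norm_integral_le_integral_norm _).trans ?_
    exact setIntegral_le_integral k1.norm (Eventually.of_forall fun _ => norm_nonneg _)
  have hcontq : Continuous fun z : ℂ => ‖z‖ ^ q := continuous_norm.rpow_const fun _ => Or.inr hq.le
  refine ⟨hint, hJm, ?_, ?_⟩
  · refine hHi.mono' (hcontq.comp_aestronglyMeasurable hJm) ?_
    filter_upwards [hint] with ω k1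
    rw [Real.norm_of_nonneg (Real.rpow_nonneg (norm_nonneg _) _), hH]
    exact Real.rpow_le_rpow (norm_nonneg _) (norm_integral_le_integral_norm _) hq.le
  · refine tendsto_integral_of_dominated_convergence H (fun R => hcontq.comp_aestronglyMeasurable (h3 (R + 1) (by omega)))
      hHi (fun R => ?_) ?_
    · filter_upwards [hJle] with ω k1
      rw [Real.norm_of_nonneg (Real.rpow_nonneg (norm_nonneg _) _)]
      exact k1 R
    · filter_upwards [hJlim] with ω k1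
      exact (hcontq.tendsto _).comp k1

/-- the limit theorem for linear functionals on the whole line -/
theorem core_lin (D : Dat w m A Cw) {β q : ℝ} (hβ : 0 < β) (hβ4 : β ≤ 4)
    (hq : 0 < q) (hmq : m * q = β) (hA : 1 < A * min 1 q) {δ : ℝ → ℝ} (hδ : Tendsto δ atTop (𝓝 0))
    (hδL : Tendsto (fun T : ℝ => δ T * Real.log T) atTop atTop) :
    (∀ᵐ ω ∂PP, Integrable (gi w m β ω)) ∧ AEStronglyMeasurable (Jf w m β) PP ∧
      Integrable (fun ω => ‖Jf w m β ω‖ ^ q) PP ∧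
      Tendsto (fun R : ℕ => ∫ ω, ‖Jr w m β (R + 1) ω‖ ^ q ∂PP) atTop (𝓝 (∫ ω, ‖Jf w m β ω‖ ^ q ∂PP)) ∧
      Tendsto (fun T : ℝ => (2 * δ T) ^ ((β / 2) ^ 2) / T * ∫ t in Set.Icc 0 T, ‖Xf w m (δ T) t‖ ^ q) atTop
        (𝓝 (aF (β / 2) * ∫ ω, ‖Jf w m β ω‖ ^ q ∂PP)) := by
  have haF : 0 < aF (β / 2) := aF_pos (by positivity)
  obtain ⟨B, hB0, hB⟩ := Hr_mean D hδ hδL hβ hβ4 hq hmq hA
  obtain ⟨η, hη, hdiff⟩ := diff_mean D hδ hδL hβ hβ4 hq hmq hA
  have hL := fun (R : ℕ) (hR : 1 ≤ R) => lim_R D hδ hδL hβ hβ4 hq hmq hR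
  obtain ⟨s1, s2, s3, s4⟩ := limit_side D (b := B / aF (β / 2)) hβ hq (fun R hR => (hL R hR).2.1.1) (fun R hR => by
    have h1 := le_of_tendsto (hL R hR).2.1.2 (hB R)
    rwa [le_div_iff₀ haF, mul_comm]) (fun R hR => (hL R hR).2.2)
  refine ⟨s1, s2, s3, s4, ?_⟩
  have hsm := hδ.eventually (gt_mem_nhds (show (0:ℝ) < 1 / 4 by norm_num))
  have hpos := pos_path hδL
  refine lim_lemma (a := fun (R : ℕ) (T : ℝ) => (2 * δ T) ^ ((β / 2) ^ 2) / T * ∫ t in Set.Icc 0 T, ‖Xr w m (R + 1) (δ T) t‖ ^ q)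
    (d := fun (R : ℕ) (T : ℝ) => (2 * δ T) ^ ((β / 2) ^ 2) / T *
      ∫ t in Set.Icc 0 T, ‖Xf w m (δ T) t - Xr w m (R + 1) (δ T) t‖ ^ q)
    (LR := fun R : ℕ => aF (β / 2) * ∫ ω, ‖Jr w m β (R + 1) ω‖ ^ q ∂PP) (η := fun R => η (R + 1)) hB0
    (fun R => (hL (R + 1) (by omega)).1.2) ?_ (fun R => hdiff (R + 1)) (hη.comp (tendsto_add_atTop_nat 1))
    (s4.const_mul _) ?_
  · intro ε hε
    obtain ⟨C, hC, hC2⟩ := near_pow hq hε
    refine ⟨C, hC, fun R => ?_⟩
    filter_upwards [hpos, hsm, eventually_gt_atTop 0] with T k1 k2 k3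
    have hXc := Xf_cont D k1 k2
    have hRc := Xr_cont D k2 (R + 1)
    have hint : ∀ {f : ℝ → ℂ}, Continuous f → Integrable (fun t => ‖f t‖ ^ q) (volume.restrict (Set.Icc 0 T)) := fun hf =>
      (hf.norm.rpow_const fun _ => Or.inr hq.le).continuousOn.integrableOn_compact isCompact_Icc
    exact near_int hq (by positivity) hC2 (hint hXc) (hint hRc) (hint (hXc.sub hRc))
  · intro R
    filter_upwards [hB (R + 1), hpos, hsm, eventually_gt_atTop 0] with T k0 k1 k2 k3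
    refine le_trans (mul_le_mul_of_nonneg_left ?_ (by positivity)) k0
    have hHc : Continuous fun t => Hr w m (R + 1) (δ T) t := by
      unfold Hr
      exact continuous_parametric_integral_of_continuous (fi_cont D k2).norm isCompact_Icc
    refine integral_mono_of_nonneg (Eventually.of_forall fun t => Real.rpow_nonneg (norm_nonneg _) _)
      ((hHc.rpow_const fun _ => Or.inr hq.le).continuousOn.integrableOn_compact isCompact_Icc)
      (Eventually.of_forall fun t => Real.rpow_le_rpow (norm_nonneg _) (Xr_le _ _ _ _ _) hq.le)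

/-- perturbations -/
theorem perturb {q c0 L : ℝ} (hq : 0 < q) (_hc0 : 0 ≤ c0) {c : ℝ → ℝ} {X Y : ℝ → ℝ → ℂ} (hc : ∀ᶠ T in atTop, 0 ≤ c T)
    (hX : ∀ᶠ T in atTop, Continuous (X T)) (hY : ∀ᶠ T in atTop, IntegrableOn (fun t => ‖Y T t‖ ^ q) (Set.Icc 0 T))
    (hXY : ∀ᶠ T in atTop, IntegrableOn (fun t => ‖Y T t - X T t‖ ^ q) (Set.Icc 0 T))
    (h1 : Tendsto (fun T : ℝ => c T * ∫ t in Set.Icc 0 T, ‖X T t‖ ^ q) atTop (𝓝 L))
    (h2 : Tendsto (fun T : ℝ => c T * ∫ t in Set.Icc 0 T, ‖Y T t - X T t‖ ^ q) atTop (𝓝 0)) :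
    Tendsto (fun T : ℝ => c T * ∫ t in Set.Icc 0 T, ‖Y T t‖ ^ q) atTop (𝓝 L) := by
  refine lim_lemma (a := fun (_ : ℕ) (T : ℝ) => c T * ∫ t in Set.Icc 0 T, ‖X T t‖ ^ q)
    (d := fun (_ : ℕ) (T : ℝ) => c T * ∫ t in Set.Icc 0 T, ‖Y T t - X T t‖ ^ q) (LR := fun _ => L)
    (η := fun R : ℕ => 1 / ((R:ℝ) + 1)) (B := |L| + 1) (by positivity) (fun _ => h1) ?_ (fun R => ?_)
    tendsto_one_div_add_atTop_nhds_zero_nat tendsto_const_nhds (fun _ => ?_)
  · intro ε hε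
    obtain ⟨C, hC, hC2⟩ := near_pow hq hε
    refine ⟨C, hC, fun _ => ?_⟩
    filter_upwards [hc, hX, hY, hXY] with T k1 k2 k3 k4
    exact near_int hq k1 hC2 k3 ((k2.norm.rpow_const fun _ => Or.inr hq.le).continuousOn.integrableOn_compact isCompact_Icc) k4
  · exact (h2.eventually (gt_mem_nhds (show (0:ℝ) < 1 / ((R:ℝ) + 1) by positivity))).mono fun T hT => hT.le
  · exact (h1.eventually (gt_mem_nhds (show L < |L| + 1 by linarith [le_abs_self L]))).mono fun T hT => hT.le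

end Pool.Agent.H43.RM
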