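import Pool.Agent.H43.RM.Near
import Pool.Agent.H43.RM.Const

set_option autoImplicit false

/-! The moments of the Riesz means. -/

namespace Pool.Agent.H43.RM

open Filter Topology MeasureTheory
open Pool.Agent.V11128.CXL
open Pool.Agent.H306R2 (aF aF_pos)

/-- the moments of the Riesz means, all real orders up to 4 -/
theorem riesz_moment {m : ℕ} (hm : 1 ≤ m) {ν : ℝ} (hν : (m : ℝ) ≤ ν) {β q : ℝ} (hβ : 0 < β) (hβ4 : β ≤ 4)
    (hmq : m * q = β) (hmν : m < β * (ν + 1)) {x : ℝ → ℝ} (hx : Tendsto x atTop atTop)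
    (hxT : Tendsto (fun T => Real.log (x T) / Real.log T) atTop (𝓝 0)) :
    (∀ᵐ ω ∂PP, Integrable (gi (wr ν) m β ω)) ∧ Integrable (fun ω => ‖Jf (wr ν) m β ω‖ ^ q) PP ∧
      0 < ∫ ω, ‖Jf (wr ν) m β ω‖ ^ q ∂PP ∧
      Tendsto (fun T : ℝ => (Real.log (x T)) ^ (-((β / 2) ^ 2)) / T * ∫ t in Set.Icc 0 T, ‖rz m ν (x T) t‖ ^ q) atTop
        (𝓝 (aF (β / 2) / 2 ^ ((β / 2) ^ 2) * ∫ ω, ‖Jf (wr ν) m β ω‖ ^ q ∂PP)) := by
  have hm' : (1:ℝ) ≤ m := by exact_mod_cast hm
  have hm0 : (0:ℝ) < m := by linarith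
  have hν0 : 0 < ν := by linarith
  have hq : 0 < q := by
    by_contra h
    rw [not_lt] at h
    nlinarith
  have D := dat_r hm hν
  have hA : 1 < (ν + 1) * min 1 q := by
    rw [mul_min_of_nonneg _ _ (by linarith : (0:ℝ) ≤ ν + 1), lt_min_iff]
    refine ⟨by linarith, ?_⟩
    rw [← hmq] at hmν
    have : (m:ℝ) * 1 < m * ((ν + 1) * q) := by linarith
    exact lt_of_mul_lt_mul_left this hm0.le
  have hlog : Tendsto (fun T => Real.log (x T)) atTop atTop := Real.tendsto_log_atTop.comp hx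
  have hδ : Tendsto (fun T => 1 / Real.log (x T)) atTop (𝓝 0) := by
    simp_rw [one_div]
    exact tendsto_inv_atTop_zero.comp hlog
  have hδL : Tendsto (fun T : ℝ => 1 / Real.log (x T) * Real.log T) atTop atTop := by
    have h1 : Tendsto (fun T => Real.log (x T) / Real.log T) atTop (𝓝[>] 0) := by
      rw [tendsto_nhdsWithin_iff]
      refine ⟨hxT, ?_⟩
      filter_upwards [hlog.eventually_gt_atTop 0, Real.tendsto_log_atTop.eventually_gt_atTop 0] with T k1 k2
      exact div_pos k1 k2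
    have h2 := tendsto_inv_nhdsGT_zero.comp h1
    refine h2.congr fun T => ?_
    simp only [Function.comp]
    rw [inv_div]
    ring
  obtain ⟨s1, s2, s3, s4, s5⟩ := core_lin D hβ hβ4 hq hmq hA hδ hδL
  have s6 := riesz_mean hm hν (q := q) (b := (β / 2) ^ 2) hq (by positivity) hx hxT
  have hsm := hδ.eventually (gt_mem_nhds (show (0:ℝ) < 1 / 4 by norm_num))
  have hXc : ∀ᶠ T in atTop, Continuous fun t => Xf (wr ν) m (1 / Real.log (x T)) t := by
    filter_upwards [hsm, hlog.eventually_gt_atTop 0] with T k1 k2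
    exact Xf_cont D (by positivity) k1
  have s7 := perturb (c := fun T => (2 * (1 / Real.log (x T))) ^ ((β / 2) ^ 2) / T)
    (X := fun T t => Xf (wr ν) m (1 / Real.log (x T)) t) (Y := fun T t => rz m ν (x T) t) hq (c0 := 0) le_rfl
    (by
      filter_upwards [hlog.eventually_gt_atTop 0, eventually_gt_atTop 0] with T k1 k2
      positivity) hXc
    (Eventually.of_forall fun T => ((rz_cont m ν (x T)).norm.rpow_const fun _ => Or.inr hq.le).continuousOn.integrableOn_compact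
      isCompact_Icc)
    (by
      filter_upwards [hXc] with T k1
      exact (((rz_cont m ν (x T)).sub k1).norm.rpow_const fun _ => Or.inr hq.le).continuousOn.integrableOn_compact
        isCompact_Icc) s5 s6
  have hpos : 0 < ∫ ω, ‖Jf (wr ν) m β ω‖ ^ q ∂PP := by
    refine lt_of_lt_of_le (Real.rpow_pos_of_pos (cz_ne hm hν hβ) q) ?_
    exact lower D hβ hq (fun R hR => (lim_R D hδ hδL hβ hβ4 hq hmq hR).1.1) s4
  refine ⟨s1, s3, hpos, ?_⟩
  have s8 := s7.const_mul ((2 ^ ((β / 2) ^ 2))⁻¹ : ℝ)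
  have e : (2 ^ ((β / 2) ^ 2))⁻¹ * (aF (β / 2) * ∫ ω, ‖Jf (wr ν) m β ω‖ ^ q ∂PP) =
      aF (β / 2) / 2 ^ ((β / 2) ^ 2) * ∫ ω, ‖Jf (wr ν) m β ω‖ ^ q ∂PP := by ring
  rw [e] at s8
  refine s8.congr' ?_
  filter_upwards [hlog.eventually_gt_atTop 0] with T k1
  rw [Real.mul_rpow (by norm_num) (by positivity), one_div, Real.inv_rpow k1.le, Real.rpow_neg k1.le]
  have : (0:ℝ) < 2 ^ ((β / 2) ^ 2) := by positivity
  field_simp

end Pool.Agent.H43.RM
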