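import Mathlib
import Pool.Graph.R_seed8.H402R2.T4bA

set_option autoImplicit false

/-! The kernel of the Riesz means. -/

namespace Pool.Agent.H43.RM

open Filter Topology MeasureTheory
open scoped FourierTransform

/-- the vertical line through `c` -/
noncomputable def li (c y : ℝ) : ℂ := c + (y : ℂ) * Complex.I

lemma li_re (c y : ℝ) : (li c y).re = c := by simp [li]

lemma li_im (c y : ℝ) : (li c y).im = y := by simp [li]

lemma li_ne {c : ℝ} (hc : 0 < c) (y : ℝ) : li c y ≠ 0 := by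
  intro h
  have := congrArg Complex.re h
  rw [li_re] at this
  simp at this
  exact hc.ne' this

lemma li_cont (c : ℝ) : Continuous (li c) := by
  unfold li
  fun_prop

lemma li_slit {c : ℝ} (hc : 0 < c) (y : ℝ) : li c y ∈ Complex.slitPlane := by
  rw [Complex.mem_slitPlane_iff]
  left
  rw [li_re]
  exact hc

lemma li_norm_ge {c : ℝ} (hc : 0 < c) (y : ℝ) : (c + |y|) / 2 ≤ ‖li c y‖ := by
  have h1 := Complex.abs_re_le_norm (li c y)
  have h2 := Complex.abs_im_le_norm (li c y)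
  rw [li_re, abs_of_pos hc] at h1
  rw [li_im] at h2
  linarith

lemma cpow_norm' (ν : ℝ) (z : ℂ) : ‖z ^ ((ν : ℂ) + 1)‖ = ‖z‖ ^ (ν + 1) := by
  have e : ((ν : ℂ) + 1) = ((ν + 1 : ℝ) : ℂ) := by push_cast; ring
  rw [e, Complex.norm_cpow_real]

/-- the kernel in the half plane -/
noncomputable def kz (ν : ℝ) (z : ℂ) : ℂ := (Real.Gamma (ν + 1) : ℂ) / (2 * Real.pi * z ^ ((ν : ℂ) + 1))

lemma kz_norm_le {ν : ℝ} (hν : 0 < ν) {z : ℂ} {r : ℝ} (hr : 0 < r) (h : r ≤ ‖z‖) :
    ‖kz ν z‖ ≤ Real.Gamma (ν + 1) * r ^ (-(ν + 1)) := by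
  unfold kz
  rw [norm_div, norm_mul, cpow_norm']
  have h1 : ‖((Real.Gamma (ν + 1) : ℝ) : ℂ)‖ = Real.Gamma (ν + 1) := by
    rw [Complex.norm_real, Real.norm_of_nonneg (Real.Gamma_pos_of_pos (by linarith)).le]
  have h2 : ‖(2 * (Real.pi : ℂ))‖ = 2 * Real.pi := by
    rw [norm_mul, Complex.norm_real, Real.norm_of_nonneg Real.pi_pos.le]
    norm_num
  rw [h1, h2]
  have hG := Real.Gamma_pos_of_pos (show 0 < ν + 1 by linarith)
  have h3 : r ^ (ν + 1) ≤ ‖z‖ ^ (ν + 1) := Real.rpow_le_rpow hr.le h (by linarith)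
  have h4 : 0 < r ^ (ν + 1) := by positivity
  have h5 : r ^ (ν + 1) ≤ 2 * Real.pi * ‖z‖ ^ (ν + 1) := by
    have := Real.pi_gt_three
    nlinarith
  calc Real.Gamma (ν + 1) / (2 * Real.pi * ‖z‖ ^ (ν + 1)) ≤ Real.Gamma (ν + 1) / r ^ (ν + 1) :=
        div_le_div_of_nonneg_left hG.le h4 h5
    _ = _ := by rw [Real.rpow_neg hr.le, div_eq_mul_inv]

/-- the kernel on the line -/
noncomputable def ker0 (ν c y : ℝ) : ℂ := kz ν (li c y)

lemma ker0_cont (ν : ℝ) {c : ℝ} (hc : 0 < c) : Continuous (ker0 ν c) := by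
  unfold ker0 kz
  refine continuous_const.div (continuous_const.mul ?_) fun y => ?_
  · exact (li_cont c).cpow continuous_const fun y => li_slit hc y
  · refine mul_ne_zero (by simp [Real.pi_ne_zero]) ?_
    rw [Complex.cpow_ne_zero_iff]
    left
    exact li_ne hc y

lemma ker0_norm_le {ν : ℝ} (hν : 0 < ν) {c : ℝ} (hc : 1 ≤ c) (y : ℝ) :
    ‖ker0 ν c y‖ ≤ (Real.Gamma (ν + 1) * 2 ^ (ν + 1)) * (1 + |y|) ^ (-(ν + 1)) := by
  have h := li_norm_ge (show 0 < c by linarith) y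
  have h1 := kz_norm_le hν (r := (1 + |y|) / 2) (by positivity) (le_trans (by linarith) h)
  refine h1.trans (le_of_eq ?_)
  rw [Real.div_rpow (by positivity) (by norm_num), Real.rpow_neg (by norm_num : (0:ℝ) ≤ 2)]
  field_simp

lemma ker0_int {ν : ℝ} (hν : 0 < ν) {c : ℝ} (hc : 1 ≤ c) : Integrable (ker0 ν c) := by
  have h1 : Integrable fun u : ℝ => (1 + |u|) ^ (-(ν + 1)) := by
    have := integrable_one_add_norm (E := ℝ) (μ := volume) (r := ν + 1) (by simpa using hν)
    simpa [Real.norm_eq_abs] using this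
  exact (h1.const_mul _).mono' (ker0_cont ν (by linarith)).aestronglyMeasurable
    (Eventually.of_forall fun y => ker0_norm_le hν hc y)

/-- the truncated power -/
noncomputable def gf (ν c y : ℝ) : ℂ := (((max y 0) ^ ν * Real.exp (-(c * y)) : ℝ) : ℂ)

lemma gf_cont {ν : ℝ} (hν : 0 < ν) (c : ℝ) : Continuous (gf ν c) := by
  unfold gf
  refine Complex.continuous_ofReal.comp (Continuous.mul ?_ (by fun_prop))
  exact (continuous_id.max continuous_const).rpow_const fun _ => Or.inr hν.le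

lemma gf_neg {ν c y : ℝ} (hν : 0 < ν) (hy : y ≤ 0) : gf ν c y = 0 := by
  unfold gf
  rw [max_eq_right hy, Real.zero_rpow hν.ne', zero_mul, Complex.ofReal_zero]

lemma gf_int {ν : ℝ} (hν : 0 < ν) {c : ℝ} (hc : 0 < c) : Integrable (gf ν c) := by
  have h1 : IntegrableOn (gf ν c) (Set.Ioi 0) := by
    have h2 := (Pool.Agent.H402R2.T4b.int_rpow_exp (s := ν) (b := c) (by linarith) hc).ofReal (𝕜 := ℂ)
    refine IntegrableOn.congr_fun h2 (fun x hx => ?_) measurableSet_Ioi
    have hx0 : (0:ℝ) < x := hx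
    unfold gf
    rw [max_eq_left hx0.le]
    rfl
  have h3 : IntegrableOn (gf ν c) (Set.Iic 0) := by
    refine IntegrableOn.congr_fun integrableOn_zero (fun x hx => ?_) measurableSet_Iic
    exact (gf_neg hν hx).symm
  rw [← integrableOn_univ, ← Set.Iic_union_Ioi (a := (0:ℝ))]
  exact h3.union h1

lemma gf_split {ν : ℝ} (hν : 0 < ν) (c : ℝ) (f : ℝ → ℂ) : ∫ y, f y * gf ν c y = ∫ y in Set.Ioi 0, f y * gf ν c y := by
  symm
  refine setIntegral_eq_integral_of_forall_compl_eq_zero fun y hy => ?_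
  rw [Set.mem_Ioi, not_lt] at hy
  rw [gf_neg hν hy, mul_zero]

lemma gf_fourier {ν : ℝ} (hν : 0 < ν) {c : ℝ} (hc : 0 < c) (ξ : ℝ) :
    𝓕 (gf ν c) ξ = (Real.Gamma (ν + 1) : ℂ) / (li c (2 * Real.pi * ξ)) ^ ((ν : ℂ) + 1) := by
  rw [Real.fourier_real_eq_integral_exp_smul]
  simp only [smul_eq_mul]
  rw [gf_split hν]
  have ha : 0 < ((ν : ℂ) + 1).re := by simp; linarith
  have hr : 0 < (li c (2 * Real.pi * ξ)).re := by rw [li_re]; exact hc
  have h := Pool.Agent.H402R2.T4b.rot_formula ha hr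
  have e : ∫ y in Set.Ioi (0:ℝ), Complex.exp (((-2 * Real.pi * y * ξ : ℝ) : ℂ) * Complex.I) * gf ν c y =
      ∫ t : ℝ in Set.Ioi 0, (t : ℂ) ^ ((ν : ℂ) + 1 - 1) * Complex.exp (-(li c (2 * Real.pi * ξ) * t)) := by
    refine setIntegral_congr_fun measurableSet_Ioi fun y hy => ?_
    have hy0 : (0:ℝ) < y := hy
    unfold gf
    rw [max_eq_left hy0.le, add_sub_cancel_right, Complex.ofReal_mul (y ^ ν), Complex.ofReal_cpow hy0.le, Complex.ofReal_exp]
    rw [mul_comm, mul_assoc, ← Complex.exp_add]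
    congr 2
    unfold li
    push_cast
    ring
  rw [e, h, one_div, Complex.inv_cpow _ _ (by
    have := Complex.mem_slitPlane_iff_arg.1 (li_slit hc (2 * Real.pi * ξ))
    exact this.1), ← Complex.Gamma_ofReal]
  push_cast
  rw [mul_comm, div_eq_mul_inv]

/-- the integral of the kernel -/
theorem ker_int {ν : ℝ} (hν : 0 < ν) {c : ℝ} (hc : 1 ≤ c) (l : ℝ) :
    ∫ y, Complex.exp (li c y * l) * ker0 ν c y = (((max l 0) ^ ν : ℝ) : ℂ) := by
  have hpi := Real.pi_pos
  have hc0 : 0 < c := by linarith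
  have hFe : 𝓕 (gf ν c) = fun ξ => (2 * Real.pi : ℂ) * ker0 ν c (2 * Real.pi * ξ) := by
    funext ξ
    rw [gf_fourier hν hc0]
    unfold ker0 kz
    have h1 : (li c (2 * Real.pi * ξ)) ^ ((ν : ℂ) + 1) ≠ 0 := by
      rw [Complex.cpow_ne_zero_iff]
      left
      exact li_ne hc0 _
    have h2 : (Real.pi : ℂ) ≠ 0 := by exact_mod_cast hpi.ne'
    field_simp
  have hki := ker0_int hν hc
  have hFi : Integrable (𝓕 (gf ν c)) := by
    rw [hFe]
    exact (hki.comp_mul_left' (by positivity)).const_mul _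
  have h := congrFun ((gf_cont hν c).fourierInv_fourier_eq (gf_int hν hc0) hFi) l
  rw [Real.fourierInv_eq', hFe] at h
  have e1 : ∫ v : ℝ, Complex.exp (((2 * Real.pi * inner ℝ v l : ℝ) : ℂ) * Complex.I) • ((2 * Real.pi : ℂ) * ker0 ν c (2 * Real.pi * v)) =
      ∫ y : ℝ, Complex.exp ((y : ℂ) * l * Complex.I) * ker0 ν c y := by
    have h2 := Measure.integral_comp_mul_left (fun y : ℝ => Complex.exp ((y : ℂ) * l * Complex.I) * ker0 ν c y) (2 * Real.pi)
    have h3 : ∫ v : ℝ, Complex.exp (((2 * Real.pi * inner ℝ v l : ℝ) : ℂ) * Complex.I) • ((2 * Real.pi : ℂ) * ker0 ν c (2 * Real.pi * v)) =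
        (2 * Real.pi : ℂ) * ∫ v : ℝ, Complex.exp (((2 * Real.pi * v : ℝ) : ℂ) * l * Complex.I) * ker0 ν c (2 * Real.pi * v) := by
      rw [← integral_const_mul]
      refine integral_congr_ae (Eventually.of_forall fun v => ?_)
      simp only [smul_eq_mul]
      have e : (((2 * Real.pi * inner ℝ v l : ℝ) : ℂ) * Complex.I) = ((2 * Real.pi * v : ℝ) : ℂ) * l * Complex.I := by
        have : (inner ℝ v l : ℝ) = l * v := by simp [inner]
        rw [this]
        push_cast
        ring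
      rw [e]
      ring
    rw [h3, h2, abs_of_pos (by positivity : (0:ℝ) < (2 * Real.pi)⁻¹), Complex.real_smul]
    generalize (∫ y : ℝ, Complex.exp ((y : ℂ) * l * Complex.I) * ker0 ν c y) = J
    push_cast
    have hpc : (Real.pi : ℂ) ≠ 0 := by exact_mod_cast hpi.ne'
    field_simp
  rw [e1] at h
  have e2 : ∀ y : ℝ, Complex.exp (li c y * l) * ker0 ν c y = Complex.exp (c * l) * (Complex.exp ((y : ℂ) * l * Complex.I) * ker0 ν c y) := by
    intro y
    rw [← mul_assoc, ← Complex.exp_add]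
    congr 2
    unfold li
    ring
  simp_rw [e2]
  rw [integral_const_mul, h]
  unfold gf
  rw [← Complex.ofReal_mul, ← Complex.ofReal_exp, ← Complex.ofReal_mul]
  congr 1
  rw [mul_left_comm, ← Real.exp_add]
  simp

/-- the tails of an integral -/
lemma tail_bound {f : ℝ → ℂ} (hf : Integrable f) {K κ U : ℝ} (hκ : 1 < κ) (hU : 0 < U)
    (hb : ∀ u, U < |u| → ‖f u‖ ≤ K * |u| ^ (-κ)) :
    ‖(∫ u, f u) - ∫ u in (-U)..U, f u‖ ≤ 2 * (K * (U ^ (1 - κ) / (κ - 1))) := by
  have e1 : (∫ u, f u) - ∫ u in (-U)..U, f u = (∫ u in Set.Ioi U, f (-u)) + ∫ u in Set.Ioi U, f u := by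
    rw [integral_comp_neg_Ioi, intervalIntegral.integral_of_le (by linarith)]
    have h1 := integral_add_compl (measurableSet_Ioc (a := -U) (b := U)) hf
    have h2 : (Set.Ioc (-U) U)ᶜ = Set.Iic (-U) ∪ Set.Ioi U := by
      ext x
      simp only [Set.mem_compl_iff, Set.mem_Ioc, not_and_or, not_lt, not_le, Set.mem_union, Set.mem_Iic, Set.mem_Ioi]
    have hd : Disjoint (Set.Iic (-U)) (Set.Ioi U) := by
      rw [Set.disjoint_left]
      intro x hx hx2
      rw [Set.mem_Iic] at hx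
      rw [Set.mem_Ioi] at hx2
      linarith
    rw [h2, setIntegral_union hd measurableSet_Ioi hf.integrableOn hf.integrableOn] at h1
    rw [← h1]
    ring
  have hI : ∫ u in Set.Ioi U, K * u ^ (-κ) = K * (U ^ (1 - κ) / (κ - 1)) := by
    rw [integral_const_mul, integral_Ioi_rpow_of_lt (by linarith) hU]
    congr 1
    have e : -κ + 1 = -(κ - 1) := by ring
    rw [e, neg_div_neg_eq]
    congr 2
    ring
  have hi : IntegrableOn (fun u : ℝ => K * u ^ (-κ)) (Set.Ioi U) := (integrableOn_Ioi_rpow_of_lt (by linarith) hU).const_mul K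
  have h1 : ‖∫ u in Set.Ioi U, f u‖ ≤ K * (U ^ (1 - κ) / (κ - 1)) := by
    rw [← hI]
    refine norm_integral_le_of_norm_le hi ?_
    filter_upwards [ae_restrict_mem measurableSet_Ioi] with u hu
    have hu' : U < u := hu
    have h2 := hb u (by rw [abs_of_pos (hU.trans hu')]; exact hu')
    rwa [abs_of_pos (hU.trans hu')] at h2
  have h2 : ‖∫ u in Set.Ioi U, f (-u)‖ ≤ K * (U ^ (1 - κ) / (κ - 1)) := by
    rw [← hI]
    refine norm_integral_le_of_norm_le hi ?_
    filter_upwards [ae_restrict_mem measurableSet_Ioi] with u hu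
    have hu' : U < u := hu
    have h2 := hb (-u) (by rw [abs_neg, abs_of_pos (hU.trans hu')]; exact hu')
    rwa [abs_neg, abs_of_pos (hU.trans hu')] at h2
  rw [e1]
  refine (norm_add_le _ _).trans ?_
  linarith

end Pool.Agent.H43.RM
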