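import Pool.Agent.H43.RM.Strip
import Pool.Agent.H43.RM.Const

set_option autoImplicit false

/-! The Gaussian kernel. -/

namespace Pool.Agent.H43.RM

open Filter Topology MeasureTheory
open Pool.Agent.V11128.CXL
open Pool.Agent.Y753.SHR
open Pool.Agent.H306R2 (aF aF_pos)

/-- the Gaussian kernel -/
noncomputable def ga (z : ℂ) : ℂ := Complex.exp (-(z ^ 2 / 2))

lemma ga_ker (A : ℝ) (_hA : 0 < A) : ∃ C : ℝ, 0 < C ∧ Ker ga A C := by
  obtain ⟨n, hn⟩ := exists_nat_ge A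
  have hd : Differentiable ℂ ga := by
    unfold ga
    fun_prop
  refine ⟨n.factorial * Real.exp 2, by positivity, hd.continuous.continuousOn, hd.differentiableOn, fun z hz => ?_⟩
  have hx : 0 < 1 + |z.re| := by positivity
  have hx1 : 1 ≤ 1 + |z.re| := by linarith [abs_nonneg z.re]
  unfold ga
  rw [Complex.norm_exp, Real.rpow_neg hx.le, ← div_eq_mul_inv, le_div_iff₀ (by positivity)]
  have e1 : (-(z ^ 2 / 2)).re = -(z.re ^ 2 / 2) + z.im ^ 2 / 2 := by
    have : (z ^ 2).re = z.re ^ 2 - z.im ^ 2 := by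
      rw [sq, Complex.mul_re]
      ring
    rw [Complex.neg_re, Complex.div_ofNat_re, this]
    ring
  have h1 : (1 + |z.re|) ^ A ≤ (1 + |z.re|) ^ n := by
    rw [← Real.rpow_natCast]
    exact Real.rpow_le_rpow_of_exponent_le hx1 hn
  have h2 := Real.pow_div_factorial_le_exp (1 + |z.re|) hx.le n
  rw [div_le_iff₀ (by positivity)] at h2
  have h3 : Real.exp (-(z ^ 2 / 2)).re * Real.exp (1 + |z.re|) ≤ Real.exp 2 := by
    rw [← Real.exp_add, e1]
    refine Real.exp_le_exp.2 ?_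
    have h4 : z.im ^ 2 ≤ 1 := by nlinarith [hz.1, hz.2]
    have h5 : z.re ^ 2 = |z.re| ^ 2 := (sq_abs _).symm
    nlinarith [sq_nonneg (|z.re| - 1)]
  calc Real.exp (-(z ^ 2 / 2)).re * (1 + |z.re|) ^ A ≤ Real.exp (-(z ^ 2 / 2)).re * (Real.exp (1 + |z.re|) * n.factorial) := by
        gcongr
        exact h1.trans h2
    _ = n.factorial * (Real.exp (-(z ^ 2 / 2)).re * Real.exp (1 + |z.re|)) := by ring
    _ ≤ n.factorial * Real.exp 2 := by gcongr

lemma ga_inner (t : ℝ) : ∫ u : ℝ, Complex.exp (-(Complex.I * u * t / 2)) * wk ga u =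
    ((Real.exp (1 / 2) * (2 * Real.pi) ^ (1 / 2 : ℝ) * Real.exp (-((1 - t / 2) ^ 2 / 2)) : ℝ) : ℂ) := by
  have h := fourierIntegral_gaussian (b := 1 / 2) (by norm_num) ((1 - t / 2 : ℝ) : ℂ)
  have e1 : ∫ u : ℝ, Complex.exp (-(Complex.I * u * t / 2)) * wk ga u = Complex.exp (1 / 2) *
      ∫ x : ℝ, Complex.exp (Complex.I * ((1 - t / 2 : ℝ) : ℂ) * x) * Complex.exp (-(1 / 2) * (x : ℂ) ^ 2) := by
    rw [← integral_const_mul]
    refine integral_congr_ae (Eventually.of_forall fun u => ?_)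
    simp only
    unfold wk ga
    rw [← Complex.exp_add, ← Complex.exp_add, ← Complex.exp_add]
    congr 1
    push_cast
    linear_combination (-(1:ℂ) / 2) * Complex.I_mul_I
  rw [e1, h]
  rw [Complex.ofReal_mul, Complex.ofReal_mul, Complex.ofReal_exp, Complex.ofReal_exp, mul_assoc]
  congr 1
  · push_cast
    rfl
  congr 1
  · rw [Complex.ofReal_cpow (by positivity)]
    congr 1
    · push_cast
      ring
    · push_cast
      rfl
  · congr 1
    push_cast
    ring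

lemma ga_ne {m : ℕ} (hm : 1 ≤ m) {β : ℝ} (hβ : 0 < β) : (∫ u, cz (wk ga) m β u) ≠ 0 := by
  have hm' : (1:ℝ) ≤ m := by exact_mod_cast hm
  obtain ⟨s, hs⟩ : ∃ s : ℝ, s = (m:ℝ) * (β / 2) := ⟨_, rfl⟩
  have hs0 : 0 < s := by rw [hs]; positivity
  obtain ⟨C, hC, hK⟩ := ga_ker (2 + m) (by positivity)
  have D := dat_k hK hm hC (by linarith)
  have h := cz_swap (w_int D) m hs0 hs.symm
  simp_rw [ga_inner, ← Complex.ofReal_mul] at h
  rw [integral_complex_ofReal] at h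
  obtain ⟨g, hg⟩ : ∃ g : ℝ → ℝ, g = fun t => t ^ (s - 1) * Real.exp (-(1 * t)) *
      (Real.exp (1 / 2) * (2 * Real.pi) ^ (1 / 2 : ℝ) * Real.exp (-((1 - t / 2) ^ 2 / 2))) := ⟨_, rfl⟩
  have hgi : IntegrableOn g (Set.Ioi 0) := by
    have h1 := Pool.Agent.H402R2.T4b.int_rpow_exp (s := s - 1) (b := 1) (by linarith) one_pos
    have hc : Continuous fun t : ℝ => Real.exp (1 / 2) * (2 * Real.pi) ^ (1 / 2 : ℝ) * Real.exp (-((1 - t / 2) ^ 2 / 2)) := by
      fun_prop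
    rw [hg]
    refine Integrable.mono' (h1.const_mul (Real.exp (1 / 2) * (2 * Real.pi) ^ (1 / 2 : ℝ)))
      (h1.aestronglyMeasurable.mul hc.aestronglyMeasurable) ?_
    refine (ae_restrict_iff' measurableSet_Ioi).2 (Eventually.of_forall fun t ht => ?_)
    have ht0 : (0:ℝ) < t := ht
    rw [Real.norm_of_nonneg (by positivity), mul_comm]
    refine mul_le_mul_of_nonneg_right ?_ (by positivity)
    refine mul_le_of_le_one_right (by positivity) ?_
    rw [Real.exp_le_one_iff]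
    nlinarith [sq_nonneg (1 - t / 2)]
  have hpos : 0 < ∫ t in Set.Ioi (0:ℝ), g t := by
    have h1 : 0 < ∫ t in Set.Ioo (0:ℝ) 1, g t := by
      rw [← integral_Ioc_eq_integral_Ioo, ← intervalIntegral.integral_of_le (by norm_num)]
      refine intervalIntegral.intervalIntegral_pos_of_pos_on ?_ (fun t ht => ?_) (by norm_num)
      · rw [intervalIntegrable_iff_integrableOn_Ioc_of_le (by norm_num)]
        exact hgi.mono_set Set.Ioc_subset_Ioi_self
      · rw [hg]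
        have ht0 := ht.1
        positivity
    refine h1.trans_le (setIntegral_mono_set hgi ?_ Set.Ioo_subset_Ioi_self.eventuallyLE)
    refine (ae_restrict_iff' measurableSet_Ioi).2 (Eventually.of_forall fun t ht => ?_)
    have ht0 : (0:ℝ) < t := ht
    rw [hg]
    simp only [Pi.zero_apply]
    positivity
  intro h0
  rw [h0, mul_zero] at h
  have h2 : ∫ t in Set.Ioi (0:ℝ), g t = 0 := by
    rw [hg]
    exact_mod_cast h.symm
  linarith

/-- moments of the local averages on the critical line -/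
theorem local_moment {m : ℕ} (hm : 1 ≤ m) {β q : ℝ} (hβ : 0 < β) (hβ4 : β ≤ 4) (hmq : m * q = β) {δ : ℝ → ℝ}
    (hδ : Tendsto δ atTop (𝓝 0)) (hδL : Tendsto (fun T : ℝ => δ T * Real.log T) atTop atTop) {K : ℂ → ℂ} {A C : ℝ}
    (hK : Ker K A C) (hC : 0 < C) (hA : 1 + 5 / 8 * m < A) (hAm : m < β * A) :
    (∀ᶠ T in atTop, ∀ t : ℝ, Integrable (fun u : ℝ => Fz K m (δ T) t u)) ∧
    (∀ᵐ ω ∂PP, Integrable (gi (wk K) m β ω)) ∧ Integrable (fun ω => ‖Jf (wk K) m β ω‖ ^ q) PP ∧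
      ((∫ u, cz (wk K) m β u) ≠ 0 → 0 < ∫ ω, ‖Jf (wk K) m β ω‖ ^ q ∂PP) ∧
      Tendsto (fun T : ℝ => (2 * δ T) ^ ((β / 2) ^ 2) / T * ∫ t in Set.Icc 0 T, ‖∫ u : ℝ, Fz K m (δ T) t u‖ ^ q) atTop
        (𝓝 (aF (β / 2) * ∫ ω, ‖Jf (wk K) m β ω‖ ^ q ∂PP)) := by
  have hm' : (1:ℝ) ≤ m := by exact_mod_cast hm
  have hm0 : (0:ℝ) < m := by linarith
  have hq : 0 < q := by
    by_contra h
    rw [not_lt] at h
    nlinarith
  have D := dat_k hK hm hC hA
  have hA0 : 1 < A := D.A1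
  have hA1 : 1 < A * min 1 q := by
    rw [mul_min_of_nonneg _ _ (by linarith : (0:ℝ) ≤ A), lt_min_iff]
    refine ⟨by linarith, ?_⟩
    rw [← hmq] at hAm
    have : (m:ℝ) * 1 < m * (A * q) := by linarith
    exact lt_of_mul_lt_mul_left this hm0.le
  obtain ⟨s1, s2, s3, s4, s5⟩ := core_lin D hβ hβ4 hq hmq hA1 hδ hδL
  have hsm := hδ.eventually (gt_mem_nhds (show (0:ℝ) < 1 / 4 by norm_num))
  have hpos := pos_path hδL
  refine ⟨?_, s1, s3, fun hne => ?_, ?_⟩
  · filter_upwards [hsm, hpos] with T k1 k2 t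
    exact (strip_shift hK hm hC hA k2 k1 t).1
  · refine lt_of_lt_of_le (Real.rpow_pos_of_pos (norm_pos_iff.2 hne) q) ?_
    exact lower D hβ hq (fun R hR => (lim_R D hδ hδL hβ hβ4 hq hmq hR).1.1) s4
  · refine s5.congr' ?_
    filter_upwards [hsm, hpos] with T k1 k2
    simp_rw [(strip_shift hK hm hC hA k2 k1 _).2]

end Pool.Agent.H43.RM
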