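import Mathlib

set_option autoImplicit false

/-! Elementary inequalities for powers of sums, and a limit lemma. -/

namespace Pool.Agent.H43.RM

open Filter Topology MeasureTheory

/-- subadditivity of small powers -/
lemma add_rpow_le {a b q : ℝ} (ha : 0 ≤ a) (hb : 0 ≤ b) (hq : 0 < q) (hq1 : q ≤ 1) :
    (a + b) ^ q ≤ a ^ q + b ^ q :=
  Real.rpow_add_le_add_rpow ha hb hq.le hq1

/-- sums: small powers -/
lemma sum_rpow_le {ι : Type*} (s : Finset ι) {f : ι → ℝ} (hf : ∀ i, 0 ≤ f i) {q : ℝ} (hq : 0 < q) (hq1 : q ≤ 1) :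
    (∑ i ∈ s, f i) ^ q ≤ ∑ i ∈ s, f i ^ q := by
  classical
  induction s using Finset.induction_on with
  | empty => simp [Real.zero_rpow hq.ne']
  | insert i s hi ih =>
    rw [Finset.sum_insert hi, Finset.sum_insert hi]
    exact (add_rpow_le (hf i) (Finset.sum_nonneg fun j _ => hf j) hq hq1).trans (by linarith)

/-- sums: large powers -/
lemma sum_mul_rpow_le {ι : Type*} (s : Finset ι) {b x : ι → ℝ} (hb : ∀ i, 0 ≤ b i) (hx : ∀ i, 0 ≤ x i) {q B : ℝ}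
    (hq1 : 1 ≤ q) (hB : ∑ i ∈ s, b i ≤ B) :
    (∑ i ∈ s, b i * x i) ^ q ≤ B ^ (q - 1) * ∑ i ∈ s, b i * x i ^ q := by
  obtain ⟨S, hS⟩ : ∃ S : ℝ, S = ∑ i ∈ s, b i := ⟨_, rfl⟩
  have hS0 : 0 ≤ S := by rw [hS]; exact Finset.sum_nonneg fun i _ => hb i
  rcases hS0.eq_or_lt with h | h
  · have hz : ∀ i ∈ s, b i = 0 := by
      intro i hi
      have h1 := (Finset.sum_eq_zero_iff_of_nonneg fun i _ => hb i).1 (by rw [← hS]; exact h.symm)
      exact h1 i hi
    have e1 : ∑ i ∈ s, b i * x i = 0 := Finset.sum_eq_zero fun i hi => by rw [hz i hi, zero_mul]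
    have e2 : ∑ i ∈ s, b i * x i ^ q = 0 := Finset.sum_eq_zero fun i hi => by rw [hz i hi, zero_mul]
    rw [e1, e2, Real.zero_rpow (by linarith), mul_zero]
  · have h1 := Real.rpow_arith_mean_le_arith_mean_rpow s (fun i => b i / S) x (fun i _ => div_nonneg (hb i) hS0)
      (by rw [← Finset.sum_div, ← hS, div_self h.ne']) (fun i _ => hx i) hq1
    have e1 : ∑ i ∈ s, b i / S * x i = (∑ i ∈ s, b i * x i) / S := by
      rw [Finset.sum_div]
      exact Finset.sum_congr rfl fun i _ => by ring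
    have e2 : ∑ i ∈ s, b i / S * x i ^ q = (∑ i ∈ s, b i * x i ^ q) / S := by
      rw [Finset.sum_div]
      exact Finset.sum_congr rfl fun i _ => by ring
    have hn : 0 ≤ ∑ i ∈ s, b i * x i := Finset.sum_nonneg fun i _ => mul_nonneg (hb i) (hx i)
    have hn2 : 0 ≤ ∑ i ∈ s, b i * x i ^ q := Finset.sum_nonneg fun i _ => mul_nonneg (hb i) (Real.rpow_nonneg (hx i) _)
    rw [e1, e2, Real.div_rpow hn hS0, div_le_iff₀ (Real.rpow_pos_of_pos h _)] at h1
    have e3 : (∑ i ∈ s, b i * x i ^ q) / S * S ^ q = S ^ (q - 1) * ∑ i ∈ s, b i * x i ^ q := by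
      rw [Real.rpow_sub_one h.ne']
      ring
    rw [e3] at h1
    refine h1.trans (mul_le_mul_of_nonneg_right ?_ hn2)
    exact Real.rpow_le_rpow hS0 (by rw [hS]; exact hB) (by linarith)

/-- the weights -/
noncomputable def vq (q b : ℝ) : ℝ := b ^ (min 1 q)

/-- sums: all powers -/
lemma sum_all {ι : Type*} {q : ℝ} (hq : 0 < q) (B : ℝ) : ∃ K : ℝ, 0 < K ∧ ∀ (s : Finset ι) (b x : ι → ℝ),
    (∀ i, 0 ≤ b i) → (∀ i, 0 ≤ x i) → ∑ i ∈ s, b i ≤ B →
    (∑ i ∈ s, b i * x i) ^ q ≤ K * ∑ i ∈ s, vq q (b i) * x i ^ q := by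
  rcases le_total q 1 with h | h
  · refine ⟨1, one_pos, fun s b x hb hx _ => ?_⟩
    refine (sum_rpow_le s (fun i => mul_nonneg (hb i) (hx i)) hq h).trans (le_of_eq ?_)
    rw [one_mul]
    refine Finset.sum_congr rfl fun i _ => ?_
    unfold vq
    rw [min_eq_right h, Real.mul_rpow (hb i) (hx i)]
  · refine ⟨(max B 1) ^ (q - 1), Real.rpow_pos_of_pos (lt_of_lt_of_le one_pos (le_max_right _ _)) _,
      fun s b x hb hx hB => ?_⟩
    refine (sum_mul_rpow_le s hb hx h (hB.trans (le_max_left B 1))).trans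
      (le_of_eq ?_)
    congr 1
    refine Finset.sum_congr rfl fun i _ => ?_
    unfold vq
    rw [min_eq_left h, Real.rpow_one]

/-- comparison of powers -/
lemma near_pow {q : ℝ} (hq : 0 < q) {ε : ℝ} (hε : 0 < ε) : ∃ C : ℝ, 0 < C ∧ ∀ x y : ℂ,
    |‖x‖ ^ q - ‖y‖ ^ q| ≤ ε * ‖y‖ ^ q + C * ‖x - y‖ ^ q := by
  rcases le_total q 1 with h | h
  · refine ⟨1, one_pos, fun x y => ?_⟩
    have h0 : 0 ≤ ε * ‖y‖ ^ q := by positivity
    have h1 : ‖x‖ ^ q ≤ ‖y‖ ^ q + ‖x - y‖ ^ q :=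
      (Real.rpow_le_rpow (norm_nonneg _) (norm_le_norm_add_norm_sub' x y) hq.le).trans
        (add_rpow_le (norm_nonneg _) (norm_nonneg _) hq h)
    have h2 : ‖y‖ ^ q ≤ ‖x‖ ^ q + ‖x - y‖ ^ q := by
      have h3 : ‖y‖ ≤ ‖x‖ + ‖x - y‖ := by
        have := norm_le_norm_add_norm_sub' y x
        rwa [norm_sub_rev] at this
      exact (Real.rpow_le_rpow (norm_nonneg _) h3 hq.le).trans
        (add_rpow_le (norm_nonneg _) (norm_nonneg _) hq h)
    rw [abs_le]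
    constructor <;> linarith
  · -- choose the weight
    have hlim : Tendsto (fun l : ℝ => (1 - l) ^ (1 - q)) (𝓝[>] 0) (𝓝 1) := by
      have h1 : ContinuousAt (fun l : ℝ => (1 - l) ^ (1 - q)) 0 := by
        refine ContinuousAt.rpow_const (by fun_prop) (Or.inl (by norm_num))
      have h2 := h1.tendsto
      rw [sub_zero, Real.one_rpow] at h2
      exact h2.mono_left nhdsWithin_le_nhds
    obtain ⟨η, hη⟩ : ∃ η : ℝ, η = min (1 / 2) (ε / 4) := ⟨_, rfl⟩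
    have hη0 : 0 < η := by rw [hη]; positivity
    have hη1 : η ≤ 1 / 2 := by rw [hη]; exact min_le_left _ _
    have hη2 : η ≤ ε / 4 := by rw [hη]; exact min_le_right _ _
    have h1 := (hlim.eventually (gt_mem_nhds (show (1:ℝ) < 1 + η by linarith))).and
      (Ioo_mem_nhdsGT (show (0:ℝ) < 1 by norm_num))
    obtain ⟨l, hl1, hl2⟩ := h1.exists
    obtain ⟨D, hD⟩ : ∃ D : ℝ, D = l ^ (1 - q) := ⟨_, rfl⟩
    have hD0 : 0 < D := by rw [hD]; exact Real.rpow_pos_of_pos hl2.1 _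
    have key : ∀ a b : ℝ, 0 ≤ a → 0 ≤ b → (a + b) ^ q ≤ (1 + η) * a ^ q + D * b ^ q := by
      intro a b ha hb
      have hl0 := hl2.1
      have hl3 : 0 < 1 - l := by linarith [hl2.2]
      have k1 := (convexOn_rpow h).2 (show a / (1 - l) ∈ Set.Ici (0:ℝ) from div_nonneg ha hl3.le)
        (show b / l ∈ Set.Ici (0:ℝ) from div_nonneg hb hl0.le) hl3.le hl0.le (by ring)
      simp only [smul_eq_mul] at k1
      rw [mul_div_cancel₀ _ hl3.ne', mul_div_cancel₀ _ hl0.ne', Real.div_rpow ha hl3.le, Real.div_rpow hb hl0.le] at k1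
      have e1 : (1 - l) * (a ^ q / (1 - l) ^ q) = (1 - l) ^ (1 - q) * a ^ q := by
        rw [Real.rpow_sub hl3, Real.rpow_one]
        ring
      have e2 : l * (b ^ q / l ^ q) = l ^ (1 - q) * b ^ q := by
        rw [Real.rpow_sub hl0, Real.rpow_one]
        ring
      rw [e1, e2, ← hD] at k1
      refine k1.trans ?_
      have := mul_le_mul_of_nonneg_right hl1.le (Real.rpow_nonneg ha q)
      linarith
    refine ⟨2 * D, by positivity, fun x y => ?_⟩
    obtain ⟨X, hX⟩ : ∃ X : ℝ, X = ‖x‖ ^ q := ⟨_, rfl⟩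
    obtain ⟨Y, hY⟩ : ∃ Y : ℝ, Y = ‖y‖ ^ q := ⟨_, rfl⟩
    obtain ⟨W, hW⟩ : ∃ W : ℝ, W = ‖x - y‖ ^ q := ⟨_, rfl⟩
    have hX0 : 0 ≤ X := by rw [hX]; positivity
    have hY0 : 0 ≤ Y := by rw [hY]; positivity
    have hW0 : 0 ≤ W := by rw [hW]; positivity
    have h1 : X ≤ (1 + η) * Y + D * W := by
      rw [hX, hY, hW]
      exact (Real.rpow_le_rpow (norm_nonneg _) (norm_le_norm_add_norm_sub' x y) hq.le).trans
        (key _ _ (norm_nonneg _) (norm_nonneg _))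
    have h2 : Y ≤ (1 + η) * X + D * W := by
      rw [hX, hY, hW]
      have h3 : ‖y‖ ≤ ‖x‖ + ‖x - y‖ := by
        have := norm_le_norm_add_norm_sub' y x
        rwa [norm_sub_rev] at this
      exact (Real.rpow_le_rpow (norm_nonneg _) h3 hq.le).trans (key _ _ (norm_nonneg _) (norm_nonneg _))
    rw [← hX, ← hY, ← hW]
    have hDW : 0 ≤ D * W := by positivity
    rw [abs_le]
    constructor
    · -- Y - X ≤ ε Y + 2 D W
      have h3 : η * X ≤ η * ((1 + η) * Y + D * W) := mul_le_mul_of_nonneg_left h1 hη0.le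
      have h4 : η * (1 + η) ≤ ε := by nlinarith
      have h5 := mul_le_mul_of_nonneg_right h4 hY0
      have h6 : η * (D * W) ≤ 1 / 2 * (D * W) := mul_le_mul_of_nonneg_right hη1 hDW
      nlinarith
    · have h4 : η ≤ ε := by linarith
      have h5 := mul_le_mul_of_nonneg_right h4 hY0
      nlinarith

/-- an integral form -/
lemma near_int {α : Type*} [MeasurableSpace α] {μ : Measure α} {q : ℝ} (_hq : 0 < q) {ε C c : ℝ} (hc : 0 ≤ c)
    (hC : ∀ x y : ℂ, |‖x‖ ^ q - ‖y‖ ^ q| ≤ ε * ‖y‖ ^ q + C * ‖x - y‖ ^ q)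
    {X Y : α → ℂ} (hX : Integrable (fun t => ‖X t‖ ^ q) μ) (hY : Integrable (fun t => ‖Y t‖ ^ q) μ)
    (hXY : Integrable (fun t => ‖X t - Y t‖ ^ q) μ) :
    |c * (∫ t, ‖X t‖ ^ q ∂μ) - c * ∫ t, ‖Y t‖ ^ q ∂μ| ≤
      ε * (c * ∫ t, ‖Y t‖ ^ q ∂μ) + C * (c * ∫ t, ‖X t - Y t‖ ^ q ∂μ) := by
  rw [← mul_sub, ← integral_sub hX hY, abs_mul, abs_of_nonneg hc]
  have h1 : |∫ t, (‖X t‖ ^ q - ‖Y t‖ ^ q) ∂μ| ≤ ∫ t, (ε * ‖Y t‖ ^ q + C * ‖X t - Y t‖ ^ q) ∂μ := by
    rw [← Real.norm_eq_abs]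
    exact norm_integral_le_of_norm_le ((hY.const_mul ε).add (hXY.const_mul C)) (Eventually.of_forall fun t => hC _ _)
  rw [integral_add (hY.const_mul ε) (hXY.const_mul C), integral_const_mul, integral_const_mul] at h1
  have h2 := mul_le_mul_of_nonneg_left h1 hc
  refine h2.trans (le_of_eq (by ring))

/-- the limit lemma -/
lemma lim_lemma {x : ℝ → ℝ} {a d : ℕ → ℝ → ℝ} {L : ℝ} {LR η : ℕ → ℝ} {B : ℝ} (hB : 0 ≤ B)
    (h1 : ∀ R, Tendsto (a R) atTop (𝓝 (LR R)))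
    (h2 : ∀ ε : ℝ, 0 < ε → ∃ C : ℝ, 0 < C ∧ ∀ R, ∀ᶠ T in atTop, |x T - a R T| ≤ ε * a R T + C * d R T)
    (h3 : ∀ R, ∀ᶠ T in atTop, d R T ≤ η R) (hη : Tendsto η atTop (𝓝 0))
    (h4 : Tendsto LR atTop (𝓝 L)) (h5 : ∀ R, ∀ᶠ T in atTop, a R T ≤ B) : Tendsto x atTop (𝓝 L) := by
  rw [Metric.tendsto_nhds]
  intro e he
  obtain ⟨C, hC, hC2⟩ := h2 (e / (4 * (B + 1))) (by positivity)
  have hη2 := hη.eventually (gt_mem_nhds (show 0 < e / (4 * C) by positivity))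
  have h42 := Metric.tendsto_nhds.1 h4 (e / 4) (by positivity)
  obtain ⟨R, hR1, hR2⟩ := (hη2.and h42).exists
  filter_upwards [hC2 R, h3 R, h5 R, Metric.tendsto_nhds.1 (h1 R) (e / 4) (by positivity)] with T k1 k2 k3 k4
  have k5 : |x T - a R T| < e / 2 := by
    refine k1.trans_lt ?_
    have m1 : e / (4 * (B + 1)) * a R T ≤ e / (4 * (B + 1)) * B := mul_le_mul_of_nonneg_left k3 (by positivity)
    have m2 : e / (4 * (B + 1)) * B ≤ e / 4 := by
      rw [div_mul_eq_mul_div, div_le_div_iff₀ (by positivity) (by norm_num)]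
      nlinarith
    have m3 : C * d R T < e / 4 := by
      have : C * d R T ≤ C * η R := mul_le_mul_of_nonneg_left k2 hC.le
      refine this.trans_lt ?_
      have h6 : C * η R < C * (e / (4 * C)) := mul_lt_mul_of_pos_left hR1 hC
      have e6 : C * (e / (4 * C)) = e / 4 := by field_simp
      rwa [e6] at h6
    linarith
  have k6 := dist_triangle4 (x T) (a R T) (LR R) L
  have k7 := Real.dist_eq (x T) (a R T)
  linarith

end Pool.Agent.H43.RM
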