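import Pool.Agent.H43.RM.Tail

set_option autoImplicit false

/-! The means of the tails. -/

namespace Pool.Agent.H43.RM

open Filter Topology MeasureTheory
open Pool.Agent.V11128.CXL
open Pool.Agent.Y753.SHR
open Pool.Agent.H306R2 (aF aF_pos)

variable {w : ℝ → ℂ} {m : ℕ} {A Cw : ℝ}

lemma two_pow {a b q : ℝ} (ha : 0 ≤ a) (hb : 0 ≤ b) (hq : 0 < q) : (a + b) ^ q ≤ 2 ^ q * (a ^ q + b ^ q) := by
  have h1 : a + b ≤ 2 * max a b := by
    have := le_max_left a b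
    have := le_max_right a b
    linarith
  have h2 : 0 ≤ max a b := ha.trans (le_max_left _ _)
  have h3 : (max a b) ^ q ≤ a ^ q + b ^ q := by
    have := Real.rpow_nonneg ha q
    have := Real.rpow_nonneg hb q
    rcases max_cases a b with h | h
    · rw [h.1]; linarith
    · rw [h.1]; linarith
  calc (a + b) ^ q ≤ (2 * max a b) ^ q := Real.rpow_le_rpow (by positivity) h1 hq.le
    _ = 2 ^ q * (max a b) ^ q := Real.mul_rpow (by norm_num) h2
    _ ≤ _ := mul_le_mul_of_nonneg_left h3 (by positivity)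

lemma one_nat_summable {κ : ℝ} (hκ : 1 < κ) : Summable fun j : ℕ => (1 + (j:ℝ)) ^ (-κ) := by
  have h1 := (Real.summable_nat_rpow (p := -κ)).2 (by linarith)
  have h2 := (summable_nat_add_iff 1).2 h1
  refine h2.congr fun j => ?_
  push_cast
  rw [add_comm]

lemma bj_summable (D : Dat w m A Cw) : Summable (bj Cw A) := (one_nat_summable D.A1).mul_left Cw

lemma vq_nonneg {q b : ℝ} (hb : 0 ≤ b) : 0 ≤ vq q b := Real.rpow_nonneg hb _

lemma vq_summable (D : Dat w m A Cw) {q : ℝ} (hA : 1 < A * min 1 q) : Summable fun j => vq q (bj Cw A j) := by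
  have h1 := (one_nat_summable hA).mul_left (Cw ^ (min 1 q))
  refine h1.congr fun j => ?_
  unfold vq bj
  rw [Real.mul_rpow D.Cpos.le (by positivity), ← Real.rpow_mul (by positivity), neg_mul]

lemma Sxm_cont {δ : ℝ} (h1 : δ < 1 / 4) (m : ℕ) (y : ℝ) : Continuous fun t => Sx δ (t + y) ^ m :=
  ((Sx_cont h1).comp (continuous_id.add continuous_const)).pow m

lemma xj_cont {δ : ℝ} (h1 : δ < 1 / 4) (m j : ℕ) : Continuous fun t => xj m δ t j := by
  unfold xj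
  exact (Sxm_cont h1 m _).add (Sxm_cont h1 m _)

lemma Pt_cont {δ : ℝ} (h1 : δ < 1 / 4) (Cw A : ℝ) (m R J : ℕ) : Continuous fun t => Pt Cw A m δ R J t := by
  unfold Pt
  exact continuous_finsetSum _ fun j _ => continuous_const.mul (xj_cont h1 m j)

/-- the mean of the powers of the majorant -/
lemma Pt_mean (D : Dat w m A Cw) {δ : ℝ → ℝ} (hδ : Tendsto δ atTop (𝓝 0))
    (hδL : Tendsto (fun T : ℝ => δ T * Real.log T) atTop atTop) {β q : ℝ} (hβ : 0 < β) (hβ4 : β ≤ 4)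
    (hq : 0 < q) (hmq : m * q = β) :
    ∃ K : ℝ, 0 < K ∧ ∀ᶠ T : ℝ in atTop, ∀ R J : ℕ, (J : ℝ) * δ T ≤ T →
      (2 * δ T) ^ ((β / 2) ^ 2) / T * ∫ t in Set.Icc 0 T, Pt Cw A m (δ T) R J t ^ q ≤
        K * ∑ j ∈ Finset.Ico R J, vq q (bj Cw A j) := by
  obtain ⟨C, hC, hmean⟩ := mean_shift hδ hδL hβ hβ4
  obtain ⟨K, hK, hsum⟩ := sum_all (ι := ℕ) hq (∑' j, bj Cw A j)
  refine ⟨K * (2 ^ q * (2 * C)), by positivity, ?_⟩
  filter_upwards [hmean, pos_path hδL, hδ.eventually (gt_mem_nhds (show (0:ℝ) < 1 / 4 by norm_num)),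
    eventually_gt_atTop 0] with T k1 k2 k3 k4 R J hJ
  obtain ⟨W, hW⟩ : ∃ W : ℝ, W = (2 * δ T) ^ ((β / 2) ^ 2) / T := ⟨_, rfl⟩
  have hW0 : 0 < W := by rw [hW]; positivity
  rw [← hW] at k1 ⊢
  have hint : ∀ {f : ℝ → ℝ}, Continuous f → IntegrableOn f (Set.Icc 0 T) := fun hf =>
    hf.continuousOn.integrableOn_compact isCompact_Icc
  have hxq : ∀ j ∈ Finset.Ico R J, W * ∫ t in Set.Icc 0 T, xj m (δ T) t j ^ q ≤ 2 ^ q * (2 * C) := by
    intro j hj
    rw [Finset.mem_Ico] at hj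
    have hjT : (j : ℝ) * δ T ≤ T := by
      refine le_trans (mul_le_mul_of_nonneg_right ?_ k2.le) hJ
      exact_mod_cast hj.2.le
    have hj0 : 0 ≤ (j:ℝ) * δ T := by positivity
    have a1 := k1 (j * δ T) (by rw [abs_of_nonneg hj0]; exact hjT)
    have a2 := k1 (-(j * δ T)) (by rw [abs_neg, abs_of_nonneg hj0]; exact hjT)
    have hc1 : Continuous fun t => Sx (δ T) (t + j * δ T) ^ β := (Sxp_cont k3 hβ).comp (continuous_id.add continuous_const)
    have hc2 : Continuous fun t => Sx (δ T) (t + -(j * δ T)) ^ β := (Sxp_cont k3 hβ).comp (continuous_id.add continuous_const)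
    have hle : ∫ t in Set.Icc 0 T, xj m (δ T) t j ^ q ≤
        ∫ t in Set.Icc 0 T, 2 ^ q * (Sx (δ T) (t + j * δ T) ^ β + Sx (δ T) (t + -(j * δ T)) ^ β) := by
      refine integral_mono_of_nonneg (Eventually.of_forall fun t => Real.rpow_nonneg (xj_nonneg _ _ _ _) _)
        ((hint hc1).add (hint hc2) |>.const_mul _) (Eventually.of_forall fun t => ?_)
      have e : ∀ s : ℝ, (Sx (δ T) s ^ m) ^ q = Sx (δ T) s ^ β := by
        intro s
        rw [← Real.rpow_natCast, ← Real.rpow_mul (Sx_nonneg _ _), hmq]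
      have h5 := two_pow (pow_nonneg (Sx_nonneg (δ T) (t + j * δ T)) m) (pow_nonneg (Sx_nonneg (δ T) (t + -(j * δ T))) m) hq
      rw [e, e] at h5
      exact h5
    rw [integral_const_mul, integral_add (hint hc1) (hint hc2)] at hle
    have h2q : (0:ℝ) < 2 ^ q := by positivity
    calc W * ∫ t in Set.Icc 0 T, xj m (δ T) t j ^ q ≤ W * (2 ^ q * ((∫ t in Set.Icc 0 T, Sx (δ T) (t + j * δ T) ^ β) +
          ∫ t in Set.Icc 0 T, Sx (δ T) (t + -(j * δ T)) ^ β)) := mul_le_mul_of_nonneg_left hle hW0.le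
      _ = 2 ^ q * (W * (∫ t in Set.Icc 0 T, Sx (δ T) (t + j * δ T) ^ β) +
          W * ∫ t in Set.Icc 0 T, Sx (δ T) (t + -(j * δ T)) ^ β) := by ring
      _ ≤ 2 ^ q * (C + C) := mul_le_mul_of_nonneg_left (add_le_add a1 a2) h2q.le
      _ = 2 ^ q * (2 * C) := by ring
  have hPle : ∀ t, Pt Cw A m (δ T) R J t ^ q ≤ K * ∑ j ∈ Finset.Ico R J, vq q (bj Cw A j) * xj m (δ T) t j ^ q := by
    intro t
    unfold Pt
    refine hsum _ _ _ (bj_nonneg D) (fun j => xj_nonneg _ _ _ _) ?_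
    exact (bj_summable D).sum_le_tsum _ fun j _ => bj_nonneg D j
  have hxc : ∀ j, Continuous fun t => vq q (bj Cw A j) * xj m (δ T) t j ^ q := fun j =>
    continuous_const.mul ((xj_cont k3 m j).rpow_const fun t => Or.inr hq.le)
  have h3 : ∫ t in Set.Icc 0 T, Pt Cw A m (δ T) R J t ^ q ≤
      ∫ t in Set.Icc 0 T, K * ∑ j ∈ Finset.Ico R J, vq q (bj Cw A j) * xj m (δ T) t j ^ q :=
    integral_mono_of_nonneg (Eventually.of_forall fun t => Real.rpow_nonneg (Pt_nonneg D _ _ _ _) _)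
      ((hint (continuous_finsetSum _ fun j _ => hxc j)).const_mul _) (Eventually.of_forall hPle)
  rw [integral_const_mul, integral_finsetSum _ fun j _ => hint (hxc j)] at h3
  have h4 := mul_le_mul_of_nonneg_left h3 hW0.le
  refine h4.trans ?_
  have e : W * (K * ∑ j ∈ Finset.Ico R J, ∫ t in Set.Icc 0 T, vq q (bj Cw A j) * xj m (δ T) t j ^ q) =
      K * ∑ j ∈ Finset.Ico R J, vq q (bj Cw A j) * (W * ∫ t in Set.Icc 0 T, xj m (δ T) t j ^ q) := by
    rw [mul_left_comm, Finset.mul_sum]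
    congr 1
    refine Finset.sum_congr rfl fun j _ => ?_
    rw [integral_const_mul]
    ring
  rw [e]
  calc K * ∑ j ∈ Finset.Ico R J, vq q (bj Cw A j) * (W * ∫ t in Set.Icc 0 T, xj m (δ T) t j ^ q) ≤
      K * ∑ j ∈ Finset.Ico R J, vq q (bj Cw A j) * (2 ^ q * (2 * C)) := by
        refine mul_le_mul_of_nonneg_left (Finset.sum_le_sum fun j hj => ?_) hK.le
        exact mul_le_mul_of_nonneg_left (hxq j hj) (vq_nonneg (bj_nonneg D j))
    _ = _ := by
        rw [← Finset.sum_mul]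
        ring

/-- the sum of the weights -/
noncomputable def Vt (q Cw A : ℝ) (R : ℕ) : ℝ := ∑' j, vq q (bj Cw A (j + R))

lemma Vt_lim (D : Dat w m A Cw) {q : ℝ} (_hA : 1 < A * min 1 q) : Tendsto (Vt q Cw A) atTop (𝓝 0) :=
  tendsto_sum_nat_add fun j => vq q (bj Cw A j)

lemma Vt_nonneg (D : Dat w m A Cw) (q : ℝ) (R : ℕ) : 0 ≤ Vt q Cw A R := tsum_nonneg fun j => vq_nonneg (bj_nonneg D _)

lemma sum_le_Vt (D : Dat w m A Cw) {q : ℝ} (hA : 1 < A * min 1 q) (R J : ℕ) :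
    ∑ j ∈ Finset.Ico R J, vq q (bj Cw A j) ≤ Vt q Cw A R := by
  rw [Finset.sum_Ico_eq_sum_range]
  have hs : Summable fun j => vq q (bj Cw A (j + R)) := (summable_nat_add_iff (f := fun j => vq q (bj Cw A j)) R).2
    (vq_summable D hA)
  unfold Vt
  have h1 := hs.sum_le_tsum (Finset.range (J - R)) fun j _ => vq_nonneg (bj_nonneg D _)
  refine le_trans (le_of_eq ?_) h1
  refine Finset.sum_congr rfl fun j _ => ?_
  rw [add_comm]

/-- the number of the windows -/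
noncomputable def Jn (δ T : ℝ) : ℕ := ⌊T / δ⌋₊

lemma Jn_le {δ T : ℝ} (h0 : 0 < δ) (hT : 0 ≤ T) : (Jn δ T : ℝ) * δ ≤ T := by
  have h := Nat.floor_le (show 0 ≤ T / δ by positivity)
  unfold Jn
  rwa [le_div_iff₀ h0] at h

lemma Jn_ge {δ T : ℝ} (h0 : 0 < δ) : T ≤ δ * (Jn δ T + 1) := by
  have h := Nat.lt_floor_add_one (T / δ)
  unfold Jn
  rw [div_lt_iff₀ h0] at h
  linarith

lemma Jn_tendsto {δ : ℝ → ℝ} (hδ : Tendsto δ atTop (𝓝 0))
    (hδL : Tendsto (fun T : ℝ => δ T * Real.log T) atTop atTop) : Tendsto (fun T => Jn (δ T) T) atTop atTop := by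
  have h1 : Tendsto (fun T : ℝ => ⌊T⌋₊) atTop atTop := tendsto_nat_floor_atTop
  refine tendsto_atTop_mono' _ ?_ h1
  filter_upwards [pos_path hδL, hδ.eventually (gt_mem_nhds (show (0:ℝ) < 1 by norm_num)), eventually_gt_atTop 0] with T h2 h3 h4
  unfold Jn
  refine Nat.floor_mono ?_
  rw [le_div_iff₀ h2]
  nlinarith

lemma W_le_one {δ T β : ℝ} (h0 : 0 < δ) (h1 : δ < 1 / 4) (hT : 0 < T) : (2 * δ) ^ ((β / 2) ^ 2) / T * T ≤ 1 := by
  rw [div_mul_cancel₀ _ hT.ne']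
  exact Real.rpow_le_one (by positivity) (by linarith) (by positivity)

lemma Xr_cont (D : Dat w m A Cw) {δ : ℝ} (h1 : δ < 1 / 4) (R : ℕ) : Continuous fun t => Xr w m R δ t := by
  unfold Xr
  exact continuous_parametric_integral_of_continuous (fi_cont D h1) isCompact_Icc

lemma Xf_cont (D : Dat w m A Cw) {δ : ℝ} (h0 : 0 < δ) (h1 : δ < 1 / 4) : Continuous fun t => Xf w m δ t := by
  rw [continuous_iff_continuousAt]
  intro t0
  have hκ : 1 < A - 5 / 8 * m := by linarith [D.big]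
  unfold Xf
  refine continuousAt_of_dominated (bound := fun u => 12 ^ m * Cw * (2 + |t0|) ^ (5 / 8 * m : ℝ) * (1 + |u|) ^ (-(A - 5 / 8 * m)))
    (Eventually.of_forall fun t => (fi_cont_u D h1 t).aestronglyMeasurable) ?_ ((one_abs_int hκ).const_mul _) ?_
  · filter_upwards [Metric.ball_mem_nhds t0 one_pos] with t ht
    refine Eventually.of_forall fun u => ?_
    rw [Metric.mem_ball, Real.dist_eq] at ht
    have k1 : |t| ≤ |t0| + 1 := by
      have := abs_sub_abs_le_abs_sub t t0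
      linarith
    refine (fi_poly D h0 h1 t u).trans ?_
    have := D.Cpos
    have k2 : (1 + |t|) ^ (5 / 8 * m : ℝ) ≤ (2 + |t0|) ^ (5 / 8 * m : ℝ) :=
      Real.rpow_le_rpow (by positivity) (by linarith) (by positivity)
    gcongr
  · refine Eventually.of_forall fun u => ?_
    have h2 := (fi_cont D h1).comp (Continuous.prodMk_left u : Continuous fun t : ℝ => (t, u))
    exact h2.continuousAt

/-- the mean of the difference -/
lemma diff_mean (D : Dat w m A Cw) {δ : ℝ → ℝ} (hδ : Tendsto δ atTop (𝓝 0))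
    (hδL : Tendsto (fun T : ℝ => δ T * Real.log T) atTop atTop) {β q : ℝ} (hβ : 0 < β) (hβ4 : β ≤ 4)
    (hq : 0 < q) (hmq : m * q = β) (hA : 1 < A * min 1 q) :
    ∃ η : ℕ → ℝ, Tendsto η atTop (𝓝 0) ∧ ∀ R : ℕ, ∀ᶠ T : ℝ in atTop,
      (2 * δ T) ^ ((β / 2) ^ 2) / T * ∫ t in Set.Icc 0 T, ‖Xf w m (δ T) t - Xr w m R (δ T) t‖ ^ q ≤ η R := by
  obtain ⟨K, hK, hmean⟩ := Pt_mean D hδ hδL hβ hβ4 hq hmq
  refine ⟨fun R => 2 ^ q * (K * Vt q Cw A R + 1 / ((R:ℝ) + 1)), ?_, fun R => ?_⟩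
  · have h1 := (((Vt_lim D hA).const_mul K).add tendsto_one_div_add_atTop_nhds_zero_nat).const_mul (2 ^ q)
    rwa [mul_zero, add_zero, mul_zero] at h1
  have hF : Tendsto (fun T => Ft Cw A m (Jn (δ T) T : ℝ) ^ q) atTop (𝓝 0) := by
    have h1 := (Ft_lim D).comp (tendsto_natCast_atTop_atTop.comp (Jn_tendsto hδ hδL))
    have h2 := h1.rpow_const (p := q) (Or.inr hq.le)
    rw [Real.zero_rpow hq.ne'] at h2
    exact h2
  filter_upwards [hmean, pos_path hδL, hδ.eventually (gt_mem_nhds (show (0:ℝ) < 1 / 4 by norm_num)),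
    eventually_gt_atTop 0, (Jn_tendsto hδ hδL).eventually_ge_atTop R,
    hF.eventually (gt_mem_nhds (show (0:ℝ) < 1 / ((R:ℝ) + 1) by positivity))] with T k1 k2 k3 k4 k5 k6
  have k7 := k1 R (Jn (δ T) T) (Jn_le k2 k4.le)
  obtain ⟨W, hW⟩ : ∃ W : ℝ, W = (2 * δ T) ^ ((β / 2) ^ 2) / T := ⟨_, rfl⟩
  have hW0 : 0 < W := by rw [hW]; positivity
  have hW1 : W * T ≤ 1 := by rw [hW]; exact W_le_one k2 k3 k4
  rw [← hW] at k7 ⊢
  have hint : ∀ {f : ℝ → ℝ}, Continuous f → IntegrableOn f (Set.Icc 0 T) := fun hf =>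
    hf.continuousOn.integrableOn_compact isCompact_Icc
  obtain ⟨F, hFe⟩ : ∃ F : ℝ, F = Ft Cw A m (Jn (δ T) T : ℝ) := ⟨_, rfl⟩
  rw [← hFe] at k6
  have hF0 : 0 ≤ F := by rw [hFe]; exact Ft_nonneg D _
  have hPc := Pt_cont k3 Cw A m R (Jn (δ T) T)
  have hPq : Continuous fun t => Pt Cw A m (δ T) R (Jn (δ T) T) t ^ q := hPc.rpow_const fun t => Or.inr hq.le
  have h3 : ∫ t in Set.Icc 0 T, ‖Xf w m (δ T) t - Xr w m R (δ T) t‖ ^ q ≤
      ∫ t in Set.Icc 0 T, 2 ^ q * (Pt Cw A m (δ T) R (Jn (δ T) T) t ^ q + F ^ q) := by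
    refine setIntegral_mono_on ?_ ?_ measurableSet_Icc fun t ht => ?_
    · exact hint ((((Xf_cont D k2 k3).sub (Xr_cont D k3 R)).norm).rpow_const fun t => Or.inr hq.le)
    · exact ((hint hPq).add (integrableOn_const (by simp))).const_mul _
    · have h4 := diff_le D k2 k3 ht k5 (Jn_ge k2)
      rw [← hFe] at h4
      exact (Real.rpow_le_rpow (norm_nonneg _) h4 hq.le).trans (two_pow (Pt_nonneg D _ _ _ _) hF0 hq)
  have h5 : ∫ t in Set.Icc 0 T, 2 ^ q * (Pt Cw A m (δ T) R (Jn (δ T) T) t ^ q + F ^ q) =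
      2 ^ q * ((∫ t in Set.Icc 0 T, Pt Cw A m (δ T) R (Jn (δ T) T) t ^ q) + T * F ^ q) := by
    rw [integral_const_mul, integral_add (hint hPq) (integrableOn_const (by simp)), setIntegral_const]
    simp [k4.le]
  rw [h5] at h3
  have h6 := mul_le_mul_of_nonneg_left h3 hW0.le
  refine h6.trans ?_
  have h7 : W * (2 ^ q * ((∫ t in Set.Icc 0 T, Pt Cw A m (δ T) R (Jn (δ T) T) t ^ q) + T * F ^ q)) =
      2 ^ q * (W * (∫ t in Set.Icc 0 T, Pt Cw A m (δ T) R (Jn (δ T) T) t ^ q) + (W * T) * F ^ q) := by ring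
  rw [h7]
  refine mul_le_mul_of_nonneg_left (add_le_add ?_ ?_) (by positivity)
  · exact k7.trans (mul_le_mul_of_nonneg_left (sum_le_Vt D hA _ _) hK.le)
  · have := Real.rpow_nonneg hF0 q
    nlinarith

/-- the mean of the truncated functionals -/
lemma Hr_mean (D : Dat w m A Cw) {δ : ℝ → ℝ} (hδ : Tendsto δ atTop (𝓝 0))
    (hδL : Tendsto (fun T : ℝ => δ T * Real.log T) atTop atTop) {β q : ℝ} (hβ : 0 < β) (hβ4 : β ≤ 4)
    (hq : 0 < q) (hmq : m * q = β) (hA : 1 < A * min 1 q) :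
    ∃ B : ℝ, 0 ≤ B ∧ ∀ R : ℕ, ∀ᶠ T : ℝ in atTop,
      (2 * δ T) ^ ((β / 2) ^ 2) / T * ∫ t in Set.Icc 0 T, Hr w m R (δ T) t ^ q ≤ B := by
  obtain ⟨K, hK, hmean⟩ := Pt_mean D hδ hδL hβ hβ4 hq hmq
  have hV := Vt_nonneg D q 0
  refine ⟨K * Vt q Cw A 0, by positivity, fun R => ?_⟩
  filter_upwards [hmean, pos_path hδL, hδ.eventually (gt_mem_nhds (show (0:ℝ) < 1 / 4 by norm_num)),
    eventually_gt_atTop 0, (Jn_tendsto hδ hδL).eventually_ge_atTop R] with T k1 k2 k3 k4 k5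
  have hRT : (R:ℝ) * δ T ≤ T := by
    refine le_trans (mul_le_mul_of_nonneg_right ?_ k2.le) (Jn_le k2 k4.le)
    exact_mod_cast k5
  have k7 := k1 0 R hRT
  obtain ⟨W, hW⟩ : ∃ W : ℝ, W = (2 * δ T) ^ ((β / 2) ^ 2) / T := ⟨_, rfl⟩
  have hW0 : 0 < W := by rw [hW]; positivity
  rw [← hW] at k7 ⊢
  have hPq : Continuous fun t => Pt Cw A m (δ T) 0 R t ^ q := (Pt_cont k3 Cw A m 0 R).rpow_const fun t => Or.inr hq.le
  have hH0 : ∀ t, 0 ≤ Hr w m R (δ T) t := fun t => integral_nonneg fun u => norm_nonneg _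
  have h3 : ∫ t in Set.Icc 0 T, Hr w m R (δ T) t ^ q ≤ ∫ t in Set.Icc 0 T, Pt Cw A m (δ T) 0 R t ^ q :=
    integral_mono_of_nonneg (Eventually.of_forall fun t => Real.rpow_nonneg (hH0 t) _)
      (hPq.continuousOn.integrableOn_compact isCompact_Icc)
      (Eventually.of_forall fun t => Real.rpow_le_rpow (hH0 t) (Hr_le D k3 t R) hq.le)
  exact (mul_le_mul_of_nonneg_left h3 hW0.le).trans (k7.trans (mul_le_mul_of_nonneg_left (sum_le_Vt D hA _ _) hK.le))

end Pool.Agent.H43.RM
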