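import Pool.Agent.H43.RM.Shift
import Pool.Agent.H43.RM.Core2

set_option autoImplicit false

/-! The Riesz means and the functional: the mean of the difference. -/

namespace Pool.Agent.H43.RM

open Filter Topology MeasureTheory
open Pool.Agent.V11128.CXL

lemma dm_le (m : ℕ) : ∀ n : ℕ, 1 ≤ n → dm m n ≤ n ^ m := by
  induction m with
  | zero =>
    intro n _
    unfold dm
    rw [pow_zero, pow_zero]
    by_cases h1 : n = 1
    · subst h1
      simp
    · simp [h1]
  | succ m ih =>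
    intro n hn
    unfold dm
    rw [pow_succ, ArithmeticFunction.mul_apply]
    have h1 : ∀ p ∈ n.divisorsAntidiagonal, (ArithmeticFunction.zeta ^ m : ArithmeticFunction ℕ) p.1 *
        ArithmeticFunction.zeta p.2 ≤ n ^ m := by
      intro p hp
      rw [Nat.mem_divisorsAntidiagonal] at hp
      have h2 : 1 ≤ p.1 := by
        rcases Nat.eq_zero_or_pos p.1 with h | h
        · exfalso
          apply hp.2
          rw [← hp.1, h, zero_mul]
        · exact h
      have h3 : p.1 ≤ n := Nat.le_of_dvd (by omega) ⟨p.2, hp.1.symm⟩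
      have h4 := ih p.1 h2
      unfold dm at h4
      have h5 : (ArithmeticFunction.zeta p.2 : ℕ) ≤ 1 := by
        rw [ArithmeticFunction.zeta_apply]
        split_ifs <;> simp
      calc _ ≤ p.1 ^ m * 1 := Nat.mul_le_mul h4 h5
        _ ≤ n ^ m := by
          rw [mul_one]
          exact Nat.pow_le_pow_left h3 m
    refine (Finset.sum_le_card_nsmul _ _ _ h1).trans ?_
    rw [smul_eq_mul, pow_succ, mul_comm]
    refine Nat.mul_le_mul_left _ ?_
    rw [← Nat.map_div_right_divisors, Finset.card_map]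
    exact Nat.card_divisors_le_self n

lemma rz_cont (m : ℕ) (ν x : ℝ) : Continuous fun t => rz m ν x t := by
  unfold rz
  refine continuous_finsetSum _ fun n hn => ?_
  rw [Finset.mem_Icc] at hn
  refine continuous_const.mul ?_
  have hn0 : (n : ℂ) ≠ 0 := by
    have : n ≠ 0 := by omega
    exact_mod_cast this
  exact Continuous.const_cpow (by fun_prop) (Or.inl hn0)

lemma rz_triv (m : ℕ) {ν x : ℝ} (hν : 0 < ν) (hx : Real.exp 1 ≤ x) (t : ℝ) : ‖rz m ν x t‖ ≤ x ^ (m + 1) := by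
  have hx1 : 1 ≤ x := (Real.one_le_exp (by norm_num)).trans hx
  have hx0 : 0 < x := by linarith
  have hlog : 1 ≤ Real.log x := by
    rw [← Real.log_exp 1]
    exact Real.log_le_log (Real.exp_pos 1) hx
  unfold rz
  have h1 : ∀ n ∈ Finset.Icc 1 ⌊x⌋₊, ‖(dm m n : ℂ) * (((1 - Real.log n / Real.log x) ^ ν : ℝ) : ℂ) *
      (n : ℂ) ^ (-(1 / 2 + (t : ℂ) * Complex.I))‖ ≤ x ^ m := by
    intro n hn
    rw [Finset.mem_Icc] at hn
    have hn1 : (1:ℝ) ≤ n := by exact_mod_cast hn.1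
    have hnx : (n:ℝ) ≤ x := (Nat.le_floor_iff hx0.le).1 hn.2
    have hn0 : (0:ℝ) < n := by linarith
    rw [norm_mul, norm_mul]
    have k1 : ‖(dm m n : ℂ)‖ ≤ x ^ m := by
      rw [Complex.norm_natCast]
      have k2 : (dm m n : ℝ) ≤ (n:ℝ) ^ m := by exact_mod_cast dm_le m n hn.1
      exact k2.trans (pow_le_pow_left₀ hn0.le hnx m)
    have k3 : ‖(((1 - Real.log n / Real.log x) ^ ν : ℝ) : ℂ)‖ ≤ 1 := by
      have k4 : Real.log n / Real.log x ≤ 1 := by
        rw [div_le_one (by linarith)]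
        exact Real.log_le_log hn0 hnx
      have k5 : 0 ≤ Real.log n / Real.log x := div_nonneg (Real.log_nonneg hn1) (by linarith)
      rw [Complex.norm_real, Real.norm_of_nonneg (Real.rpow_nonneg (by linarith) _)]
      exact Real.rpow_le_one (by linarith) (by linarith) hν.le
    have k6 : ‖(n : ℂ) ^ (-(1 / 2 + (t : ℂ) * Complex.I))‖ ≤ 1 := by
      rw [Complex.norm_natCast_cpow_of_pos (by omega)]
      have e : (-(1 / 2 + (t : ℂ) * Complex.I)).re = -(1 / 2) := by
        simp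
      rw [e]
      exact Real.rpow_le_one_of_one_le_of_nonpos hn1 (by norm_num)
    calc _ ≤ x ^ m * 1 * 1 := by gcongr
      _ = x ^ m := by ring
  refine (norm_sum_le_of_le _ h1).trans ?_
  rw [Finset.sum_const, Nat.card_Icc, nsmul_eq_mul, pow_succ, mul_comm]
  refine mul_le_mul_of_nonneg_left ?_ (by positivity)
  have : ((⌊x⌋₊ + 1 - 1 : ℕ) : ℝ) ≤ x := by
    rw [Nat.add_sub_cancel]
    exact Nat.floor_le hx0.le
  exact this

lemma Xf_triv {w : ℝ → ℂ} {m : ℕ} {A Cw : ℝ} (D : Dat w m A Cw) : ∃ C : ℝ, 0 < C ∧ ∀ δ t : ℝ, 0 < δ → δ < 1 / 4 → t ∈ Set.Icc (0:ℝ) 1 →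
    ‖Xf w m δ t‖ ≤ C := by
  have hκ : 1 < A - 5 / 8 * m := by linarith [D.big]
  have hC := D.Cpos
  obtain ⟨I, hI⟩ : ∃ I : ℝ, I = ∫ u : ℝ, (1 + |u|) ^ (-(A - 5 / 8 * m)) := ⟨_, rfl⟩
  have hI0 : 0 ≤ I := by
    rw [hI]
    exact integral_nonneg fun u => by positivity
  refine ⟨12 ^ m * Cw * 2 ^ (5 / 8 * m : ℝ) * (I + 1), by positivity, fun δ t h0 h1 ht => ?_⟩
  have h2 : ∀ u, ‖fi w m δ t u‖ ≤ 12 ^ m * Cw * 2 ^ (5 / 8 * m : ℝ) * (1 + |u|) ^ (-(A - 5 / 8 * m)) := by
    intro u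
    refine (fi_poly D h0 h1 t u).trans ?_
    have h3 : 1 + |t| ≤ 2 := by
      rw [abs_of_nonneg ht.1]
      linarith [ht.2]
    have h4 : (1 + |t|) ^ (5 / 8 * m : ℝ) ≤ 2 ^ (5 / 8 * m : ℝ) := Real.rpow_le_rpow (by positivity) h3 (by positivity)
    gcongr
  unfold Xf
  refine (norm_integral_le_of_norm_le ((one_abs_int hκ).const_mul _) (Eventually.of_forall h2)).trans ?_
  rw [integral_const_mul, ← hI]
  refine mul_le_mul_of_nonneg_left (by linarith) (by positivity)

/-- the integral of the difference -/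
lemma diff_int {m : ℕ} (hm : 1 ≤ m) {ν : ℝ} (hν : (m : ℝ) ≤ ν) {q : ℝ} (hq : 0 < q) : ∃ (C a : ℝ), 0 < C ∧ 0 < a ∧ ∀ x T : ℝ,
    4 < Real.log x → 1 ≤ x → 1 ≤ T →
    ∫ t in Set.Icc 0 T, ‖rz m ν x t - Xf (wr ν) m (1 / Real.log x) t‖ ^ q ≤ C * (x ^ ((m + 1) * q) * T ^ (1 - a)) := by
  have hm' : (1:ℝ) ≤ m := by exact_mod_cast hm
  have hν0 : 0 < ν := by linarith
  have D := dat_r hm hν
  obtain ⟨C1, hC1, h1⟩ := riesz_near hm hν
  obtain ⟨C2, hC2, h2⟩ := Xf_triv D
  obtain ⟨a, ha⟩ : ∃ a : ℝ, a = min (3 / 8 * q) (1 / 2) := ⟨_, rfl⟩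
  have ha0 : 0 < a := by rw [ha]; positivity
  have ha1 : a ≤ 3 / 8 * q := by rw [ha]; exact min_le_left _ _
  have ha2 : a ≤ 1 / 2 := by rw [ha]; exact min_le_right _ _
  refine ⟨(1 + C2) ^ q + 2 * C1 ^ q, a, by positivity, ha0, fun x T hx hx1 hT => ?_⟩
  have hL0 : 0 < Real.log x := by linarith
  have hx0 : 0 < x := by linarith
  have hδ0 : 0 < 1 / Real.log x := by positivity
  have hδ1 : 1 / Real.log x < 1 / 4 := by
    rw [div_lt_div_iff₀ hL0 (by norm_num)]
    linarith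
  have hxe : Real.exp 1 ≤ x := by
    rw [← Real.le_log_iff_exp_le hx0]
    linarith
  have hT0 : 0 < T := by linarith
  obtain ⟨g, hg⟩ : ∃ g : ℝ → ℝ, ∀ t, g t = ‖rz m ν x t - Xf (wr ν) m (1 / Real.log x) t‖ ^ q := ⟨_, fun _ => rfl⟩
  have hgc : Continuous g := by
    have e : g = fun t => ‖rz m ν x t - Xf (wr ν) m (1 / Real.log x) t‖ ^ q := funext hg
    rw [e]
    exact ((rz_cont m ν x).sub (Xf_cont D hδ0 hδ1)).norm.rpow_const fun _ => Or.inr hq.le
  simp_rw [← hg]
  rw [integral_Icc_eq_integral_Ioc, ← intervalIntegral.integral_of_le hT0.le,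
    ← intervalIntegral.integral_add_adjacent_intervals (μ := volume) (hgc.intervalIntegrable 0 1) (hgc.intervalIntegrable 1 T)]
  have hX : 1 ≤ x ^ (m + 1) := one_le_pow₀ hx1
  have e1 : (x ^ (m + 1)) ^ q = x ^ ((m + 1) * q) := by
    rw [← Real.rpow_natCast, ← Real.rpow_mul hx0.le]
    push_cast
    rfl
  have hxp : x ^ q ≤ x ^ ((m + 1) * q) := by
    refine Real.rpow_le_rpow_of_exponent_le hx1 ?_
    nlinarith
  have hT1 : 1 ≤ T ^ (1 - a) := Real.one_le_rpow hT (by linarith)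
  have k1 : ∫ t in (0:ℝ)..1, g t ≤ (1 + C2) ^ q * x ^ ((m + 1) * q) := by
    have h3 : ∀ t ∈ Set.Icc (0:ℝ) 1, g t ≤ (1 + C2) ^ q * x ^ ((m + 1) * q) := by
      intro t ht
      rw [hg, ← e1, ← Real.mul_rpow (by positivity) (by positivity)]
      refine Real.rpow_le_rpow (norm_nonneg _) ?_ hq.le
      refine (norm_sub_le _ _).trans ?_
      have h4 := rz_triv m hν0 hxe t
      have h5 := h2 _ t hδ0 hδ1 ht
      nlinarith
    have h6 := intervalIntegral.integral_mono_on (a := (0:ℝ)) (b := 1) (μ := volume) (by norm_num) (hgc.intervalIntegrable 0 1)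
      ((continuous_const (y := (1 + C2) ^ q * x ^ ((m + 1) * q))).intervalIntegrable 0 1) h3
    rwa [intervalIntegral.integral_const, sub_zero, one_smul] at h6
  have k2 : ∫ t in (1:ℝ)..T, g t ≤ 2 * C1 ^ q * (x ^ ((m + 1) * q) * T ^ (1 - a)) := by
    have h3 : ∀ t ∈ Set.Icc (1:ℝ) T, g t ≤ C1 ^ q * x ^ q * t ^ (-a) := by
      intro t ht
      have ht0 : 0 < t := by linarith [ht.1]
      have h4 := Real.rpow_le_rpow (norm_nonneg _) (h1 x t hx hx1 ht.1) hq.le
      rw [Real.mul_rpow (by positivity) (by positivity), Real.mul_rpow (by positivity) (by positivity),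
        ← Real.rpow_mul ht0.le] at h4
      rw [hg]
      refine h4.trans (mul_le_mul_of_nonneg_left ?_ (by positivity))
      exact Real.rpow_le_rpow_of_exponent_le ht.1 (by linarith)
    have hcont : IntervalIntegrable (fun t : ℝ => C1 ^ q * x ^ q * t ^ (-a)) volume 1 T :=
      (intervalIntegral.intervalIntegrable_rpow' (by linarith)).const_mul _
    refine (intervalIntegral.integral_mono_on hT (hgc.intervalIntegrable 1 T) hcont h3).trans ?_
    rw [intervalIntegral.integral_const_mul, integral_rpow (Or.inl (by linarith))]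
    have e2 : -a + 1 = 1 - a := by ring
    rw [e2, Real.one_rpow]
    have h5 : (T ^ (1 - a) - 1) / (1 - a) ≤ 2 * T ^ (1 - a) := by
      rw [div_le_iff₀ (by linarith)]
      nlinarith
    have h7 : 0 ≤ (T ^ (1 - a) - 1) / (1 - a) := div_nonneg (by linarith) (by linarith)
    calc C1 ^ q * x ^ q * ((T ^ (1 - a) - 1) / (1 - a)) ≤ C1 ^ q * x ^ ((m + 1) * q) * (2 * T ^ (1 - a)) := by gcongr
      _ = _ := by ring
  calc _ ≤ (1 + C2) ^ q * x ^ ((m + 1) * q) + 2 * C1 ^ q * (x ^ ((m + 1) * q) * T ^ (1 - a)) := add_le_add k1 k2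
    _ ≤ (1 + C2) ^ q * (x ^ ((m + 1) * q) * T ^ (1 - a)) + 2 * C1 ^ q * (x ^ ((m + 1) * q) * T ^ (1 - a)) := by
      have : x ^ ((m + 1) * q) ≤ x ^ ((m + 1) * q) * T ^ (1 - a) := le_mul_of_one_le_right (by positivity) hT1
      gcongr
    _ = _ := by ring

/-- the mean of the difference -/
theorem riesz_mean {m : ℕ} (hm : 1 ≤ m) {ν : ℝ} (hν : (m : ℝ) ≤ ν) {q b : ℝ} (hq : 0 < q) (hb : 0 ≤ b) {x : ℝ → ℝ}
    (hx : Tendsto x atTop atTop) (hxT : Tendsto (fun T => Real.log (x T) / Real.log T) atTop (𝓝 0)) :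
    Tendsto (fun T : ℝ => (2 * (1 / Real.log (x T))) ^ b / T *
      ∫ t in Set.Icc 0 T, ‖rz m ν (x T) t - Xf (wr ν) m (1 / Real.log (x T)) t‖ ^ q) atTop (𝓝 0) := by
  obtain ⟨C, a, hC, ha, h1⟩ := diff_int hm hν hq
  have hm' : (1:ℝ) ≤ m := by exact_mod_cast hm
  have hlim : Tendsto (fun T : ℝ => C * T ^ (-(a / 2))) atTop (𝓝 0) := by
    have := (tendsto_rpow_neg_atTop (show 0 < a / 2 by positivity)).const_mul C
    rwa [mul_zero] at this
  refine squeeze_zero' ?_ ?_ hlim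
  · filter_upwards [eventually_ge_atTop 1, (Real.tendsto_log_atTop.comp hx).eventually_gt_atTop 4] with T k1 k2
    simp only [Function.comp] at k2
    have : 0 ≤ ∫ t in Set.Icc 0 T, ‖rz m ν (x T) t - Xf (wr ν) m (1 / Real.log (x T)) t‖ ^ q :=
      integral_nonneg fun t => Real.rpow_nonneg (norm_nonneg _) _
    positivity
  · have hε : 0 < a / (2 * ((m + 1) * q)) := by positivity
    filter_upwards [eventually_gt_atTop 1, (Real.tendsto_log_atTop.comp hx).eventually_gt_atTop 4,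
      hx.eventually_ge_atTop 1, hxT.eventually (gt_mem_nhds hε)] with T k1 k2 k3 k4
    simp only [Function.comp] at k2
    have hT0 : 0 < T := by linarith
    have hx0 : 0 < x T := by linarith
    have hlogT : 0 < Real.log T := Real.log_pos k1
    have hL0 : 0 < Real.log (x T) := by linarith
    have h2 := h1 (x T) T k2 k3 k1.le
    have h3 : (2 * (1 / Real.log (x T))) ^ b ≤ 1 := by
      refine Real.rpow_le_one (by positivity) ?_ hb
      rw [mul_one_div, div_le_one hL0]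
      linarith
    have h4 : x T ^ ((m + 1) * q) ≤ T ^ (a / 2) := by
      rw [Real.rpow_def_of_pos hx0, Real.rpow_def_of_pos hT0]
      refine Real.exp_le_exp.2 ?_
      rw [div_lt_iff₀ hlogT] at k4
      have h5 : Real.log (x T) * ((m + 1) * q) ≤ a / (2 * ((m + 1) * q)) * Real.log T * ((m + 1) * q) :=
        mul_le_mul_of_nonneg_right k4.le (by positivity)
      refine h5.trans (le_of_eq ?_)
      field_simp
    have h6 : 0 ≤ ∫ t in Set.Icc 0 T, ‖rz m ν (x T) t - Xf (wr ν) m (1 / Real.log (x T)) t‖ ^ q :=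
      integral_nonneg fun t => Real.rpow_nonneg (norm_nonneg _) _
    calc (2 * (1 / Real.log (x T))) ^ b / T * ∫ t in Set.Icc 0 T, ‖rz m ν (x T) t - Xf (wr ν) m (1 / Real.log (x T)) t‖ ^ q
        ≤ 1 / T * (C * (T ^ (a / 2) * T ^ (1 - a))) := by gcongr; exact h2.trans (by gcongr)
      _ = C * (T ^ (a / 2) * T ^ (1 - a) * T ^ (-1 : ℝ)) := by
        rw [Real.rpow_neg_one]
        ring
      _ = C * T ^ (-(a / 2)) := by
        rw [← Real.rpow_add hT0, ← Real.rpow_add hT0]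
        congr 2
        ring

end Pool.Agent.H43.RM
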