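import Pool.Agent.H43.RM.Core2

set_option autoImplicit false

/-! Positivity of the limit constants: the submean inequality in the Gaussian space. -/

namespace Pool.Agent.H43.RM

open Filter Topology MeasureTheory ProbabilityTheory
open Pool.Agent.V11128.CXL
open Pool.Agent.H306R2 (aF aF_pos)

variable {w : ℝ → ℂ} {m : ℕ} {A Cw : ℝ}

/-- multiplication by a complex number on the plane -/
noncomputable def rot (c : ℂ) (p : ℝ × ℝ) : ℝ × ℝ := (c.re * p.1 - c.im * p.2, c.re * p.2 + c.im * p.1)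

lemma rot_cont2 : Continuous fun x : ℂ × (ℝ × ℝ) => rot x.1 x.2 := by
  unfold rot
  have h1 : Continuous fun x : ℂ × (ℝ × ℝ) => x.1.re := Complex.continuous_re.comp continuous_fst
  have h2 : Continuous fun x : ℂ × (ℝ × ℝ) => x.1.im := Complex.continuous_im.comp continuous_fst
  have h3 : Continuous fun x : ℂ × (ℝ × ℝ) => x.2.1 := continuous_fst.comp continuous_snd
  have h4 : Continuous fun x : ℂ × (ℝ × ℝ) => x.2.2 := continuous_snd.comp continuous_snd
  exact ((h1.mul h3).sub (h2.mul h4)).prodMk ((h1.mul h4).add (h2.mul h3))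

lemma rot_cont (c : ℂ) : Continuous (rot c) := by
  unfold rot
  fun_prop

lemma rot_law {c : ℂ} (hc : ‖c‖ = 1) : N2.map (rot c) = N2 := by
  have hcc : c.re ^ 2 + c.im ^ 2 = 1 := by
    have h1 := Complex.sq_norm c
    rw [hc, Complex.normSq_apply] at h1
    linarith
  have hp : IsProbabilityMeasure (N2.map (rot c)) := Measure.isProbabilityMeasure_map (rot_cont c).measurable.aemeasurable
  refine Measure.ext_of_charFunDual (funext fun L => ?_)
  rw [charFunDual_eq_charFun_map_one, charFunDual_eq_charFun_map_one]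
  obtain ⟨A, hA⟩ : ∃ A : ℝ, A = L (1, 0) := ⟨_, rfl⟩
  obtain ⟨B, hB⟩ : ∃ B : ℝ, B = L (0, 1) := ⟨_, rfl⟩
  have hL : ∀ p : ℝ × ℝ, L p = 0 + (A * p.1 + B * p.2) := by
    intro p
    have e : p = p.1 • ((1, 0) : ℝ × ℝ) + p.2 • ((0, 1) : ℝ × ℝ) := by
      ext <;> simp
    conv_lhs => rw [e]
    rw [map_add, map_smul, map_smul, ← hA, ← hB]
    simp only [smul_eq_mul]
    ring
  have hLc : Measurable (⇑L : ℝ × ℝ → ℝ) := L.continuous.measurable
  rw [Measure.map_map hLc (rot_cont c).measurable]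
  have e1 : (⇑L ∘ rot c) = fun p : ℝ × ℝ => 0 + ((A * c.re + B * c.im) * p.1 + (B * c.re - A * c.im) * p.2) := by
    funext p
    simp only [Function.comp]
    rw [hL]
    unfold rot
    ring
  have e2 : (⇑L : ℝ × ℝ → ℝ) = fun p : ℝ × ℝ => 0 + (A * p.1 + B * p.2) := funext hL
  rw [e1, e2, gauss2, gauss2]
  congr 3
  have : (A * c.re + B * c.im) ^ 2 + (B * c.re - A * c.im) ^ 2 = (A ^ 2 + B ^ 2) * (c.re ^ 2 + c.im ^ 2) := by ring
  rw [this, hcc, mul_one]

/-- multiplication of all the coordinates -/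
noncomputable def Rot (c : ℂ) (ω : ℕ → ℝ × ℝ) : ℕ → ℝ × ℝ := fun k => rot c (ω k)

lemma Rot_meas2 : Measurable fun x : ℂ × (ℕ → ℝ × ℝ) => Rot x.1 x.2 := by
  refine measurable_pi_lambda _ fun k => ?_
  unfold Rot
  exact rot_cont2.measurable.comp (measurable_fst.prodMk ((measurable_pi_apply k).comp measurable_snd))

lemma Rot_law {c : ℂ} (hc : ‖c‖ = 1) : PP.map (Rot c) = PP := by
  unfold PP
  have hp : ∀ _ : ℕ, IsProbabilityMeasure N2 := fun _ => inferInstance
  have h := Measure.infinitePi_map_pi (μ := fun _ : ℕ => N2) (f := fun _ : ℕ => rot c) (fun _ => (rot_cont c).measurable)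
  simp only [rot_law hc] at h
  exact h

lemma xi_Rot (c : ℂ) (k : ℕ) (ω : ℕ → ℝ × ℝ) : xi k (Rot c ω) = c * xi k ω := by
  unfold xi Rot rot
  rw [← mul_div_assoc]
  congr 1
  apply Complex.ext
  · simp
  · simp

/-- the random series -/
noncomputable def SS (ω : ℕ → ℝ × ℝ) (x : ℝ) : ℂ := ∑' k, xi k ω * fk k x

lemma SS_Rot (c : ℂ) (ω : ℕ → ℝ × ℝ) (x : ℝ) : SS (Rot c ω) x = c * SS ω x := by
  unfold SS
  rw [← tsum_mul_left]
  refine tsum_congr fun k => ?_
  rw [xi_Rot, mul_assoc]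

lemma GG_SS (β : ℝ) (ω : ℕ → ℝ × ℝ) (x : ℝ) : GG β ω x = -(β / 2 : ℂ) * el x + SS ω x := rfl

/-- the line of the functional -/
noncomputable def hl (w : ℝ → ℂ) (m : ℕ) (β : ℝ) (ω : ℕ → ℝ × ℝ) (z : ℂ) (u : ℝ) : ℂ :=
  Complex.exp (m * (-(β / 2 : ℂ) * el u + z * SS ω u)) * w u

lemma gi_Rot (w : ℝ → ℂ) (m : ℕ) (β : ℝ) (ω : ℕ → ℝ × ℝ) (z : ℂ) (u : ℝ) : gi w m β (Rot z ω) u = hl w m β ω z u := by
  unfold gi hl pth
  rw [GG_SS, SS_Rot, ← Complex.exp_nat_mul]

lemma el_cont : Continuous fun x => (el x : ℂ) := by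
  unfold el
  refine Continuous.clog (by fun_prop) fun x => ?_
  rw [Complex.mem_slitPlane_iff]
  left
  simp

lemma SS_contOn {β r : ℝ} (hβ : 0 < β) {ω : ℕ → ℝ × ℝ} (h : Gd r ω) : ContinuousOn (SS ω) (Set.Icc (-r) r) := by
  have h1 : ContinuousOn (fun x => GG β ω x) (Set.Icc (-r) r) := by
    have hV := Vv_nonneg r ω
    have hl : LipschitzOnWith (Real.toNNReal (β / 4 + Vv r ω / 2)) (GG β ω) (Set.Icc (-r) r) := by
      refine LipschitzOnWith.of_dist_le_mul fun x hx y hy => ?_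
      rw [dist_eq_norm, Real.dist_eq, Real.coe_toNNReal _ (by positivity)]
      exact GG_lip hβ h hx hy
    exact hl.continuousOn
  have h2 : ContinuousOn (fun x => GG β ω x + (β / 2 : ℂ) * el x) (Set.Icc (-r) r) :=
    h1.add (continuous_const.mul el_cont).continuousOn
  refine h2.congr fun x _ => ?_
  simp only
  rw [GG_SS]
  ring

lemma hl_diff (hw : Continuous w) {β r : ℝ} (hβ : 0 < β) {ω : ℕ → ℝ × ℝ} (h : Gd r ω) (m : ℕ) :
    DifferentiableOn ℂ (fun z => ∫ u in Set.Icc (-r) r, hl w m β ω z u) (Metric.ball 0 2) := by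
  have hS := SS_contOn hβ h
  obtain ⟨K, hK⟩ := isCompact_Icc.exists_bound_of_continuousOn hS
  obtain ⟨E, hE⟩ := (isCompact_Icc (a := -r) (b := r)).exists_bound_of_continuousOn el_cont.continuousOn
  obtain ⟨W, hW⟩ := (isCompact_Icc (a := -r) (b := r)).exists_bound_of_continuousOn hw.continuousOn
  have hcz : ∀ z : ℂ, ContinuousOn (hl w m β ω z) (Set.Icc (-r) r) := by
    intro z
    unfold hl
    refine ContinuousOn.mul ?_ hw.continuousOn
    refine Complex.continuous_exp.comp_continuousOn ?_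
    refine continuousOn_const.mul ?_
    exact (continuous_const.mul el_cont).continuousOn.add (continuousOn_const.mul hS)
  intro z0 hz0
  refine DifferentiableAt.differentiableWithinAt ?_
  have hder : ∀ (z : ℂ) (u : ℝ), HasDerivAt (fun z => hl w m β ω z u) (m * SS ω u * hl w m β ω z u) z := by
    intro z u
    unfold hl
    have h1 : HasDerivAt (fun z : ℂ => (m : ℂ) * (-(β / 2 : ℂ) * el u + z * SS ω u)) (m * SS ω u) z := by
      have h2 := (((hasDerivAt_id z).mul_const (SS ω u)).const_add (-(β / 2 : ℂ) * el u)).const_mul (m : ℂ)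
      simpa using h2
    have h3 := (h1.cexp).mul_const (w u)
    refine h3.congr_deriv ?_
    ring
  have key := hasDerivAt_integral_of_dominated_loc_of_deriv_le (μ := volume.restrict (Set.Icc (-r) r))
    (F := fun z u => hl w m β ω z u) (F' := fun z u => m * SS ω u * hl w m β ω z u) (x₀ := z0) (s := Metric.ball 0 2)
    (bound := fun _ => m * |K| * (Real.exp (m * (|β| / 2 * |E| + 2 * |K|)) * |W|)) (Metric.isOpen_ball.mem_nhds hz0)
    (Eventually.of_forall fun z => (hcz z).aestronglyMeasurable measurableSet_Icc)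
    ((hcz z0).integrableOn_compact isCompact_Icc)
    (((continuousOn_const.mul hS).mul (hcz z0)).aestronglyMeasurable measurableSet_Icc) ?_
    (integrableOn_const (by simp)) ?_
  · exact key.2.differentiableAt
  · filter_upwards [ae_restrict_mem measurableSet_Icc] with u hu z hz
    rw [Metric.mem_ball, dist_zero_right] at hz
    have k1 := (hK u hu).trans (le_abs_self K)
    have k2 := (hE u hu).trans (le_abs_self E)
    have k3 := (hW u hu).trans (le_abs_self W)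
    rw [norm_mul, norm_mul, Complex.norm_natCast]
    refine mul_le_mul (mul_le_mul_of_nonneg_left k1 (Nat.cast_nonneg m)) ?_ (norm_nonneg _) (by positivity)
    unfold hl
    rw [norm_mul]
    refine mul_le_mul ?_ k3 (norm_nonneg _) (Real.exp_pos _).le
    refine (Complex.norm_exp_le_exp_norm _).trans (Real.exp_le_exp.2 ?_)
    rw [norm_mul, Complex.norm_natCast]
    refine mul_le_mul_of_nonneg_left ?_ (Nat.cast_nonneg m)
    refine (norm_add_le _ _).trans (add_le_add ?_ ?_)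
    · rw [norm_mul, norm_neg]
      have e : ‖(β / 2 : ℂ)‖ = |β| / 2 := by
        rw [norm_div, Complex.norm_real, Real.norm_eq_abs]
        norm_num
      rw [e]
      exact mul_le_mul_of_nonneg_left k2 (by positivity)
    · rw [norm_mul]
      exact mul_le_mul hz.le k1 (norm_nonneg _) (by norm_num)
  · exact Eventually.of_forall fun u z _ => hder z u

/-- the constant term -/
noncomputable def cz (w : ℝ → ℂ) (m : ℕ) (β : ℝ) (u : ℝ) : ℂ := Complex.exp (m * (-(β / 2 : ℂ) * el u)) * w u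

lemma hl_zero (w : ℝ → ℂ) (m : ℕ) (β : ℝ) (ω : ℕ → ℝ × ℝ) (u : ℝ) : hl w m β ω 0 u = cz w m β u := by
  unfold hl cz
  rw [zero_mul, add_zero]

/-- the submean inequality on the circle through a point of the Gaussian space -/
lemma circ (hw : Continuous w) {β q : ℝ} (hβ : 0 < β) (hq : 0 < q) {R : ℕ} {ω : ℕ → ℝ × ℝ} (h : Gd (R:ℝ) ω) (m : ℕ) :
    ‖∫ u in Set.Icc (-(R:ℝ)) R, cz w m β u‖ ^ q ≤
      (2 * Real.pi)⁻¹ * ∫ θ in (0:ℝ)..(2 * Real.pi), ‖Jr w m β R (Rot (circleMap 0 1 θ) ω)‖ ^ q := by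
  have h1 := Pool.Agent.H402R2.SubMean.rpow_le_circleAverage (w := 0) (r := 1) (ρ := 2) one_pos hq (by norm_num)
    (hl_diff hw hβ h m)
  unfold Real.circleAverage at h1
  rw [smul_eq_mul] at h1
  have e0 : ∫ u in Set.Icc (-(R:ℝ)) R, hl w m β ω 0 u = ∫ u in Set.Icc (-(R:ℝ)) R, cz w m β u := by
    simp_rw [hl_zero]
  rw [e0] at h1
  refine h1.trans (le_of_eq ?_)
  congr 1
  refine intervalIntegral.integral_congr fun θ _ => ?_
  unfold Jr
  simp_rw [gi_Rot]

lemma circ_meas : Measurable fun x : ℝ × (ℕ → ℝ × ℝ) => Rot (circleMap 0 1 x.1) x.2 :=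
  Rot_meas2.comp (((continuous_circleMap 0 1).measurable.comp measurable_fst).prodMk measurable_snd)

/-- the submean inequality in the Gaussian space -/
lemma submean (hw : Continuous w) {β q : ℝ} (hβ : 0 < β) (hq : 0 < q) {R : ℕ} (m : ℕ)
    (hi : Integrable (fun ω => ‖Jr w m β R ω‖ ^ q) PP) :
    ‖∫ u in Set.Icc (-(R:ℝ)) R, cz w m β u‖ ^ q ≤ ∫ ω, ‖Jr w m β R ω‖ ^ q ∂PP := by
  obtain ⟨F, hF⟩ : ∃ F : (ℕ → ℝ × ℝ) → ℝ, ∀ ω, F ω = ‖Jr w m β R ω‖ ^ q := ⟨_, fun _ => rfl⟩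
  have hFe : (fun ω => ‖Jr w m β R ω‖ ^ q) = F := funext fun ω => (hF ω).symm
  rw [hFe] at hi ⊢
  obtain ⟨μ, hμ⟩ : ∃ μ : Measure ℝ, μ = volume.restrict (Set.Ioc 0 (2 * Real.pi)) := ⟨_, rfl⟩
  have hμf : IsFiniteMeasure μ := by
    rw [hμ]
    infer_instance
  have hmp : MeasurePreserving (fun x : ℝ × (ℕ → ℝ × ℝ) => (x.1, Rot (circleMap 0 1 x.1) x.2)) (μ.prod PP) (μ.prod PP) := by
    refine MeasurePreserving.skew_product (f := id) (g := fun θ ω => Rot (circleMap 0 1 θ) ω) (MeasurePreserving.id μ)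
      circ_meas (Eventually.of_forall fun θ => ?_)
    refine Rot_law ?_
    simp
  have hi2 : Integrable (fun x : ℝ × (ℕ → ℝ × ℝ) => F x.2) (μ.prod PP) := hi.comp_snd μ
  have hi3 : Integrable (fun x : ℝ × (ℕ → ℝ × ℝ) => F (Rot (circleMap 0 1 x.1) x.2)) (μ.prod PP) := hmp.integrable_comp_of_integrable hi2
  have e1 : ∫ x, F (Rot (circleMap 0 1 x.1) x.2) ∂(μ.prod PP) = ∫ x, F x.2 ∂(μ.prod PP) := by
    have h1 := integral_map (μ := μ.prod PP) hmp.measurable.aemeasurable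
      (f := fun x : ℝ × (ℕ → ℝ × ℝ) => F x.2) (by rw [hmp.map_eq]; exact hi2.aestronglyMeasurable)
    rw [hmp.map_eq] at h1
    exact h1.symm
  have e2 : ∫ x, F x.2 ∂(μ.prod PP) = 2 * Real.pi * ∫ ω, F ω ∂PP := by
    rw [integral_prod_symm _ hi2]
    simp only [integral_const, smul_eq_mul]
    rw [integral_const_mul, hμ]
    congr 1
    simp [Real.pi_pos.le]
  have e3 : ∫ x, F (Rot (circleMap 0 1 x.1) x.2) ∂(μ.prod PP) =
      ∫ ω, (∫ θ in (0:ℝ)..(2 * Real.pi), F (Rot (circleMap 0 1 θ) ω)) ∂PP := by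
    rw [integral_prod_symm _ hi3]
    refine integral_congr_ae (Eventually.of_forall fun ω => ?_)
    simp only
    rw [intervalIntegral.integral_of_le (by positivity), hμ]
  have hi4 : Integrable (fun ω => ∫ θ in (0:ℝ)..(2 * Real.pi), F (Rot (circleMap 0 1 θ) ω)) PP := by
    have h1 := hi3.integral_prod_right
    refine h1.congr (Eventually.of_forall fun ω => ?_)
    simp only
    rw [intervalIntegral.integral_of_le (by positivity), hμ]
  have h5 : ‖∫ u in Set.Icc (-(R:ℝ)) R, cz w m β u‖ ^ q ≤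
      ∫ ω, (2 * Real.pi)⁻¹ * (∫ θ in (0:ℝ)..(2 * Real.pi), F (Rot (circleMap 0 1 θ) ω)) ∂PP := by
    have h6 : ∫ _ω, ‖∫ u in Set.Icc (-(R:ℝ)) R, cz w m β u‖ ^ q ∂PP = ‖∫ u in Set.Icc (-(R:ℝ)) R, cz w m β u‖ ^ q := by
      rw [integral_const]
      simp
    rw [← h6]
    refine integral_mono_ae (integrable_const _) (hi4.const_mul _) ?_
    filter_upwards [gd_ae (R:ℝ)] with ω hω
    have h7 := circ hw hβ hq hω m
    simp_rw [← hF] at h7
    exact h7
  rw [integral_const_mul, ← e3, e1, e2] at h5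
  have hpi := Real.pi_pos
  have e4 : (2 * Real.pi)⁻¹ * (2 * Real.pi * ∫ ω, F ω ∂PP) = ∫ ω, F ω ∂PP := by
    field_simp
  rwa [e4] at h5

lemma cz_norm_le (w : ℝ → ℂ) (m : ℕ) {β : ℝ} (hβ : 0 < β) (u : ℝ) : ‖cz w m β u‖ ≤ ‖w u‖ := by
  unfold cz
  rw [norm_mul, Complex.norm_exp]
  have h1 := el_re_nonneg u
  have e : ((m:ℂ) * (-(β / 2 : ℂ) * el u)).re = -((m:ℝ) * (β / 2 * (el u).re)) := by
    have e2 : (m:ℂ) * (-(β / 2 : ℂ) * el u) = (((-((m:ℝ) * (β / 2)) : ℝ)) : ℂ) * el u := by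
      push_cast
      ring
    rw [e2, Complex.re_ofReal_mul]
    ring
  rw [e]
  have h2 : Real.exp (-((m:ℝ) * (β / 2 * (el u).re))) ≤ 1 := by
    rw [Real.exp_le_one_iff]
    have : 0 ≤ (m:ℝ) * (β / 2 * (el u).re) := by positivity
    linarith
  exact mul_le_of_le_one_left (norm_nonneg _) h2

/-- the lower bound of the limit constant -/
theorem lower (D : Dat w m A Cw) {β q : ℝ} (hβ : 0 < β) (hq : 0 < q)
    (hi : ∀ R : ℕ, 1 ≤ R → Integrable (fun ω => ‖Jr w m β R ω‖ ^ q) PP)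
    (hl : Tendsto (fun R : ℕ => ∫ ω, ‖Jr w m β (R + 1) ω‖ ^ q ∂PP) atTop (𝓝 (∫ ω, ‖Jf w m β ω‖ ^ q ∂PP))) :
    ‖∫ u, cz w m β u‖ ^ q ≤ ∫ ω, ‖Jf w m β ω‖ ^ q ∂PP := by
  have hwi : Integrable w := by
    refine ((one_abs_int D.A1).const_mul Cw).mono' D.cont.aestronglyMeasurable (Eventually.of_forall D.bd)
  have hczc : Continuous (cz w m β) := by
    unfold cz
    exact (Complex.continuous_exp.comp (continuous_const.mul (continuous_const.mul el_cont))).mul D.cont
  have hci : Integrable (cz w m β) := hwi.norm.mono' hczc.aestronglyMeasurable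
    (Eventually.of_forall fun u => cz_norm_le w m hβ u)
  have h1 : Tendsto (fun R : ℕ => ‖∫ u in Set.Icc (-(((R + 1 : ℕ)) : ℝ)) ((R + 1 : ℕ) : ℝ), cz w m β u‖ ^ q) atTop
      (𝓝 (‖∫ u, cz w m β u‖ ^ q)) :=
    ((cover.integral_tendsto_of_countably_generated hci).norm).rpow_const (Or.inr hq.le)
  exact le_of_tendsto_of_tendsto' h1 hl fun R => submean D.cont hβ hq m (hi (R + 1) (by omega))

end Pool.Agent.H43.RM
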