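import Pool.Agent.H43.RM.Pos

set_option autoImplicit false

/-! Local averages on the critical line: moving the line of integration in the strip `-1 ≤ Im z ≤ 0`. -/

namespace Pool.Agent.H43.RM

open Filter Topology MeasureTheory
open Pool.Agent.V11128.CXL

/-- the kernels -/
structure Ker (K : ℂ → ℂ) (A C : ℝ) : Prop where
  cont : ContinuousOn K {z | z.im ∈ Set.Icc (-1 : ℝ) 0}
  diff : DifferentiableOn ℂ K {z | z.im ∈ Set.Ioo (-1 : ℝ) 0}
  bd : ∀ z : ℂ, z.im ∈ Set.Icc (-1 : ℝ) 0 → ‖K z‖ ≤ C * (1 + |z.re|) ^ (-A)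

variable {K : ℂ → ℂ} {m : ℕ} {A C : ℝ}

/-- the weight on the shifted line -/
noncomputable def wk (K : ℂ → ℂ) (u : ℝ) : ℂ := K ((u : ℂ) - Complex.I)

lemma dat_k (hK : Ker K A C) (hm : 1 ≤ m) (hC : 0 < C) (hA : 1 + 5 / 8 * m < A) : Dat (wk K) m A C := by
  refine ⟨?_, hm, hC, fun u => ?_, hA⟩
  · unfold wk
    refine hK.cont.comp_continuous (by fun_prop) fun u => ?_
    simp
  · unfold wk
    refine (hK.bd _ ?_).trans (le_of_eq ?_)
    · simp
    · simp

/-- the integrand in the strip -/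
noncomputable def Fz (K : ℂ → ℂ) (m : ℕ) (δ t : ℝ) (z : ℂ) : ℂ :=
  riemannZeta (1 / 2 + (t + z * δ) * Complex.I) ^ m * K z

lemma Fz_line (K : ℂ → ℂ) (m : ℕ) (δ t u : ℝ) : Fz K m δ t ((u : ℂ) - Complex.I) = fi (wk K) m δ t u := by
  unfold Fz fi wk zc
  congr 3
  push_cast
  linear_combination (-(δ:ℂ)) * Complex.I_mul_I

lemma Fz_arg {δ t : ℝ} (z : ℂ) : (1 / 2 + ((t : ℂ) + z * δ) * Complex.I) =
    ((1 / 2 - z.im * δ : ℝ) : ℂ) + ((t + z.re * δ : ℝ) : ℂ) * Complex.I := by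
  apply Complex.ext
  · simp
    ring
  · simp

lemma Fz_bd (hK : Ker K A C) (_hC : 0 < C) {δ : ℝ} (h0 : 0 < δ) (h1 : δ < 1 / 4) (t : ℝ) {z : ℂ} (hz : z.im ∈ Set.Icc (-1 : ℝ) 0) :
    ‖Fz K m δ t z‖ ≤ 12 ^ m * C * (1 + |t|) ^ (5 / 8 * m : ℝ) * (1 + |z.re|) ^ (-(A - 5 / 8 * m)) := by
  have k1 : 0 ≤ -z.im * δ := mul_nonneg (by linarith [hz.2]) h0.le
  have k2 : -z.im * δ ≤ 1 * δ := mul_le_mul_of_nonneg_right (by linarith [hz.1]) h0.le
  have h := Pool.Agent.W184.zeta58 (σ := 1 / 2 - z.im * δ) (t := t + z.re * δ) (by linarith) (by linarith)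
  rw [← Fz_arg] at h
  obtain ⟨Y, hYe⟩ : ∃ Y : ℝ, Y = (1 + |t|) * (1 + |z.re|) := ⟨_, rfl⟩
  have hz1 : 0 < 1 + |z.re| := by positivity
  have hY : 1 + |t + z.re * δ| ≤ Y := by
    have k3 := abs_add_le t (z.re * δ)
    rw [abs_mul, abs_of_pos h0] at k3
    have k4 : |z.re| * δ ≤ |z.re| := by nlinarith [abs_nonneg z.re]
    rw [hYe]
    nlinarith [abs_nonneg z.re, abs_nonneg t, mul_nonneg (abs_nonneg t) (abs_nonneg z.re)]
  have hY1 : 1 ≤ Y := le_trans (by linarith [abs_nonneg (t + z.re * δ)]) hY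
  have h2 : ‖riemannZeta (1 / 2 + ((t : ℂ) + z * δ) * Complex.I)‖ ≤ 12 * Y ^ ((5:ℝ)/8) :=
    h.trans (mul_le_mul_of_nonneg_left (Real.rpow_le_rpow (by positivity) hY (by norm_num)) (by norm_num))
  have h3 := pow_m (norm_nonneg _) hY1 h2 m
  unfold Fz
  rw [norm_mul, norm_pow]
  calc _ ≤ (12 ^ m * Y ^ (5 / 8 * m : ℝ)) * (C * (1 + |z.re|) ^ (-A)) := by
        gcongr
        exact hK.bd z hz
    _ = _ := by
      have e : -(A - 5 / 8 * m) = 5 / 8 * m + -A := by ring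
      rw [e, Real.rpow_add hz1, hYe, Real.mul_rpow (by positivity) hz1.le]
      ring

lemma zeta_arg_ne {δ t : ℝ} (h0 : 0 < δ) (h1 : δ < 1 / 4) {z : ℂ} (hz : z.im ∈ Set.Icc (-1 : ℝ) 0) :
    (1 / 2 + ((t : ℂ) + z * δ) * Complex.I) ≠ 1 := by
  intro h
  rw [Fz_arg] at h
  have h2 := congrArg Complex.re h
  simp at h2
  nlinarith [hz.1, hz.2]

lemma Fz_cont (hK : Ker K A C) {δ t : ℝ} (h0 : 0 < δ) (h1 : δ < 1 / 4) :
    ContinuousOn (Fz K m δ t) {z | z.im ∈ Set.Icc (-1 : ℝ) 0} := by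
  unfold Fz
  refine ContinuousOn.mul (ContinuousOn.pow ?_ m) hK.cont
  intro z hz
  refine ContinuousAt.continuousWithinAt ?_
  exact ContinuousAt.comp (g := riemannZeta) (differentiableAt_riemannZeta (zeta_arg_ne h0 h1 hz)).continuousAt (by fun_prop)

lemma Fz_diff (hK : Ker K A C) {δ t : ℝ} (h0 : 0 < δ) (h1 : δ < 1 / 4) :
    DifferentiableOn ℂ (Fz K m δ t) {z | z.im ∈ Set.Ioo (-1 : ℝ) 0} := by
  unfold Fz
  refine DifferentiableOn.mul (DifferentiableOn.pow ?_ m) hK.diff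
  intro z hz
  refine DifferentiableAt.differentiableWithinAt ?_
  exact DifferentiableAt.comp (g := riemannZeta) z
    (differentiableAt_riemannZeta (zeta_arg_ne h0 h1 ⟨hz.1.le, hz.2.le⟩)) (by fun_prop)

/-- the line of integration is moved from the critical line -/
theorem strip_shift (hK : Ker K A C) (hm : 1 ≤ m) (hC : 0 < C) (hA : 1 + 5 / 8 * m < A) {δ : ℝ} (h0 : 0 < δ) (h1 : δ < 1 / 4)
    (t : ℝ) : Integrable (fun u : ℝ => Fz K m δ t u) ∧ ∫ u : ℝ, Fz K m δ t u = Xf (wk K) m δ t := by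
  have D := dat_k hK hm hC hA
  have hκ : 1 < A - 5 / 8 * m := by linarith
  have hi1 : Integrable (fun u : ℝ => Fz K m δ t u) := by
    refine ((one_abs_int hκ).const_mul (12 ^ m * C * (1 + |t|) ^ (5 / 8 * m : ℝ))).mono' ?_ (Eventually.of_forall fun u => ?_)
    · exact (Continuous.aestronglyMeasurable ((Fz_cont hK h0 h1).comp_continuous Complex.continuous_ofReal fun u => by simp))
    · have := Fz_bd (m := m) hK hC h0 h1 t (z := (u : ℂ)) (by simp)
      rwa [Complex.ofReal_re] at this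
  refine ⟨hi1, ?_⟩
  have hi2 := fi_int D h0 h1 t
  have l1 : Tendsto (fun U : ℝ => ∫ u in (-U)..U, Fz K m δ t u) atTop (𝓝 (∫ u : ℝ, Fz K m δ t u)) :=
    intervalIntegral_tendsto_integral hi1 tendsto_neg_atTop_atBot tendsto_id
  have l2 : Tendsto (fun U : ℝ => ∫ u in (-U)..U, fi (wk K) m δ t u) atTop (𝓝 (Xf (wk K) m δ t)) :=
    intervalIntegral_tendsto_integral hi2 tendsto_neg_atTop_atBot tendsto_id
  obtain ⟨B, hB⟩ : ∃ B : ℝ, B = 12 ^ m * C * (1 + |t|) ^ (5 / 8 * m : ℝ) := ⟨_, rfl⟩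
  have hB0 : 0 ≤ B := by rw [hB]; positivity
  have hlim : Tendsto (fun U : ℝ => 2 * (B * U ^ (-(A - 5 / 8 * m)))) atTop (𝓝 0) := by
    have := ((tendsto_rpow_neg_atTop (show 0 < A - 5 / 8 * m by linarith)).const_mul B).const_mul 2
    rwa [mul_zero, mul_zero] at this
  have hd : Tendsto (fun U : ℝ => (∫ u in (-U)..U, Fz K m δ t u) - ∫ u in (-U)..U, fi (wk K) m δ t u) atTop (𝓝 0) := by
    refine squeeze_zero_norm' ?_ hlim
    filter_upwards [eventually_gt_atTop 0] with U hU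
    have hrect := Complex.integral_boundary_rect_eq_zero_of_continuousOn_of_differentiableOn (Fz K m δ t)
      (((-U : ℝ) : ℂ) + ((-1 : ℝ) : ℂ) * Complex.I) ((U : ℂ) + ((0 : ℝ) : ℂ) * Complex.I) ?_ ?_
    · have k1 : (((-U : ℝ) : ℂ) + ((-1 : ℝ) : ℂ) * Complex.I).re = -U := by simp
      have k2 : ((U : ℂ) + ((0 : ℝ) : ℂ) * Complex.I).re = U := by simp
      have k3 : (((-U : ℝ) : ℂ) + ((-1 : ℝ) : ℂ) * Complex.I).im = -1 := by simp
      have k4 : ((U : ℂ) + ((0 : ℝ) : ℂ) * Complex.I).im = 0 := by simp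
      rw [k1, k2, k3, k4] at hrect
      have e1 : ∫ u in (-U)..U, Fz K m δ t ((u : ℂ) + ((-1 : ℝ) : ℂ) * Complex.I) = ∫ u in (-U)..U, fi (wk K) m δ t u := by
        refine intervalIntegral.integral_congr fun u _ => ?_
        rw [← Fz_line]
        congr 1
        push_cast
        ring
      have e2 : ∫ u in (-U)..U, Fz K m δ t ((u : ℂ) + ((0 : ℝ) : ℂ) * Complex.I) = ∫ u in (-U)..U, Fz K m δ t u := by
        refine intervalIntegral.integral_congr fun u _ => ?_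
        simp
      rw [e1, e2] at hrect
      have hv : ∀ v : ℝ, |v| = U → ‖∫ y in (-1:ℝ)..0, Fz K m δ t ((v : ℂ) + (y : ℂ) * Complex.I)‖ ≤ B * U ^ (-(A - 5 / 8 * m)) := by
        intro v hv
        have h5 := intervalIntegral.norm_integral_le_of_norm_le_const (a := (-1:ℝ)) (b := 0) (C := B * U ^ (-(A - 5 / 8 * m)))
          (f := fun y : ℝ => Fz K m δ t ((v : ℂ) + (y : ℂ) * Complex.I)) fun y hy => ?_
        · have e3 : |(0:ℝ) - -1| = 1 := by norm_num
          rwa [e3, mul_one] at h5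
        · rw [Set.uIoc_of_le (by norm_num)] at hy
          have h6 := Fz_bd (m := m) hK hC h0 h1 t (z := (v : ℂ) + (y : ℂ) * Complex.I) (by simpa using ⟨hy.1.le, hy.2⟩)
          have e4 : ((v : ℂ) + (y : ℂ) * Complex.I).re = v := by simp
          rw [e4, hv, ← hB] at h6
          refine h6.trans (mul_le_mul_of_nonneg_left ?_ hB0)
          exact Real.rpow_le_rpow_of_nonpos hU (by linarith) (by linarith)
      have v1 := hv (-U) (by rw [abs_neg, abs_of_pos hU])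
      have v2 := hv U (abs_of_pos hU)
      have e5 : (∫ u in (-U)..U, Fz K m δ t u) - ∫ u in (-U)..U, fi (wk K) m δ t u =
          Complex.I * (∫ y in (-1:ℝ)..0, Fz K m δ t ((U : ℂ) + (y : ℂ) * Complex.I)) -
          Complex.I * ∫ y in (-1:ℝ)..0, Fz K m δ t (((-U : ℝ) : ℂ) + (y : ℂ) * Complex.I) := by
        rw [smul_eq_mul, smul_eq_mul] at hrect
        linear_combination (-1) * hrect
      rw [e5]
      refine (norm_sub_le _ _).trans ?_
      rw [norm_mul, norm_mul, Complex.norm_I, one_mul, one_mul]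
      linarith
    · refine (Fz_cont hK h0 h1).mono fun z hz => ?_
      rw [Complex.mem_reProdIm] at hz
      have := hz.2
      simp at this
      exact this
    · refine (Fz_diff hK h0 h1).mono fun z hz => ?_
      rw [Complex.mem_reProdIm] at hz
      have := hz.2
      simp at this
      exact this
  have h9 := l1.sub l2
  exact sub_eq_zero.1 (tendsto_nhds_unique h9 hd)

end Pool.Agent.H43.RM
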