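import Pool.Graph.R_pool_sql_team_seeded_843ab51a.V11128.CXL.T
import Pool.Graph.R_seed8.W184.ZetaB
import Pool.Agent.H43.RM.Ineq

set_option autoImplicit false

/-! The local maxima of zeta near the critical line, their means over shifted intervals. -/

namespace Pool.Agent.H43.RM

open Filter Topology MeasureTheory
open Pool.Agent.V11128.CXL
open Pool.Agent.Y753.SHR
open Pool.Agent.H306R2 (aF aF_pos)

/-- the local maximum over a window of radius one -/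
noncomputable def Sx (δ t : ℝ) : ℝ := ‖win 1 (fun x => zc δ x t)‖

lemma Sx_nonneg (δ t : ℝ) : 0 ≤ Sx δ t := norm_nonneg _

lemma Sx_cont {δ : ℝ} (h : δ < 1 / 4) : Continuous (Sx δ) := (win_cont h).norm

lemma zc_win {δ : ℝ} (h : δ < 1 / 4) (r t : ℝ) (x : Set.Icc (-r) r) : win r (fun x => zc δ x t) x = zc δ x t := by
  have hcont : Continuous (fun x : Set.Icc (-r) r => zc δ x t) :=
    (zc_cont2 h).comp (continuous_const.prodMk continuous_subtype_val)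
  exact win_apply hcont x

lemma zc_le {δ : ℝ} (h : δ < 1 / 4) {x t : ℝ} (hx : |x| ≤ 1) : ‖zc δ x t‖ ≤ Sx δ t := by
  rw [abs_le] at hx
  have h1 := (win 1 (fun x => zc δ x t)).norm_coe_le_norm ⟨x, hx.1, hx.2⟩
  rw [zc_win h] at h1
  exact h1

lemma zc_shift (δ x y t : ℝ) : zc δ (x + y) t = zc δ x (t + y * δ) := by
  unfold zc
  congr 3
  push_cast
  ring

lemma zc_conj (δ x t : ℝ) : zc δ (-x) (-t) = (starRingEnd ℂ) (zc δ x t) := by
  unfold zc
  rw [← riemannZeta_conj]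
  congr 1
  apply Complex.ext
  · simp
  · simp
    ring

lemma Sx_neg_le {δ : ℝ} (h : δ < 1 / 4) (t : ℝ) : Sx δ (-t) ≤ Sx δ t := by
  unfold Sx
  rw [ContinuousMap.norm_le _ (norm_nonneg _)]
  intro x
  rw [zc_win h]
  have e : zc δ x (-t) = (starRingEnd ℂ) (zc δ (-x) t) := by
    rw [← zc_conj, neg_neg]
  rw [e, RCLike.norm_conj]
  refine zc_le h ?_
  rw [abs_neg, abs_le]
  exact x.2

lemma Sx_neg {δ : ℝ} (h : δ < 1 / 4) (t : ℝ) : Sx δ (-t) = Sx δ t := by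
  refine le_antisymm (Sx_neg_le h t) ?_
  have := Sx_neg_le h (-t)
  rwa [neg_neg] at this

lemma Sxp_cont {δ β : ℝ} (h : δ < 1 / 4) (hβ : 0 < β) : Continuous fun t => Sx δ t ^ β :=
  (Sx_cont h).rpow_const fun _ => Or.inr hβ.le

/-- the mean of the maxima on `[0, 2T]` -/
lemma mean0 {δ : ℝ → ℝ} (hδ : Tendsto δ atTop (𝓝 0))
    (hδL : Tendsto (fun T : ℝ => δ T * Real.log T) atTop atTop) {β : ℝ} (hβ : 0 < β) (hβ4 : β ≤ 4) :
    ∃ C : ℝ, 0 < C ∧ ∀ᶠ T : ℝ in atTop,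
      (2 * δ T) ^ ((β / 2) ^ 2) / T * ∫ t in Set.Icc 0 (2 * T), Sx (δ T) t ^ β ≤ C := by
  obtain ⟨d, hd⟩ : ∃ d : ℝ → ℝ, ∀ T, d T = δ (T / 2) := ⟨_, fun _ => rfl⟩
  have hhalf : Tendsto (fun T : ℝ => T / 2) atTop atTop := tendsto_id.atTop_div_const (by norm_num)
  have h1 : Tendsto d atTop (𝓝 0) := by
    refine (hδ.comp hhalf).congr fun T => ?_
    rw [hd]
    rfl
  have h2 : Tendsto (fun T : ℝ => d T * Real.log T) atTop atTop := by
    have k1 := hδL.comp hhalf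
    refine tendsto_atTop_mono' _ ?_ k1
    filter_upwards [(hhalf.eventually (pos_path hδL)), eventually_gt_atTop 2] with T t1 t2
    simp only [Function.comp]
    rw [hd]
    exact mul_le_mul_of_nonneg_left (Real.log_le_log (by linarith) (by linarith)) t1.le
  obtain ⟨Φ, hΦ⟩ : ∃ Φ : Wn 1 → ℝ, Φ = fun f => ‖f‖ ^ β := ⟨_, rfl⟩
  have hc : Continuous Φ := by rw [hΦ]; exact continuous_norm.rpow_const fun _ => Or.inr hβ.le
  have hh : HomW β Φ := by
    rw [hΦ]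
    intro l f
    simp only
    rw [norm_smul, Real.mul_rpow (norm_nonneg _) (norm_nonneg _)]
  have k := (func_moment h1 h2 hβ hβ4 one_pos hc hh).2
  obtain ⟨L, hL⟩ : ∃ L : ℝ, L = aF (β / 2) * ∫ ω, Φ (win 1 (pth β ω)) ∂PP := ⟨_, rfl⟩
  rw [← hL] at k
  have hdbl : Tendsto (fun T : ℝ => 2 * T) atTop atTop := tendsto_id.const_mul_atTop (by norm_num)
  have k2 := k.comp hdbl
  refine ⟨2 * (|L| + 1), by positivity, ?_⟩
  filter_upwards [k2.eventually (gt_mem_nhds (show L < |L| + 1 by linarith [le_abs_self L])), eventually_gt_atTop 0]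
    with T t1 t2
  simp only [Function.comp] at t1
  have e1 : d (2 * T) = δ T := by
    rw [hd]
    congr 1
    ring
  rw [e1] at t1
  have e2 : (2 * δ T) ^ ((β / 2) ^ 2) / T * ∫ t in Set.Icc 0 (2 * T), Sx (δ T) t ^ β =
      2 * ((2 * δ T) ^ ((β / 2) ^ 2) / (2 * T) * ∫ t in Set.Icc 0 (2 * T), Φ (win 1 fun x => zc (δ T) x t)) := by
    rw [hΦ]
    unfold Sx
    field_simp
  rw [e2]
  linarith

lemma icc_eq {f : ℝ → ℝ} {a b : ℝ} (h : a ≤ b) : ∫ t in Set.Icc a b, f t = ∫ t in a..b, f t := by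
  rw [integral_Icc_eq_integral_Ioc, intervalIntegral.integral_of_le h]

/-- the means over shifted intervals -/
lemma mean_shift {δ : ℝ → ℝ} (hδ : Tendsto δ atTop (𝓝 0))
    (hδL : Tendsto (fun T : ℝ => δ T * Real.log T) atTop atTop) {β : ℝ} (hβ : 0 < β) (hβ4 : β ≤ 4) :
    ∃ C : ℝ, 0 < C ∧ ∀ᶠ T : ℝ in atTop, ∀ y : ℝ, |y| ≤ T →
      (2 * δ T) ^ ((β / 2) ^ 2) / T * ∫ t in Set.Icc 0 T, Sx (δ T) (t + y) ^ β ≤ C := by
  obtain ⟨C, hC, h⟩ := mean0 hδ hδL hβ hβ4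
  refine ⟨2 * C, by positivity, ?_⟩
  filter_upwards [h, pos_path hδL, hδ.eventually (gt_mem_nhds (show (0:ℝ) < 1 / 4 by norm_num)),
    eventually_gt_atTop 0] with T h1 h2 h3 h4 y hy
  rw [abs_le] at hy
  have hcont := Sxp_cont h3 hβ
  have hn : ∀ t, 0 ≤ Sx (δ T) t ^ β := fun t => Real.rpow_nonneg (Sx_nonneg _ _) _
  obtain ⟨W, hW⟩ : ∃ W : ℝ, W = (2 * δ T) ^ ((β / 2) ^ 2) / T := ⟨_, rfl⟩
  have hW0 : 0 < W := by rw [hW]; positivity
  rw [← hW] at h1 ⊢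
  have e1 : ∫ t in Set.Icc 0 T, Sx (δ T) (t + y) ^ β = ∫ t in (0 + y)..(T + y), Sx (δ T) t ^ β := by
    rw [icc_eq h4.le, intervalIntegral.integral_comp_add_right (fun t => Sx (δ T) t ^ β)]
  have e2 : ∫ t in (0 + y)..(T + y), Sx (δ T) t ^ β ≤ ∫ t in (-(2 * T))..(2 * T), Sx (δ T) t ^ β :=
    intervalIntegral.integral_mono_interval (by linarith) (by linarith) (by linarith)
      (Eventually.of_forall hn) (hcont.intervalIntegrable _ _)
  have e3 : ∫ t in (-(2 * T))..(2 * T), Sx (δ T) t ^ β = 2 * ∫ t in (0:ℝ)..(2 * T), Sx (δ T) t ^ β := by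
    rw [← intervalIntegral.integral_add_adjacent_intervals (hcont.intervalIntegrable (-(2 * T)) 0)
      (hcont.intervalIntegrable 0 (2 * T))]
    have e4 : ∫ t in (-(2 * T))..0, Sx (δ T) t ^ β = ∫ t in (0:ℝ)..(2 * T), Sx (δ T) t ^ β := by
      have e5 := intervalIntegral.integral_comp_neg (a := 0) (b := 2 * T) (fun t => Sx (δ T) t ^ β)
      rw [neg_zero] at e5
      rw [← e5]
      refine intervalIntegral.integral_congr fun t _ => ?_
      rw [Sx_neg h3]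
    rw [e4]
    ring
  rw [e1]
  rw [icc_eq (by linarith)] at h1
  calc W * ∫ t in (0 + y)..(T + y), Sx (δ T) t ^ β ≤ W * (2 * ∫ t in (0:ℝ)..(2 * T), Sx (δ T) t ^ β) :=
        mul_le_mul_of_nonneg_left (e2.trans e3.le) hW0.le
    _ = 2 * (W * ∫ t in (0:ℝ)..(2 * T), Sx (δ T) t ^ β) := by ring
    _ ≤ 2 * C := by linarith

end Pool.Agent.H43.RM
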